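import Pool.Agent.H1.PLN.Inp2
import Pool.Agent.H57.FAL.Cls
import Pool.Agent.H81.PLN.LrS

/-!
# The velocities at a point are not on a conic: all inputs
-/

set_option autoImplicit false

namespace Pool.PLN

open Finset Real MvPolynomial
open Pool.Agent.H49.Ent Pool.Agent.H32.Dense Pool.STK Pool.KA Pool.KSAT Pool.K2S Pool.PB Pool.STAT
  Pool.GEN Pool.S6C Pool.M3F Pool.CLO37
open Pool.LBT (ThrOf)
open Pool.STAT.CLO (Inj)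

/-- **The velocities at a point are not on a conic.** `be0`, `be1`: the numbers of `c 0`, `c 1`,
`c 2` at the windows `W` and `w1`. -/
theorem con_all (al : ℝ) (hal : 0 < al) : ∃ εa c₁ C₁ : ℝ, 0 < εa ∧ 0 < c₁ ∧ 1 ≤ C₁ ∧
    ∀ {m : ℕ} {S : PCl m} {c : ℕ → Fin m} {θ : ℝ} {g₀ : ℝ → ℝ} {Nc : ℚ → ℚ → ℝ}
      {P : List (Fin m) × Fin m → ℝ → ℝ → ℝ},
      (∀ (τ : ℝ) (J : ℕ) (F : Fam m J) (A : F.Ω → Prop), S.St τ J F A →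
        F.Tr ∧ F.Tm (τ * J) ∧ F.Rb (τ * J) ∧ Real.exp (-(τ * J)) ≤ Pe F.p A) →
      ActM Nc al g₀ → (∀ ε : ℝ, 0 < ε → 0 < g₀ ε) → ActB Nc S (c 0) →
      ThrOf (CHT.chsys m θ) S P → Inj c 3 →
    ∀ {W : ℚ} {w1 : ℝ} {be0 be1 : ℕ → ℝ} {e e₀ e₀' γ h : ℝ}, 0 < W → (W : ℝ) ≤ w1 → w1 < 1 →
      (∀ ρ : ℝ, 0 < ρ → ExvY S w1 (fun J F ω (i : Fin 2) => F.X J ω (c i))
        ((∑ l ∈ range 2, (1 - be1 l)) - ρ)) →
      (∀ l < 2, be1 l < 1) → (∀ l < 2, w1 ≤ be1 l) → (W : ℝ) ≤ be0 1 → (W : ℝ) ≤ be0 2 →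
      CHT.bet P c 1 W W ≤ be0 1 → Pool.CHT.RelvC S c 3 be0 W W e₀ → 0 < e₀' → e₀' < e₀ →
      0 < γ → H2S S W w1 e → 0 ≤ e →
      0 < h → h ≤ g₀ εa → h < 1 - W → h < 1 - be0 1 → h < θ * W →
      w1 - W < c₁ * h → be1 0 - W < c₁ * h → be1 1 - be0 1 < c₁ * h → e ≤ c₁ * h →
    ∃ φ₂ : ℝ, 0 < φ₂ ∧ ∀ K : ℕ, ∃ φ₁ : ℝ, 0 < φ₁ ∧ ∀ N : Nums, N.w0 = W → N.w1 = w1 →
      (∀ l < 2, N.g l = be1 l) → (∀ l < 2, N.g0 l = be0 l) →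
      (N.g0 2 - N.s0) - be0 2 ≤ φ₁ → be0 2 - (N.g0 2 - N.s0) ≤ φ₂ →
      (∀ l < 2, N.g l + 2 * γ ≤ N.g 2) → w1 + 2 * γ ≤ N.g 2 → N.g0 2 < 1 →
      N.g0 2 ≤ max (N.g0 1) (N.g0 2 - N.s0) + e₀' → C₁ * h ≤ N.mv → C₁ * h ≤ N.g 2 - N.g0 2 →
      ∀ c₀ : ℝ, 0 < c₀ → ConS S c N K h c₀ := by
  obtain ⟨D, hD⟩ := Pool.FAL.falS
  obtain ⟨C, hC, hfal⟩ := hD D le_rfl
  have hD0 : (0 : ℝ) ≤ D := Nat.cast_nonneg D
  obtain ⟨εa, c₁, Hc, hεa, hc₁, hHc, hcon⟩ := con_cls al hal D (12 * D + 12) (by linarith)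
  obtain ⟨c₂, hc₂⟩ : ∃ c₂ : ℝ, c₂ = min c₁ 1 := ⟨_, rfl⟩
  have hc₂0 : 0 < c₂ := by
    rw [hc₂]
    exact lt_min hc₁ one_pos
  have hc₂1 : c₂ ≤ c₁ := by
    rw [hc₂]
    exact min_le_left _ _
  have hc₂2 : c₂ ≤ 1 := by
    rw [hc₂]
    exact min_le_right _ _
  refine ⟨εa, c₂, C * (Hc + D) + 1, hεa, hc₂0, ?_, ?_⟩
  · have : 0 ≤ C * (Hc + D) := mul_nonneg (by linarith) (by linarith)
    linarith
  intro m S c θ g₀ Nc P hmem hact hg₀ hB hT hc W w1 be0 be1 e e₀ e₀' γ h hW hw hw1 hex hb1 hb2 hb3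
    hb4 hb5 hrel he₀' hee hγ h2 he hh hhg hh0 hh1 hhθ k1 k2 k3 k4
  have hW0 : (0 : ℝ) < W := by exact_mod_cast hW
  obtain ⟨he', hhe⟩ : ∃ x : ℝ, x = (Hc + D) * h := ⟨_, rfl⟩
  have hhe0 : 0 < he' := by
    rw [hhe]
    exact mul_pos (by linarith) hh
  obtain ⟨φ₂, hφ₂, H⟩ := hfal S hmem c W w1 be0 be1 e₀ e₀' γ hc hW0 (by linarith) (by linarith)
    hw1.le hb2 hb4 hex hrel he₀' hee hγ he' hhe0
  refine ⟨φ₂, hφ₂, fun K => ?_⟩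
  obtain ⟨φ₁, hφ₁, H⟩ := H K
  refine ⟨φ₁, hφ₁, fun N n0 n1 n2 n3 n4 n5 n6 n7 n8 n9 n10 n11 c₀ hc₀ => ?_⟩
  have h01 : N.w0 ≤ N.w1 := by
    rw [n0, n1]
    exact hw
  have hCh : C * he' ≤ (C * (Hc + D) + 1) * h := by
    rw [hhe]
    nlinarith
  have e2 : c₂ * h ≤ c₁ * h := mul_le_mul_of_nonneg_right hc₂1 hh.le
  have e3 : c₂ * h ≤ 1 * h := mul_le_mul_of_nonneg_right hc₂2 hh.le
  have hLr : ∀ q h' c₀ : ℝ, 0 < q → 0 < c₀ → (12 * D + 12) * q / c₀ ≤ h' →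
      LrS S c N K D q h' c₀ := by
    intro q h' c₀ hq hc₀ hle
    refine lrS hmem (by rw [n0]; exact hW0.le) h01 (by rw [n1]; exact hw1)
      (by rw [n2 0 (by norm_num)]; exact hb1 0 (by norm_num))
      (by rw [n2 1 (by norm_num)]; exact hb1 1 (by norm_num)) (by rw [n1]; linarith)
      (by rw [n3 1 (by norm_num)]; linarith) (fun ρ hρ => ?_) hq hc₀ hle
    rw [n1]
    have e4 : ∑ l ∈ range 2, (1 - N.g l) = ∑ l ∈ range 2, (1 - be1 l) :=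
      Finset.sum_congr rfl fun l hl => by rw [n2 l (Finset.mem_range.1 hl)]
    rw [e4]
    exact hex ρ hρ
  refine hcon (W := W) hmem hact hg₀ hB hT (by rw [n0, n1]; exact h2) he n0 hW h01
    (by rw [n1]; exact hw1)
    (by rw [n2 0 (by norm_num)]; exact hb1 0 (by norm_num))
    (by rw [n2 1 (by norm_num)]; exact hb1 1 (by norm_num))
    (by rw [n3 1 (by norm_num)]; exact hb3) (by rw [n3 1 (by norm_num)]; exact hb5) hh hhg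
    (by rw [n0]; exact hh0) (by rw [n3 1 (by norm_num)]; exact hh1) hhθ (lam := c₂ * h)
    (by rw [n0, n1]; exact k1) (by rw [n0, n2 0 (by norm_num)]; exact k2)
    (by rw [n3 1 (by norm_num), n2 1 (by norm_num)]; exact k3) e2 (k4.trans e2) (he := he') ?_
    ?_ (fun q h' c₀ hq _ hc₀ hle => hLr q h' c₀ hq hc₀ hle) c₀ hc₀
  · rw [n0, n1, hhe]
    have : D * (w1 - W) ≤ D * h := mul_le_mul_of_nonneg_left (by linarith) hD0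
    linarith
  · intro c₀ hc₀
    refine H N n0 n1 (fun l hl => by rw [n2 l hl]; linarith)
      (fun l hl => by rw [n3 l hl]; simp [hφ₁.le]) n4 n5 n6 n7 n8 n9 (hCh.trans n10)
      (hCh.trans n11) c₀ hc₀ (he' * (c₀ / 4) / (12 * D + 12)) (hLr _ _ _ (by positivity)
        (by positivity) ?_)
    rw [div_le_iff₀ (by positivity)]
    field_simp
    exact le_rfl

end Pool.PLN
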