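import Pool.Agent.H1.PLN.Cmm
import Pool.Agent.H26.PLN.Iid

/-!
# The velocities at a point are not on a conic: the class
-/

set_option autoImplicit false

namespace Pool.PLN

open Finset Real MvPolynomial
open Pool.Agent.H49.Ent Pool.Agent.H32.Dense Pool.STK Pool.KA Pool.KSAT Pool.K2S Pool.PB Pool.STAT
  Pool.GEN Pool.S6C Pool.M3F Pool.CLO37

variable {m : ℕ}

section dat

variable {J : ℕ} {N : Nums} {φ φ' : ℝ} {K : ℕ} {F : Fam m J} {c : ℕ → Fin m} {A B : F.Ω → Prop}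

theorem nlabw_sub {r W sg : ℕ} {g : ℕ → ℕ} {K : ℕ} {L : ℝ} {V : Type} {z : PtT F → V}
    {z' : LnT F → V} {P : V → ℕ → PN} (h : NLabW F c r W sg g K L A z z' P) (hB : Sub B A) :
    NLabW F c r W sg g K L B z z' P :=
  ⟨h.deg, h.tri, fun ω hω => h.cls ω (hB ω hω), fun ω hω => h.zero ω (hB ω hω),
    fun ω hω => h.pos ω (hB ω hω), fun ω hω => h.posN ω (hB ω hω),
    fun ω hω => h.grad ω (hB ω hω)⟩

/-- The labels on a smaller event. -/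
def Dat.sub (d : Dat N φ K F c A) (hB : Sub B A) : Dat N φ K F c B where
  V := d.V
  V0 := d.V0
  z := d.z
  z' := d.z'
  P := d.P
  g' := d.g'
  sg := d.sg
  zz := d.zz
  zz' := d.zz'
  P0 := d.P0
  g0' := d.g0'
  sg0 := d.sg0
  pr := d.pr
  kap := d.kap
  L := d.L
  G0 := d.G0
  a := d.a
  lab := nlabw_sub d.lab hB
  lab0 := nlabw_sub d.lab0 hB
  prz := fun ω hω => d.prz ω (hB ω hω)
  dg := d.dg
  dg0 := d.dg0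
  num := d.num
  num0 := d.num0
  nums := d.nums
  nums0 := d.nums0
  numz := d.numz
  top := d.top
  top0 := d.top0
  srt := d.srt
  srt0 := d.srt0
  win := d.win
  win0 := d.win0
  kapφ := d.kapφ
  L0 := d.L0
  L1 := d.L1
  pos0 := fun ω hω => d.pos0 ω (hB ω hω)
  siz0 := fun ω hω => d.siz0 ω (hB ω hω)

/-- The labels with a larger slack. -/
def Dat.mono (d : Dat N φ K F c A) (h : φ ≤ φ') : Dat N φ' K F c A :=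
  have hJ : φ * J ≤ φ' * J := mul_le_mul_of_nonneg_right h (Nat.cast_nonneg J)
  { V := d.V
    V0 := d.V0
    z := d.z
    z' := d.z'
    P := d.P
    g' := d.g'
    sg := d.sg
    zz := d.zz
    zz' := d.zz'
    P0 := d.P0
    g0' := d.g0'
    sg0 := d.sg0
    pr := d.pr
    kap := d.kap
    L := d.L
    G0 := d.G0
    a := d.a
    lab := d.lab
    lab0 := d.lab0
    prz := d.prz
    dg := d.dg
    dg0 := d.dg0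
    num := fun l hl => (d.num l hl).trans hJ
    num0 := fun l hl => (d.num0 l hl).trans hJ
    nums := d.nums.trans hJ
    nums0 := d.nums0.trans hJ
    numz := d.numz.trans hJ
    top := d.top
    top0 := d.top0
    srt := d.srt
    srt0 := d.srt0
    win := d.win
    win0 := d.win0
    kapφ := d.kapφ.trans hJ
    L0 := d.L0
    L1 := d.L1.trans hJ
    pos0 := d.pos0
    siz0 := fun ω hω i => (d.siz0 ω hω i).trans (Real.exp_le_exp.2 hJ) }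

/-- A property of one sample. -/
theorem pe_single {P : F.Ω → ℝ} (hp : IsLaw P) {Ξ : Type} (W : F.Ω → Ξ) (n : ℕ)
    (R : F.Ω → Prop) {δ : ℝ} (h : Pe P R ≤ δ) :
    Pe (Pool.KSM.iid P W n) (fun v => ∃ i, R (v i)) ≤ ((n : ℝ) + 1) * δ := by
  have h1 := pe_ex' (p := Pool.KSM.iid P W n) (univ : Finset (Fin (n + 1)))
    (Pool.KSM.iid_nonneg hp.nonneg) (A := fun v => ∃ i, R (v i)) (fun i v => R (v i)) (c := δ)
    (fun i _ => by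
      rw [pe_marg (Pool.KSM.iid_marg hp.nonneg i) R]
      exact h) (fun v _ ⟨i, hi⟩ => ⟨i, Finset.mem_univ i, hi⟩)
  rw [Finset.card_univ, Fintype.card_fin] at h1
  push_cast at h1
  exact h1

end dat

/-- **The inputs of (CON)**, for exponents up to `hm`. -/
structure ConIn (S : PCl m) (c : ℕ → Fin m) (N : Nums) (K D K' : ℕ) (CD Nt lam e he hm : ℝ)
    (Nc : ℚ → ℚ → ℝ) : Prop where
  mem : ∀ (τ : ℝ) (J : ℕ) (F : Fam m J) (A : F.Ω → Prop), S.St τ J F A →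
    Real.exp (-(τ * J)) ≤ Pe F.p A
  w0 : 0 ≤ N.w0
  w01 : N.w0 ≤ N.w1
  w1 : N.w1 ≤ 1
  fal : ∀ c₀ : ℝ, 0 < c₀ → FalS S c N K D he c₀
  lr : ∀ q h c₀ : ℝ, 0 < q → q ≤ hm → 0 < c₀ → CD * q / c₀ ≤ h → LrS S c N K D q h c₀
  pol : ∀ (n : ℕ) (q h b c₀ : ℝ), 0 < q → q ≤ hm → 0 < b → b ≤ hm → 0 ≤ h → h + b < he →
    0 < c₀ → PolS S c N K D K' n lam q h b he c₀
  ez : ∀ b c₀ : ℝ, 0 < b → b ≤ hm → 0 < c₀ → EzS S c N K b c₀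
  win : ∀ b c₀ : ℝ, 0 < b → b ≤ hm → 0 < c₀ → WinS S c N K K' b c₀
  tim : ∀ b c₀ : ℝ, 0 < b → b ≤ hm → 0 < c₀ → TimS S N.w0 b c₀
  slp : ∀ b ε' c₀ : ℝ, 0 < b → Nt * b ≤ ε' → ε' ≤ hm → 0 < c₀ → SlpS S c N K b ε' c₀
  pln : ∀ b ε' ρ' c₀ : ℝ, 0 < b → Nt * b ≤ ρ' → Nt * (ρ' + b) ≤ ε' → ε' ≤ hm → 0 < c₀ →
    PlnS S c N K b ε' ρ' c₀
  sep : ∀ (q q₁ : ℚ) (n M : ℕ), 0 ≤ q → 0 < q₁ → q + q₁ ≤ 1 →
    4 * ((n : ℝ) + 1) ^ 2 * e < Nc q (q + q₁) → SepS S (c 0) N.w0 N.w1 q q₁ n M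

/-- The good tuples have probability at least one half. -/
theorem good_cls {S : PCl m} {c : ℕ → Fin m} {N : Nums} {K D K' : ℕ} {CD Nt lam e he hm : ℝ}
    {Nc : ℚ → ℚ → ℝ} (hI : ConIn S c N K D K' CD Nt lam e he hm Nc) (n : ℕ)
    {q h b ρ₁ ε₁ : ℝ} (hq : 0 < q) (hq1 : q ≤ hm) (hb : 0 < b) (hbm : b ≤ hm) (hεm : ε₁ ≤ hm) (hh : CD * q * 32 ≤ h) (hh0 : 0 ≤ h)
    (hhe : h + b < he) (hρ : Nt * b ≤ ρ₁) (hε : Nt * (ρ₁ + b) ≤ ε₁) (hε2 : Nt * b ≤ ε₁) :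
    ∃ φ : ℝ, 0 < φ ∧ Bas S (fun J F A => ∀ d : Dat N φ K F c A, ∀ R : PtT F → Fin 6 → ℝ,
      (∀ ξ, Nq (R ξ)) → 1 / 2 ≤ Pe (pn F A ⌊N.w0 * J⌋₊ n) (fun v =>
        GdT d D K' ⌊q * J⌋₊ R (ex lam J) (ex (q - b) J) (ex (-b) J) (ex (-(b / 4)) J)
          (ex (h + b) J) (ex (he - D * (N.w1 - N.w0) - b) J) (ex he J) (ex b J) (ex ρ₁ J)
          (ex (-b) J) (ex ε₁ J) (ex (-h) J) v)) := by
  classical
  obtain ⟨c', hc'⟩ : ∃ c' : ℝ, c' = 1 / (32 * ((n : ℝ) + 1) ^ 2) := ⟨_, rfl⟩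
  have hn : (0 : ℝ) < (n : ℝ) + 1 := by positivity
  have hc0 : 0 < c' := by
    rw [hc']
    positivity
  have hc2 : ((n : ℝ) + 1) ^ 2 * c' = 1 / 32 := by
    rw [hc']
    field_simp
  have hc1 : ((n : ℝ) + 1) * c' ≤ 1 / 32 := by
    rw [← hc2]
    refine mul_le_mul_of_nonneg_right ?_ hc0.le
    have h1 : (1 : ℝ) ≤ (n : ℝ) + 1 := by linarith [(Nat.cast_nonneg n : (0 : ℝ) ≤ n)]
    nlinarith
  obtain ⟨φ₁, hφ₁, τ₁, hτ₁, J₁, H₁⟩ := hI.fal c' hc0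
  obtain ⟨φ₂, hφ₂, τ₂, hτ₂, J₂, H₂⟩ := hI.lr q h (1 / 32) hq hq1 (by norm_num) (by
    rw [div_div_eq_mul_div, div_one]
    exact hh)
  obtain ⟨φ₃, hφ₃, τ₃, hτ₃, J₃, H₃⟩ := hI.pol n q h b (1 / 32) hq hq1 hb hbm hh0 hhe (by norm_num)
  obtain ⟨φ₄, hφ₄, τ₄, hτ₄, J₄, H₄⟩ := hI.ez (b / 2) c' (half_pos hb) (by linarith) hc0
  obtain ⟨φ₅, hφ₅, τ₅, hτ₅, J₅, H₅⟩ := hI.win (b / 4) c' (by linarith) (by linarith) hc0
  obtain ⟨τ₆, hτ₆, J₆, H₆⟩ := hI.tim b c' hb hbm hc0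
  obtain ⟨φ₇, hφ₇, τ₇, hτ₇, J₇, H₇⟩ := hI.slp b ε₁ c' hb hε2 hεm hc0
  obtain ⟨φ₈, hφ₈, τ₈, hτ₈, J₈, H₈⟩ := hI.pln b ε₁ ρ₁ c' hb hρ hε hεm hc0
  obtain ⟨J₉, H₉⟩ := const_le_ex 2 (half_pos hb)
  obtain ⟨φ, hφe⟩ : ∃ φ, φ = min (min (min φ₁ φ₂) (min φ₃ φ₄)) (min φ₅ (min φ₇ φ₈)) := ⟨_, rfl⟩
  have hφ : 0 < φ := by
    rw [hφe]
    exact lt_min (lt_min (lt_min hφ₁ hφ₂) (lt_min hφ₃ hφ₄)) (lt_min hφ₅ (lt_min hφ₇ hφ₈))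
  have p₁ : φ ≤ φ₁ := hφe ▸ ((min_le_left _ _).trans ((min_le_left _ _).trans (min_le_left _ _)))
  have p₂ : φ ≤ φ₂ := hφe ▸ ((min_le_left _ _).trans ((min_le_left _ _).trans (min_le_right _ _)))
  have p₃ : φ ≤ φ₃ := hφe ▸ ((min_le_left _ _).trans ((min_le_right _ _).trans (min_le_left _ _)))
  have p₄ : φ ≤ φ₄ := hφe ▸ ((min_le_left _ _).trans ((min_le_right _ _).trans
    (min_le_right _ _)))
  have p₅ : φ ≤ φ₅ := hφe ▸ ((min_le_right _ _).trans (min_le_left _ _))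
  have p₇ : φ ≤ φ₇ := hφe ▸ ((min_le_right _ _).trans ((min_le_right _ _).trans
    (min_le_left _ _)))
  have p₈ : φ ≤ φ₈ := hφe ▸ ((min_le_right _ _).trans ((min_le_right _ _).trans
    (min_le_right _ _)))
  obtain ⟨τ, hτe⟩ : ∃ τ, τ = min (min (min τ₁ τ₂) (min τ₃ τ₄))
    (min (min τ₅ τ₆) (min τ₇ τ₈)) := ⟨_, rfl⟩
  have hτ : 0 < τ := by
    rw [hτe]
    exact lt_min (lt_min (lt_min hτ₁ hτ₂) (lt_min hτ₃ hτ₄))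
      (lt_min (lt_min hτ₅ hτ₆) (lt_min hτ₇ hτ₈))
  have t₁ : τ ≤ τ₁ := hτe ▸ ((min_le_left _ _).trans ((min_le_left _ _).trans (min_le_left _ _)))
  have t₂ : τ ≤ τ₂ := hτe ▸ ((min_le_left _ _).trans ((min_le_left _ _).trans (min_le_right _ _)))
  have t₃ : τ ≤ τ₃ := hτe ▸ ((min_le_left _ _).trans ((min_le_right _ _).trans (min_le_left _ _)))
  have t₄ : τ ≤ τ₄ := hτe ▸ ((min_le_left _ _).trans ((min_le_right _ _).trans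
    (min_le_right _ _)))
  have t₅ : τ ≤ τ₅ := hτe ▸ ((min_le_right _ _).trans ((min_le_left _ _).trans
    (min_le_left _ _)))
  have t₆ : τ ≤ τ₆ := hτe ▸ ((min_le_right _ _).trans ((min_le_left _ _).trans
    (min_le_right _ _)))
  have t₇ : τ ≤ τ₇ := hτe ▸ ((min_le_right _ _).trans ((min_le_right _ _).trans
    (min_le_left _ _)))
  have t₈ : τ ≤ τ₈ := hτe ▸ ((min_le_right _ _).trans ((min_le_right _ _).trans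
    (min_le_right _ _)))
  refine ⟨φ, hφ, τ, hτ, max (max (max (max J₁ J₂) (max J₃ J₄)) (max (max J₅ J₆) (max J₇ J₈))) J₉,
    ?_⟩
  intro J hJ F A hS d R hR
  have j₁ : J₁ ≤ J := by omega
  have j₂ : J₂ ≤ J := by omega
  have j₃ : J₃ ≤ J := by omega
  have j₄ : J₄ ≤ J := by omega
  have j₅ : J₅ ≤ J := by omega
  have j₆ : J₆ ≤ J := by omega
  have j₇ : J₇ ≤ J := by omega
  have j₈ : J₈ ≤ J := by omega
  have j₉ : J₉ ≤ J := by omega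
  have hA : 0 < Pe F.p A := lt_of_lt_of_le (Real.exp_pos _) (hI.mem τ J F A hS)
  have hpl : IsLaw (pA F A) := isLaw_cond F.isLaw hA
  have hpn : IsLaw (pn F A ⌊N.w0 * J⌋₊ n) := Pool.KSM.iid_law hpl
  have G₁ := H₁ J j₁ F A (S.mono t₁ hS) (d.mono p₁)
  have G₂ := H₂ J j₂ F A (S.mono t₂ hS) (d.mono p₂)
  have G₃ := H₃ J j₃ F A (S.mono t₃ hS) (d.mono p₃)
  have G₄ := H₄ J j₄ F A (S.mono t₄ hS) (d.mono p₄)
  have G₅ := H₅ J j₅ F A (S.mono t₅ hS) (d.mono p₅)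
  have G₆ := H₆ J j₆ F A (S.mono t₆ hS)
  have G₇ := H₇ J j₇ F A (S.mono t₇ hS) (d.mono p₇) R hR
  have G₈ := H₈ J j₈ F A (S.mono t₈ hS) (d.mono p₈) R hR
  have G₉ := H₉ J j₉
  have hnn := hpn.nonneg
  have e₁ := Pool.PLN26.iid_pairs (n := n) hpl.nonneg
    (fun ω ω' => 2 ^ ⌊N.w0 * J⌋₊ * |F.t ω - F.t ω'| < ex b J) G₆
  have e₂ := Pool.PLN26.iid_pairs (n := n) hpl.nonneg
    (fun ω ω' => ¬ d.Fal D (ex he J) (d.κ ω) (d.κ ω') ∧ ¬ d.Fal D (ex he J) (d.κ ω') (d.κ ω)) G₁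
  have e₃ := pe_count hpn (fun (i : Fin (n + 1)) v => ¬ d.Lr D ⌊q * J⌋₊ (ex (-h) J) (v i))
    (c := 1 / 32) (fun i => by
      rw [pe_marg (Pool.KSM.iid_marg hpl.nonneg i)
        (fun ω => ¬ d.Lr D ⌊q * J⌋₊ (ex (-h) J) ω)]
      exact G₂)
  have e₅ := pe_single hpl (slam F ⌊N.w0 * J⌋₊) n
    (fun ω => ¬ d.Win K' (ex (-(b / 4)) J) ω) G₅
  have e₆ := pe_single hpl (slam F ⌊N.w0 * J⌋₊) n
    (fun ω => ∃ α β : ℝ, |β| * ex (-b) J < 1 ∧ Ln2 (R (ptr F J ω)) (ex ε₁ J) α β ∧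
      |F.d ω (c 0) - α - β * d.Ez ω| ≤ ex ε₁ J) G₇
  have e₇ := Pool.PLN26.iid_pairs (n := n) hpl.nonneg
    (fun ω ω' => ∃ α β α' β' : ℝ, |β| ≤ ex (-b) J ∧ |β'| ≤ ex (-b) J ∧
      Ln1 (R (ptr F J ω)) (ex ε₁ J) α β ∧ Ln1 (R (ptr F J ω')) (ex ε₁ J) α' β' ∧
      |d.Ez ω - α - β * F.d ω (c 0)| ≤ ex ε₁ J ∧
      |d.Ez ω - α' - β' * F.d ω (c 0)| ≤ ex ε₁ J ∧ |β - β'| < ex ρ₁ J) G₈
  have e₈ := pe_single hpl (slam F ⌊N.w0 * J⌋₊) n (fun ω => ¬ |d.Ez ω| ≤ ex (-(b / 2)) J) G₄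
  rw [hc2] at e₁ e₂ e₇
  have e₅' := e₅.trans hc1
  have e₆' := e₆.trans hc1
  have e₈' := e₈.trans hc1
  -- the union
  obtain ⟨E, hE⟩ : ∃ E : (Fin (n + 1) → F.Ω) → Prop, E = fun v =>
      GdT d D K' ⌊q * J⌋₊ R (ex lam J) (ex (q - b) J) (ex (-b) J) (ex (-(b / 4)) J)
        (ex (h + b) J) (ex (he - D * (N.w1 - N.w0) - b) J) (ex he J) (ex b J) (ex ρ₁ J)
        (ex (-b) J) (ex ε₁ J) (ex (-h) J) v := ⟨_, rfl⟩
  rw [← hE]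
  obtain ⟨B₁, hB₁⟩ : ∃ B₁ : (Fin (n + 1) → F.Ω) → Prop, B₁ = fun v => ∃ i j, i ≠ j ∧
      2 ^ ⌊N.w0 * J⌋₊ * |F.t (v i) - F.t (v j)| < ex b J := ⟨_, rfl⟩
  obtain ⟨B₂, hB₂⟩ : ∃ B₂ : (Fin (n + 1) → F.Ω) → Prop, B₂ = fun v => ∃ i j, i ≠ j ∧
      (¬ d.Fal D (ex he J) (d.κ (v i)) (d.κ (v j)) ∧
        ¬ d.Fal D (ex he J) (d.κ (v j)) (d.κ (v i))) := ⟨_, rfl⟩
  obtain ⟨B₃, hB₃⟩ : ∃ B₃ : (Fin (n + 1) → F.Ω) → Prop, B₃ = fun v =>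
      ¬ ∃ G : Finset (Fin (n + 1)), 3 * Fintype.card (Fin (n + 1)) ≤ 4 * G.card ∧
        ∀ j ∈ G, ¬ ¬ d.Lr D ⌊q * J⌋₊ (ex (-h) J) (v j) := ⟨_, rfl⟩
  obtain ⟨B₄, hB₄⟩ : ∃ B₄ : (Fin (n + 1) → F.Ω) → Prop, B₄ = fun v => ∃ i j, i ≠ j ∧
      d.Fal D (ex he J) (d.κ (v i)) (d.κ (v j)) ∧ d.Lr D ⌊q * J⌋₊ (ex (-h) J) (v j) ∧
      ¬ d.Pol K' (ex lam J) (ex (q - b) J) (ex (-b) J) (ex (-(b / 4)) J) (ex (h + b) J)
        (ex (he - D * (N.w1 - N.w0) - b) J) v i j := ⟨_, rfl⟩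
  obtain ⟨B₅, hB₅⟩ : ∃ B₅ : (Fin (n + 1) → F.Ω) → Prop, B₅ = fun v => ∃ i,
      ¬ d.Win K' (ex (-(b / 4)) J) (v i) := ⟨_, rfl⟩
  obtain ⟨B₆, hB₆⟩ : ∃ B₆ : (Fin (n + 1) → F.Ω) → Prop, B₆ = fun v => ∃ i,
      ∃ α β : ℝ, |β| * ex (-b) J < 1 ∧ Ln2 (R (ptr F J (v i))) (ex ε₁ J) α β ∧
      |F.d (v i) (c 0) - α - β * d.Ez (v i)| ≤ ex ε₁ J := ⟨_, rfl⟩
  obtain ⟨B₇, hB₇⟩ : ∃ B₇ : (Fin (n + 1) → F.Ω) → Prop, B₇ = fun v => ∃ i j, i ≠ j ∧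
      ∃ α β α' β' : ℝ, |β| ≤ ex (-b) J ∧ |β'| ≤ ex (-b) J ∧
      Ln1 (R (ptr F J (v i))) (ex ε₁ J) α β ∧ Ln1 (R (ptr F J (v j))) (ex ε₁ J) α' β' ∧
      |d.Ez (v i) - α - β * F.d (v i) (c 0)| ≤ ex ε₁ J ∧
      |d.Ez (v i) - α' - β' * F.d (v i) (c 0)| ≤ ex ε₁ J ∧ |β - β'| < ex ρ₁ J := ⟨_, rfl⟩
  obtain ⟨B₈, hB₈⟩ : ∃ B₈ : (Fin (n + 1) → F.Ω) → Prop, B₈ = fun v => ∃ i,
      ¬ |d.Ez (v i)| ≤ ex (-(b / 2)) J := ⟨_, rfl⟩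
  have f₁ : Pe (pn F A ⌊N.w0 * J⌋₊ n) B₁ ≤ 1 / 32 := by
    rw [hB₁]
    exact e₁
  have f₂ : Pe (pn F A ⌊N.w0 * J⌋₊ n) B₂ ≤ 1 / 32 := by
    rw [hB₂]
    exact e₂
  have f₃ : Pe (pn F A ⌊N.w0 * J⌋₊ n) B₃ ≤ 1 / 8 := by
    rw [hB₃]
    refine e₃.trans (le_of_eq ?_)
    norm_num
  have f₄ : Pe (pn F A ⌊N.w0 * J⌋₊ n) B₄ ≤ 1 / 32 := by
    rw [hB₄]
    exact G₃
  have f₅ : Pe (pn F A ⌊N.w0 * J⌋₊ n) B₅ ≤ 1 / 32 := by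
    rw [hB₅]
    exact e₅'
  have f₆ : Pe (pn F A ⌊N.w0 * J⌋₊ n) B₆ ≤ 1 / 32 := by
    rw [hB₆]
    exact e₆'
  have f₇ : Pe (pn F A ⌊N.w0 * J⌋₊ n) B₇ ≤ 1 / 32 := by
    rw [hB₇]
    exact e₇
  have f₈ : Pe (pn F A ⌊N.w0 * J⌋₊ n) B₈ ≤ 1 / 32 := by
    rw [hB₈]
    exact e₈'
  have g₁ : Pe (pn F A ⌊N.w0 * J⌋₊ n) (fun v => ¬ E v) ≤
      Pe (pn F A ⌊N.w0 * J⌋₊ n) B₁ + Pe (pn F A ⌊N.w0 * J⌋₊ n) (fun v => ¬ E v ∧ ¬ B₁ v) :=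
    pe_le_add hnn fun v _ hv => by
      by_cases h1 : B₁ v
      · exact Or.inl h1
      · exact Or.inr ⟨hv, h1⟩
  have g₂ : Pe (pn F A ⌊N.w0 * J⌋₊ n) (fun v => ¬ E v ∧ ¬ B₁ v) ≤
      Pe (pn F A ⌊N.w0 * J⌋₊ n) B₂ +
        Pe (pn F A ⌊N.w0 * J⌋₊ n) (fun v => (¬ E v ∧ ¬ B₁ v) ∧ ¬ B₂ v) :=
    pe_le_add hnn fun v _ hv => by
      by_cases h1 : B₂ v
      · exact Or.inl h1
      · exact Or.inr ⟨hv, h1⟩
  have g₃ : Pe (pn F A ⌊N.w0 * J⌋₊ n) (fun v => (¬ E v ∧ ¬ B₁ v) ∧ ¬ B₂ v) ≤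
      Pe (pn F A ⌊N.w0 * J⌋₊ n) B₃ +
        Pe (pn F A ⌊N.w0 * J⌋₊ n) (fun v => ((¬ E v ∧ ¬ B₁ v) ∧ ¬ B₂ v) ∧ ¬ B₃ v) :=
    pe_le_add hnn fun v _ hv => by
      by_cases h1 : B₃ v
      · exact Or.inl h1
      · exact Or.inr ⟨hv, h1⟩
  have g₄ : Pe (pn F A ⌊N.w0 * J⌋₊ n) (fun v => ((¬ E v ∧ ¬ B₁ v) ∧ ¬ B₂ v) ∧ ¬ B₃ v) ≤
      Pe (pn F A ⌊N.w0 * J⌋₊ n) B₄ +
        Pe (pn F A ⌊N.w0 * J⌋₊ n) (fun v => (((¬ E v ∧ ¬ B₁ v) ∧ ¬ B₂ v) ∧ ¬ B₃ v) ∧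
          ¬ B₄ v) :=
    pe_le_add hnn fun v _ hv => by
      by_cases h1 : B₄ v
      · exact Or.inl h1
      · exact Or.inr ⟨hv, h1⟩
  have g₅ : Pe (pn F A ⌊N.w0 * J⌋₊ n) (fun v => (((¬ E v ∧ ¬ B₁ v) ∧ ¬ B₂ v) ∧ ¬ B₃ v) ∧
      ¬ B₄ v) ≤ Pe (pn F A ⌊N.w0 * J⌋₊ n) B₅ +
        Pe (pn F A ⌊N.w0 * J⌋₊ n) (fun v => ((((¬ E v ∧ ¬ B₁ v) ∧ ¬ B₂ v) ∧ ¬ B₃ v) ∧
          ¬ B₄ v) ∧ ¬ B₅ v) :=
    pe_le_add hnn fun v _ hv => by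
      by_cases h1 : B₅ v
      · exact Or.inl h1
      · exact Or.inr ⟨hv, h1⟩
  have g₆ : Pe (pn F A ⌊N.w0 * J⌋₊ n) (fun v => ((((¬ E v ∧ ¬ B₁ v) ∧ ¬ B₂ v) ∧ ¬ B₃ v) ∧
      ¬ B₄ v) ∧ ¬ B₅ v) ≤ Pe (pn F A ⌊N.w0 * J⌋₊ n) B₆ +
        Pe (pn F A ⌊N.w0 * J⌋₊ n) (fun v => (((((¬ E v ∧ ¬ B₁ v) ∧ ¬ B₂ v) ∧ ¬ B₃ v) ∧
          ¬ B₄ v) ∧ ¬ B₅ v) ∧ ¬ B₆ v) :=
    pe_le_add hnn fun v _ hv => by
      by_cases h1 : B₆ v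
      · exact Or.inl h1
      · exact Or.inr ⟨hv, h1⟩
  have g₇ : Pe (pn F A ⌊N.w0 * J⌋₊ n) (fun v => (((((¬ E v ∧ ¬ B₁ v) ∧ ¬ B₂ v) ∧ ¬ B₃ v) ∧
      ¬ B₄ v) ∧ ¬ B₅ v) ∧ ¬ B₆ v) ≤ Pe (pn F A ⌊N.w0 * J⌋₊ n) B₇ +
        Pe (pn F A ⌊N.w0 * J⌋₊ n) B₈ := by
    refine pe_le_add hnn fun v hv hh => ?_
    obtain ⟨⟨⟨⟨⟨⟨k₀, k₁⟩, k₂⟩, k₃⟩, k₄⟩, k₅⟩, k₆⟩ := hh
    by_contra hcon
    push Not at hcon
    obtain ⟨k₇, k₈⟩ := hcon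
    refine k₀ ?_
    rw [hE]
    rw [hB₁] at k₁
    rw [hB₂] at k₂
    rw [hB₃] at k₃
    rw [hB₄] at k₄
    rw [hB₅] at k₅
    rw [hB₆] at k₆
    rw [hB₇] at k₇
    rw [hB₈] at k₈
    push Not at k₁ k₂ k₅ k₆ k₇ k₈
    refine ⟨fun i j hij => ?_, fun i j hij => ?_, ?_, fun i j hij hF hL => ?_, k₅,
      fun i α β hL hE' => ?_, fun i j hij α β α' β' hβ hβ' hL hL' hE₁ hE₂ => ?_, fun i => ?_⟩
    · have h1 := k₁ i j hij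
      have h2 : F.T1 ⌊N.w0 * J⌋₊ (v i) = F.T1 ⌊N.w0 * J⌋₊ (v j) :=
        slam_t ((pn_pos hv i).2.2.trans (pn_pos hv j).2.2.symm)
      have h3 : d.s (v i) - d.s (v j) = 2 ^ ⌊N.w0 * J⌋₊ * (F.t (v i) - F.t (v j)) := by
        unfold Dat.s
        rw [h2]
        ring
      rw [h3, abs_mul, abs_of_pos (by positivity : (0 : ℝ) < 2 ^ ⌊N.w0 * J⌋₊)]
      exact h1
    · by_cases h1 : d.Fal D (ex he J) (d.κ (v i)) (d.κ (v j))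
      · exact Or.inl h1
      · exact Or.inr (k₂ i j hij h1)
    · obtain ⟨G, hG, hG'⟩ := not_not.1 k₃
      rw [Fintype.card_fin] at hG
      exact ⟨G, hG, fun j hj => not_not.1 (hG' j hj)⟩
    · by_contra hP
      exact k₄ ⟨i, j, hij, hF, hL, hP⟩
    · by_contra h1
      push Not at h1
      have h2 := k₆ i α β (by rw [mul_comm]; exact h1) hL
      linarith
    · exact k₇ i j hij α β α' β' hβ hβ' hL hL' hE₁ hE₂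
    · have h1 := k₈ i
      have h2 : ex (-b) J = ex (-(b / 2)) J * ex (-(b / 2)) J := by
        rw [← ex_add]
        congr 1
        ring
      rw [h2]
      exact mul_le_mul G₉ h1 (abs_nonneg _) (ex_pos _ _).le
  have h1 := pe_not hpn E
  linarith

/-- The probability of an event in the law on `A`. -/
theorem pe_cond {J : ℕ} {F : Fam m J} {A : F.Ω → Prop} (hA : 0 < Pe F.p A) (X : F.Ω → Prop) :
    Pe (pA F A) X * Pe F.p A = Pe F.p (fun ω => A ω ∧ X ω) := by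
  classical
  rw [Pe_eq (pA F A), Pe_eq F.p (fun ω => A ω ∧ X ω), Finset.sum_mul]
  refine Finset.sum_congr rfl fun ω _ => ?_
  by_cases hX : X ω
  · by_cases h : A ω
    · rw [if_pos hX, if_pos ⟨h, hX⟩]
      unfold pA Pool.Agent.H49.Ent.cond
      rw [if_pos (eq_true h)]
      exact div_mul_cancel₀ _ hA.ne'
    · rw [if_pos hX, if_neg (fun h' => h h'.1)]
      unfold pA Pool.Agent.H49.Ent.cond
      rw [if_neg (fun h' => h (of_eq_true h')), zero_mul]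
  · rw [if_neg hX, if_neg (fun h' => hX h'.2), zero_mul]

theorem pend_num {r Np : ℕ} {J : ℕ} {C h b q q₁ ρ₁ ε₁ lam he w : ℝ} (hC : C ≤ ex (-b) J)
    {κ : ℝ} (hκ : ex (q + q₁) J ≤ κ)
    (h1 : ε₁ + Np * (q + q₁) ≤ h - (Np + 1) * b)
    (h2 : Np * (lam + (q + q₁) + b + ρ₁ + (r * q + b) + ε₁) ≤ he - w - b - b - 2 * Np * b)
    (h3 : Np * (ρ₁ + 2 * b + lam) + 3 * b + r * (q₁ + b) + (r + 1) * b ≤ q) :
    C * ex (-b) J ^ Np * ex h J ≤ ex ε₁ J * κ ^ Np ∧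
    C * (ex (-b) J * ex (-b) J) ^ Np * ex (he - w - b) J ≤
      (ex lam J * κ * ex b J * ex ρ₁ J * ex (r * q + b) J * ex ε₁ J) ^ Np ∧
    C * ex (-b) J * (ex (q - b) J / κ) ^ r * (ex (-b) J / ex lam J) ^ Np *
      ex (q - b) J ^ (r + 1) ≤ (ex ρ₁ J * ex b J) ^ Np * ex (r * q + b) J := by
  have hκ0 : 0 < κ := lt_of_lt_of_le (ex_pos _ _) hκ
  refine ⟨?_, ?_, ?_⟩
  · calc C * ex (-b) J ^ Np * ex h J ≤ ex (-b) J * ex (-b) J ^ Np * ex h J := by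
          refine mul_le_mul_of_nonneg_right (mul_le_mul_of_nonneg_right hC ?_) (ex_pos _ _).le
          exact pow_nonneg (ex_pos _ _).le _
      _ = ex (-b + Np * (-b) + h) J := by rw [ex_pow, ex_add, ex_add]
      _ ≤ ex (ε₁ + Np * (q + q₁)) J := ex_le (by linarith) J
      _ = ex ε₁ J * ex (q + q₁) J ^ Np := by rw [ex_pow, ex_add]
      _ ≤ _ := mul_le_mul_of_nonneg_left (pow_le_pow_left₀ (ex_pos _ _).le hκ _) (ex_pos _ _).le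
  · calc C * (ex (-b) J * ex (-b) J) ^ Np * ex (he - w - b) J ≤
        ex (-b) J * (ex (-b) J * ex (-b) J) ^ Np * ex (he - w - b) J := by
          refine mul_le_mul_of_nonneg_right (mul_le_mul_of_nonneg_right hC ?_) (ex_pos _ _).le
          exact pow_nonneg (mul_pos (ex_pos _ _) (ex_pos _ _)).le _
      _ = ex (-b + Np * (-b + -b) + (he - w - b)) J := by
          rw [← ex_add, ex_pow, ← ex_add, ← ex_add]
      _ ≤ ex (Np * (lam + (q + q₁) + b + ρ₁ + (r * q + b) + ε₁)) J := ex_le (by linarith) J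
      _ = (ex lam J * ex (q + q₁) J * ex b J * ex ρ₁ J * ex (r * q + b) J * ex ε₁ J) ^ Np := by
          rw [← ex_add, ← ex_add, ← ex_add, ← ex_add, ← ex_add, ex_pow]
      _ ≤ _ := by
          refine pow_le_pow_left₀ (by
            have := ex_pos lam J
            have := ex_pos (q + q₁) J
            have := ex_pos b J
            have := ex_pos ρ₁ J
            have := ex_pos (r * q + b) J
            have := ex_pos ε₁ J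
            positivity) ?_ _
          refine mul_le_mul_of_nonneg_right (mul_le_mul_of_nonneg_right
            (mul_le_mul_of_nonneg_right (mul_le_mul_of_nonneg_right
              (mul_le_mul_of_nonneg_left hκ (ex_pos _ _).le) (ex_pos _ _).le) (ex_pos _ _).le)
              (ex_pos _ _).le) (ex_pos _ _).le
  · have e1 : ex (q - b) J / κ ≤ ex (-(q₁ + b)) J := by
      rw [div_le_iff₀ hκ0]
      calc ex (q - b) J = ex (-(q₁ + b)) J * ex (q + q₁) J := by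
            rw [← ex_add]
            congr 1
            ring
        _ ≤ _ := mul_le_mul_of_nonneg_left hκ (ex_pos _ _).le
    have e2 : ex (-b) J / ex lam J = ex (-(b + lam)) J := by
      rw [← ex_sub]
      congr 1
      ring
    rw [e2]
    calc C * ex (-b) J * (ex (q - b) J / κ) ^ r * ex (-(b + lam)) J ^ Np *
        ex (q - b) J ^ (r + 1) ≤ ex (-b) J * ex (-b) J * ex (-(q₁ + b)) J ^ r *
          ex (-(b + lam)) J ^ Np * ex (q - b) J ^ (r + 1) := by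
          refine mul_le_mul_of_nonneg_right (mul_le_mul_of_nonneg_right ?_
            (pow_nonneg (ex_pos _ _).le _)) (pow_nonneg (ex_pos _ _).le _)
          refine mul_le_mul (mul_le_mul_of_nonneg_right hC (ex_pos _ _).le)
            (pow_le_pow_left₀ (div_pos (ex_pos _ _) hκ0).le e1 _)
            (pow_nonneg (div_pos (ex_pos _ _) hκ0).le _)
            (mul_pos (ex_pos _ _) (ex_pos _ _)).le
      _ = ex (-b + -b + r * (-(q₁ + b)) + Np * (-(b + lam)) + ((r + 1 : ℕ) : ℝ) * (q - b)) J := by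
          rw [ex_pow, ex_pow, ex_pow, ← ex_add, ← ex_add, ← ex_add, ← ex_add]
      _ ≤ ex (Np * (ρ₁ + b) + (r * q + b)) J := by
          refine ex_le ?_ J
          push_cast
          linarith
      _ = _ := by rw [← ex_add, ex_pow, ← ex_add]

/-- The end of the proof of (CON), for given numbers. -/
theorem con_fin {S : PCl m} {c : ℕ → Fin m} {N : Nums} {K D K' : ℕ} {CD Nt lam e he h : ℝ}
    {Nc : ℚ → ℚ → ℝ} (hI : ConIn S c N K D K' CD Nt lam e he h Nc) {r Np : ℕ} {C : ℝ}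
    (hCP : PEndAt r Np K' C) (hlam0 : 0 ≤ lam) {q q₁ : ℚ} {b ρ₁ ε₁ : ℝ}
    (hq0 : (0 : ℝ) < q) (hq₁0 : (0 : ℝ) < q₁) (hqh : (q : ℝ) ≤ h) (hb0 : 0 < b) (hbh : b ≤ h)
    (hbq : b ≤ q) (hεh : ε₁ ≤ h) (hρ0 : 0 < ρ₁) (hε0 : 0 ≤ ε₁)
    (hCD : CD * q * 32 ≤ r * q)
    (hhe : (r : ℝ) * q + b < he) (hNtb : Nt * b ≤ ρ₁) (hNtε : Nt * (ρ₁ + b) ≤ ε₁)
    (hNtε2 : Nt * b ≤ ε₁) (hqq1 : (q : ℝ) + q₁ ≤ 1)
    (hsep : 4 * (((4 * r + 7 : ℕ) : ℝ) + 1) ^ 2 * e < Nc q (q + q₁))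
    (h1 : ε₁ + Np * (q + q₁) ≤ h - (Np + 1) * b)
    (h2 : Np * (lam + (q + q₁) + b + ρ₁ + (r * q + b) + ε₁) ≤
      he - D * (N.w1 - N.w0) - b - b - 2 * Np * b)
    (h3 : Np * (ρ₁ + 2 * b + lam) + 3 * b + r * (q₁ + b) + (r + 1) * b ≤ q)
    {c₀ : ℝ} (hc₀ : 0 < c₀) : ConS S c N K h c₀ := by
  classical
  have hr0 : (0 : ℝ) ≤ r := Nat.cast_nonneg r
  have hrq : (0 : ℝ) ≤ r * q := mul_nonneg hr0 hq0.le
  obtain ⟨φ, hφ, τ₁, hτ₁, J₁, H₁⟩ := good_cls hI (4 * r + 7) (q := q) (h := r * q) (b := b)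
    (ρ₁ := ρ₁) (ε₁ := ε₁) hq0 hqh hb0 hbh hεh hCD hrq hhe hNtb hNtε hNtε2
  obtain ⟨τ₂, hτ₂, J₂, H₂⟩ := hI.sep q q₁ (4 * r + 7) ((r + 1) * (r + 4) + 1) (by
    have : (0 : ℚ) < q := by exact_mod_cast hq0
    exact this.le) (by exact_mod_cast hq₁0) (by exact_mod_cast hqq1) hsep
  obtain ⟨J₃, H₃⟩ := const_le_ex (max C 2) hb0
  obtain ⟨τ, hτe⟩ : ∃ τ, τ = min τ₁ τ₂ / 2 := ⟨_, rfl⟩
  have hτ : 0 < τ := by
    rw [hτe]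
    exact half_pos (lt_min hτ₁ hτ₂)
  have ht₁ : τ + τ ≤ τ₁ := by
    rw [hτe, add_halves]
    exact min_le_left _ _
  have ht₂ : τ + τ ≤ τ₂ := by
    rw [hτe, add_halves]
    exact min_le_right _ _
  obtain ⟨J₄, hJ₄⟩ := exists_nat_gt (Real.log (1 / c₀) / τ)
  refine ⟨φ, hφ, τ, hτ, max (max J₁ J₂) (max J₃ J₄), ?_⟩
  intro J hJ F A hS d R hR
  by_contra hcon
  push Not at hcon
  have j₁ : J₁ ≤ J := by omega
  have j₂ : J₂ ≤ J := by omega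
  have j₃ : J₃ ≤ J := by omega
  have j₄ : (J₄ : ℝ) ≤ J := by
    have : J₄ ≤ J := by omega
    exact_mod_cast this
  have hA : 0 < Pe F.p A := lt_of_lt_of_le (Real.exp_pos _) (hI.mem τ J F A hS)
  obtain ⟨B, hB⟩ : ∃ B : F.Ω → Prop, B = fun ω => A ω ∧
      |qd (R (ptr F J ω)) (F.d ω (c 0)) (d.Ez ω)| ≤ ex h J := ⟨_, rfl⟩
  have hBA : Sub B A := fun ω hω => by
    rw [hB] at hω
    exact hω.1
  have hPB : Real.exp (-(τ * J)) * Pe F.p A ≤ Pe F.p B := by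
    rw [hB, ← pe_cond hA]
    refine mul_le_mul_of_nonneg_right ?_ hA.le
    refine le_trans ?_ hcon.le
    rw [← Real.exp_log hc₀]
    refine Real.exp_le_exp.2 ?_
    have e1 : Real.log (1 / c₀) < J * τ := by
      rw [← div_lt_iff₀ hτ]
      linarith
    rw [one_div, Real.log_inv] at e1
    linarith
  have hSB : S.St (τ + τ) J F B := S.res hτ.le hS hBA hPB
  have G₁ := H₁ J j₁ F B (S.mono ht₁ hSB) (d.sub hBA) R hR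
  have G₂ := H₂ J j₂ F B (S.mono ht₂ hSB) d.V d.z d.z' (fun ω hω => d.lab.cls ω (hBA ω hω)) _ G₁
  obtain ⟨v, hv, hvp, hu⟩ := G₂
  choose u hu using hu
  have G₃ := H₃ J j₃
  have hJJ : (0 : ℝ) ≤ J := Nat.cast_nonneg J
  have hw0J : ⌊N.w0 * J⌋₊ ≤ J := by
    have e1 : (⌊N.w0 * J⌋₊ : ℝ) ≤ N.w0 * J := Nat.floor_le (mul_nonneg hI.w0 hJJ)
    have e2 : N.w0 * J ≤ 1 * J := mul_le_mul_of_nonneg_right (by linarith [hI.w01, hI.w1]) hJJ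
    rw [one_mul] at e2
    exact_mod_cast e1.trans e2
  have hqq0 : (0 : ℝ) ≤ (q : ℝ) + q₁ := by linarith
  have hκ1 : ex ((q : ℝ) + q₁) J ≤ 1 / 2 ^ ⌊((q : ℝ) + q₁) * J⌋₊ := ex_floor hqq0 J
  have hκ2 : (1 : ℝ) / 2 ^ ⌊((q : ℝ) + q₁) * J⌋₊ ≤ ex (q - b) J := by
    refine (floor_ex _ J).trans ?_
    calc 2 * ex ((q : ℝ) + q₁) J ≤ ex (-b) J * ex ((q : ℝ) + q₁) J :=
          mul_le_mul_of_nonneg_right ((le_max_right _ _).trans G₃) (ex_pos _ _).le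
      _ = ex (-b + (q + q₁)) J := (ex_add _ _ _).symm
      _ ≤ _ := ex_le (by linarith) J
  have hq2 : (1 : ℝ) / 2 ^ ⌊(q : ℝ) * J⌋₊ ≤ ex (q - b) J := by
    refine (floor_ex _ J).trans ?_
    calc 2 * ex (q : ℝ) J ≤ ex (-b) J * ex (q : ℝ) J :=
          mul_le_mul_of_nonneg_right ((le_max_right _ _).trans G₃) (ex_pos _ _).le
      _ = ex (-b + q) J := (ex_add _ _ _).symm
      _ ≤ _ := ex_le (by linarith) J
  obtain ⟨n₁, n₂, n₃⟩ := pend_num (r := r) (Np := Np) (J := J) (C := C) (h := h) (b := b) (q := q)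
    (q₁ := q₁) (ρ₁ := ρ₁) (ε₁ := ε₁) (lam := lam) (he := he) (w := D * (N.w1 - N.w0))
    ((le_max_left _ _).trans G₃) hκ1 h1 h2 h3
  exact con_mem hCP hw0J (d.sub hBA) (D := D) (qn := ⌊(q : ℝ) * J⌋₊)
    (q1n := ⌊((q : ℝ) + q₁) * J⌋₊) (R := R) hR
    (fun ω hω => by
      rw [hB] at hω
      exact hω.2) (ex_pos lam J) (ex_le_one hlam0 J) le_rfl (ex_pos _ _)
    (ex_le_one (by linarith) J) hq2 rfl hκ2 (ex_pos b J) (ex_le_one hb0.le J) (ex_pos ρ₁ J)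
    (ex_le_one hρ0.le J) (one_le_ex (by linarith) J) (one_le_ex (by linarith) J)
    (ex_pos _ _).le (ex_pos h J).le (ex_pos ε₁ J) (ex_le_one hε0 J) (ex_pos _ _)
    (ex_le_one (by linarith) J) n₁ n₂ n₃ hv hvp
    (fun j a => (hu j a).1.1) (fun j a => (hu j a).1.2.1) (fun j a => (hu j a).1.2.2.1)
    (fun j a i => (hu j a).1.2.2.2.1 i) (fun j a => (hu j a).1.2.2.2.2)
    (fun j a a' haa => (hu j a).2 a' haa)

end Pool.PLN
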