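import Pool.Agent.H1.PLN.Stm

/-!
# The velocities at a point are not on a conic: one member
-/

set_option autoImplicit false

namespace Pool.PLN

open Finset Real MvPolynomial
open Pool.Agent.H49.Ent Pool.Agent.H32.Dense Pool.STK Pool.KA Pool.KSAT Pool.K2S Pool.PB Pool.STAT
  Pool.GEN Pool.S6C Pool.M3F Pool.CLO37

variable {m J : ℕ}

/-- Tournaments. -/
theorem tourn {ι : Type} [DecidableEq ι] (T : ι → ι → Prop) (G : Finset ι) {k : ℕ}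
    (hG : 2 * k + 1 ≤ G.card) (hT : ∀ i ∈ G, ∀ j ∈ G, i ≠ j → T i j ∨ T j i) :
    ∃ i₀ ∈ G, ∃ I : Finset ι, I ⊆ G ∧ k ≤ I.card ∧ ∀ j ∈ I, j ≠ i₀ ∧ T i₀ j := by
  classical
  by_contra hcon
  push Not at hcon
  -- the number of pairs
  obtain ⟨O, hO⟩ : ∃ O : ι → Finset ι, O = fun i => G.filter fun j => j ≠ i ∧ T i j := ⟨_, rfl⟩
  have h1 : ∀ i ∈ G, (O i).card < k := by
    intro i hi
    by_contra h
    push Not at h
    obtain ⟨j, hj, hj'⟩ := hcon i hi (O i) (by rw [hO]; exact Finset.filter_subset _ _) h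
    rw [hO] at hj
    simp only [Finset.mem_filter] at hj
    exact hj' hj.2.1 hj.2.2
  have h2 : ∑ i ∈ G, (O i).card ≤ G.card * (k - 1) := by
    refine (Finset.sum_le_card_nsmul G _ (k - 1) fun i hi => ?_).trans (le_of_eq (smul_eq_mul _ _))
    have := h1 i hi
    omega
  obtain ⟨I, hI⟩ : ∃ I : ι → Finset ι, I = fun j => G.filter fun i => j ≠ i ∧ T i j := ⟨_, rfl⟩
  have h3 : ∑ i ∈ G, (O i).card = ∑ j ∈ G, (I j).card := by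
    have e1 : ∀ i ∈ G, (O i).card = ∑ j ∈ G, if j ≠ i ∧ T i j then 1 else 0 := by
      intro i _
      rw [hO, Finset.card_filter]
    have e2 : ∀ j ∈ G, (I j).card = ∑ i ∈ G, if j ≠ i ∧ T i j then 1 else 0 := by
      intro j _
      rw [hI, Finset.card_filter]
    rw [Finset.sum_congr rfl e1, Finset.sum_congr rfl e2, Finset.sum_comm]
  have h4 : ∀ i ∈ G, G.card - 1 ≤ (O i).card + (I i).card := by
    intro i hi
    have h5 : G.erase i ⊆ O i ∪ I i := by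
      intro j hj
      rw [Finset.mem_erase] at hj
      rw [Finset.mem_union, hO, hI]
      simp only [Finset.mem_filter]
      rcases hT i hi j hj.2 (Ne.symm hj.1) with h | h
      · exact Or.inl ⟨hj.2, hj.1, h⟩
      · exact Or.inr ⟨hj.2, Ne.symm hj.1, h⟩
    calc G.card - 1 = (G.erase i).card := (Finset.card_erase_of_mem hi).symm
      _ ≤ (O i ∪ I i).card := Finset.card_le_card h5
      _ ≤ _ := Finset.card_union_le _ _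
  have h5 : G.card * (G.card - 1) ≤ 2 * (G.card * (k - 1)) := by
    calc G.card * (G.card - 1) = ∑ _i ∈ G, (G.card - 1) := by
          rw [Finset.sum_const, smul_eq_mul]
      _ ≤ ∑ i ∈ G, ((O i).card + (I i).card) := Finset.sum_le_sum h4
      _ = ∑ i ∈ G, (O i).card + ∑ i ∈ G, (I i).card := Finset.sum_add_distrib
      _ ≤ 2 * (G.card * (k - 1)) := by rw [← h3]; omega
  have h6 : 0 < G.card := by omega
  have h7 : G.card - 1 ≤ 2 * (k - 1) := by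
    have h8 : G.card * (G.card - 1) ≤ G.card * (2 * (k - 1)) := by
      calc _ ≤ _ := h5
        _ = _ := by ring
    exact Nat.le_of_mul_le_mul_left h8 h6
  rcases Nat.eq_zero_or_pos k with h8 | h8
  · obtain ⟨i, hi⟩ := Finset.card_pos.1 h6
    have := h1 i hi
    omega
  · omega

/-! ### The end for one member -/

/-- The end, with its constants. -/
def PEndAt (r N K : ℕ) (C : ℝ) : Prop :=
    ∀ (lam rho₀ κ κ₂ ρ' Bd H ε εc ε' B₀ : ℝ), 0 < lam → lam ≤ 1 → 0 < rho₀ → rho₀ ≤ 1 →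
      0 < κ → κ ≤ rho₀ → 0 < κ₂ → κ₂ ≤ 1 → 0 < ρ' → ρ' ≤ 1 → 1 ≤ Bd → 1 ≤ H → 0 ≤ ε → 0 ≤ εc →
      0 < ε' → ε' ≤ 1 → 0 < B₀ → B₀ ≤ 1 →
      -- the conic
      C * Bd ^ N * εc ≤ ε' * κ ^ N →
      -- the precision
      C * (Bd * H) ^ N * ε ≤ (lam * κ * κ₂ * ρ' * B₀ * ε') ^ N →
      -- the order of vanishing
      C * H * (rho₀ / κ) ^ r * (Bd / lam) ^ N * rho₀ ^ (r + 1) ≤ (ρ' * κ₂) ^ N * B₀ →
      ∀ (s : Fin (r + 2) → ℝ) (b : Fin (r + 2) → (Fin 2 → Fin (K + 1)) → Polynomial ℝ)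
        (R : Fin (r + 2) → Fin 6 → ℝ) (Ey Ez : ℝ)
        (e w : Fin (r + 2) → Fin ((r + 1) * (r + 4) + 1) → ℝ),
        (∀ j a, (b j a).natDegree ≤ K) → (∀ j, |s j| ≤ 1) →
        (∀ j k, j ≠ k → κ₂ ≤ |s j - s k|) →
        (∀ j a x, |x - s j| ≤ lam → |(b j a).eval x| * lam ^ ((a 0 : ℕ) + a 1) ≤ 1) →
        (∀ j, ∃ x η ζ, |x - s j| ≤ rho₀ ∧ |η| ≤ rho₀ ∧ |ζ| ≤ rho₀ ∧ B₀ ≤ |Ev (b j) x η ζ|) →
        (∀ j a x, |x - s j| ≤ lam → |(b j a).eval x| ≤ H * |(b j a).eval (s j)|) →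
        (∀ j i, |e j i| ≤ rho₀ ∧ |w j i| ≤ Bd) → (∀ j i i', i ≠ i' → κ ≤ |e j i - e j i'|) →
        (∀ j i x, |x - s j| ≤ lam →
          |Ev (b j) x (e j i * (x - s j)) (w j i * (x - s j))| ≤ ε) →
        (∀ j k i, |Ev (b k) (s k) (e j i * (s k - s j)) (w j i * (s k - s j))| ≤ ε) →
        |Ey| ≤ 1 → |Ez| ≤ Bd → (∀ j, Nq (R j)) →
        (∀ j i, |qd (R j) (Ey + e j i) (Ez + w j i)| ≤ εc) →
        -- the slopes are bounded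
        (∀ j α β, |β| ≤ 1 → Ln2 (R j) ε' α β → |Ey - α - β * Ez| ≤ ε' → 1 ≤ Bd * |β|) →
        -- the planes at different times are different
        (∀ j k, j ≠ k → ∀ α β α' β', |β| ≤ Bd → |β'| ≤ Bd → Ln1 (R j) ε' α β →
          Ln1 (R k) ε' α' β' → |Ez - α - β * Ey| ≤ ε' → |Ez - α' - β' * Ey| ≤ ε' →
          ρ' ≤ |β - β'|) → False

theorem pend_at (h : PEndStmt) (r : ℕ) : ∃ N : ℕ, ∀ K : ℕ, ∃ C : ℝ, 1 ≤ C ∧ PEndAt r N K C := h r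

/-- A good tuple of samples. -/
structure GdT {N : Nums} {φ : ℝ} {K : ℕ} {F : Fam m J} {c : ℕ → Fin m} {A : F.Ω → Prop}
    (d : Dat N φ K F c A) (D K' qn : ℕ) (R : PtT F → Fin 6 → ℝ)
    (lam rho H Hw B₀ ε εf κ₂ ρ' Bd ε' Hl : ℝ) {n : ℕ} (v : Fin (n + 1) → F.Ω) : Prop where
  tim : ∀ i j, i ≠ j → κ₂ ≤ |d.s (v i) - d.s (v j)|
  fal : ∀ i j, i ≠ j → d.Fal D εf (d.κ (v i)) (d.κ (v j)) ∨ d.Fal D εf (d.κ (v j)) (d.κ (v i))
  lrp : ∃ G : Finset (Fin (n + 1)), 3 * (n + 1) ≤ 4 * G.card ∧ ∀ j ∈ G, d.Lr D qn Hl (v j)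
  pol : ∀ i j, i ≠ j → d.Fal D εf (d.κ (v i)) (d.κ (v j)) → d.Lr D qn Hl (v j) →
    d.Pol K' lam rho H Hw B₀ ε v i j
  win : ∀ i, d.Win K' Hw (v i)
  slp : ∀ i α β, Ln2 (R (ptr F J (v i))) ε' α β → |F.d (v i) (c 0) - α - β * d.Ez (v i)| ≤ ε' →
    1 ≤ Bd * |β|
  pln : ∀ i j, i ≠ j → ∀ α β α' β', |β| ≤ Bd → |β'| ≤ Bd → Ln1 (R (ptr F J (v i))) ε' α β →
    Ln1 (R (ptr F J (v j))) ε' α' β' → |d.Ez (v i) - α - β * F.d (v i) (c 0)| ≤ ε' →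
    |d.Ez (v i) - α' - β' * F.d (v i) (c 0)| ≤ ε' → ρ' ≤ |β - β'|
  ez : ∀ i, 2 * |d.Ez (v i)| ≤ Bd

section mem

variable {N : Nums} {φ : ℝ} {K : ℕ} {F : Fam m J} {c : ℕ → Fin m} {A : F.Ω → Prop}

theorem pA_pos {ω : F.Ω} (h : 0 < pA F A ω) : A ω ∧ 0 < F.p ω := by
  unfold pA Pool.Agent.H49.Ent.cond at h
  split_ifs at h with h1
  · refine ⟨of_eq_true h1, ?_⟩
    rcases (F.isLaw.nonneg ω).eq_or_lt with h2 | h2
    · rw [← h2, zero_div] at h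
      exact absurd h (lt_irrefl _)
    · exact h2
  · exact absurd h (lt_irrefl _)

theorem pA_nonneg (ω : F.Ω) : 0 ≤ pA F A ω := cond_nonneg F.isLaw.nonneg _ _ _

/-- The samples of a tuple. -/
theorem pn_pos {W n : ℕ} {v : Fin (n + 1) → F.Ω} (h : 0 < pn F A W n v) (i : Fin (n + 1)) :
    A (v i) ∧ 0 < F.p (v i) ∧ slam F W (v i) = slam F W (v 0) := by
  obtain ⟨h1, h2⟩ := Pool.KSM.iid_pos pA_nonneg h i
  obtain ⟨h3, h4⟩ := pA_pos h1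
  exact ⟨h3, h4, h2⟩

theorem Dat.pl_eq (d : Dat N φ K F c A) {ω ω' : F.Ω} (h : A ω) (h' : A ω')
    (hs : slam F ⌊N.w0 * J⌋₊ ω = slam F ⌊N.w0 * J⌋₊ ω') : d.pl ω = d.pl ω' := by
  unfold Dat.pl
  rw [d.lab0.cls ω h, d.lab0.cls ω' h', hs]

theorem slam_d {W : ℕ} {ω ω' : F.Ω} (hs : slam F W ω = slam F W ω') : F.d ω = F.d ω' :=
  congrArg (fun x => x.1.2) hs

theorem slam_u {W : ℕ} {ω ω' : F.Ω} (hs : slam F W ω = slam F W ω') : F.u ω = F.u ω' :=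
  congrArg (fun x => x.1.1) hs

theorem slam_t {W : ℕ} {ω ω' : F.Ω} (hs : slam F W ω = slam F W ω') : F.T1 W ω = F.T1 W ω' :=
  congrArg (fun x => x.2.2) hs

theorem Dat.Ez_eq (d : Dat N φ K F c A) {ω ω' : F.Ω} (h : A ω) (h' : A ω')
    (hs : slam F ⌊N.w0 * J⌋₊ ω = slam F ⌊N.w0 * J⌋₊ ω') : d.Ez ω = d.Ez ω' := by
  unfold Dat.Ez
  rw [d.pl_eq h h' hs, slam_d hs]

theorem Dat.s_le (d : Dat N φ K F c A) (hw : ⌊N.w0 * J⌋₊ ≤ J) (ω : F.Ω) : |d.s ω| ≤ 1 := by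
  unfold Dat.s
  obtain ⟨W, hW⟩ : ∃ W, W = ⌊N.w0 * J⌋₊ := ⟨_, rfl⟩
  rw [← hW] at hw ⊢
  have h1 : F.T1 W ω * 2 ^ (J - W) ≤ F.T ω := Nat.div_mul_le_self _ _
  have h2 : F.T ω < (F.T1 W ω + 1) * 2 ^ (J - W) := by
    have := Nat.lt_div_mul_add (a := F.T ω) (b := 2 ^ (J - W)) (by positivity)
    unfold Fam.T1
    linarith [this]
  have h3 : (2 : ℝ) ^ W * F.t ω = F.T ω / 2 ^ (J - W) := by
    unfold Fam.t
    have : (2 : ℝ) ^ J = 2 ^ W * 2 ^ (J - W) := by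
      rw [← pow_add]
      congr 1
      omega
    rw [this]
    field_simp
  rw [h3]
  have h4 : (0 : ℝ) < 2 ^ (J - W) := by positivity
  have h5 : (F.T1 W ω : ℝ) * 2 ^ (J - W) ≤ F.T ω := by exact_mod_cast h1
  have h6 : (F.T ω : ℝ) < (F.T1 W ω + 1) * 2 ^ (J - W) := by exact_mod_cast h2
  have h7 : (F.T1 W ω : ℝ) ≤ F.T ω / 2 ^ (J - W) := (le_div_iff₀ h4).2 h5
  have h8 : (F.T ω : ℝ) / 2 ^ (J - W) < F.T1 W ω + 1 := (div_lt_iff₀ h4).2 h6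
  rw [abs_le]
  constructor <;> linarith

/-- **The contradiction in one member.** -/
theorem con_mem {r Np K' : ℕ} {C : ℝ} (hP : PEndAt r Np K' C) (hw0 : ⌊N.w0 * J⌋₊ ≤ J)
    (d : Dat N φ K F c A) {D qn q1n : ℕ} {R : PtT F → Fin 6 → ℝ}
    {lam rho rho₀ H Hw B₀ ε εf εc κ κ₂ ρ' Bd ε' Hl : ℝ}
    (hR : ∀ ξ, Nq (R ξ))
    (hcon : ∀ ω, A ω → |qd (R (ptr F J ω)) (F.d ω (c 0)) (d.Ez ω)| ≤ εc)
    (hlam : 0 < lam) (hlam1 : lam ≤ 1) (hrho : rho ≤ rho₀) (hrho0 : 0 < rho₀) (hrho1 : rho₀ ≤ 1)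
    (hq : 1 / 2 ^ qn ≤ rho₀) (hκ : κ = 1 / 2 ^ q1n) (hκr : κ ≤ rho₀)
    (hκ₂ : 0 < κ₂) (hκ₂1 : κ₂ ≤ 1) (hρ' : 0 < ρ') (hρ'1 : ρ' ≤ 1) (hBd : 1 ≤ Bd) (hH : 1 ≤ H)
    (hε : 0 ≤ ε) (hεc : 0 ≤ εc) (hε' : 0 < ε') (hε'1 : ε' ≤ 1) (hB₀ : 0 < B₀) (hB₀1 : B₀ ≤ 1)
    (h1 : C * Bd ^ Np * εc ≤ ε' * κ ^ Np)
    (h2 : C * (Bd * H) ^ Np * ε ≤ (lam * κ * κ₂ * ρ' * B₀ * ε') ^ Np)
    (h3 : C * H * (rho₀ / κ) ^ r * (Bd / lam) ^ Np * rho₀ ^ (r + 1) ≤ (ρ' * κ₂) ^ Np * B₀)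
    {v : Fin (4 * r + 7 + 1) → F.Ω}
    (hv : GdT d D K' qn R lam rho H Hw B₀ ε εf κ₂ ρ' Bd ε' Hl v)
    (hvp : 0 < pn F A ⌊N.w0 * J⌋₊ (4 * r + 7) v)
    {u : Fin (4 * r + 7 + 1) → Fin ((r + 1) * (r + 4) + 1) → Fin (4 * r + 7 + 1) → F.Ω}
    (hu : ∀ j a, GdT d D K' qn R lam rho H Hw B₀ ε εf κ₂ ρ' Bd ε' Hl (u j a))
    (hup : ∀ j a, 0 < pn F A ⌊N.w0 * J⌋₊ (4 * r + 7) (u j a))
    (hpt : ∀ j a, ptr F J (u j a j) = ptr F J (v j))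
    (hlb : ∀ j a i, d.z (ptr F J (u j a i)) = d.z (ptr F J (v i)))
    (hD : ∀ j a, F.D qn (u j a j) (c 0) = F.D qn (v j) (c 0))
    (hsep : ∀ j a a', a ≠ a' → 1 / 2 ^ q1n ≤ |F.d (u j a j) (c 0) - F.d (u j a' j) (c 0)|) :
    False := by
  classical
  -- the tournament
  obtain ⟨G, hG, hGl⟩ := hv.lrp
  obtain ⟨i₀, hi₀, I, hIG, hIc, hI⟩ := tourn
    (fun i j => d.Fal D εf (d.κ (v i)) (d.κ (v j))) G (k := r + 2) (by omega)
    (fun i _ j _ hij => hv.fal i j hij)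
  obtain ⟨f, hf⟩ : ∃ f : Fin (r + 2) ↪ Fin (4 * r + 7 + 1), ∀ k, f k ∈ I := by
    obtain ⟨I', hI', hI'c⟩ := Finset.exists_subset_card_eq hIc
    refine ⟨(I'.orderEmbOfFin hI'c).toEmbedding, fun k => hI' ?_⟩
    exact Finset.orderEmbOfFin_mem I' hI'c k
  have hfi : ∀ k, f k ≠ i₀ ∧ d.Fal D εf (d.κ (v i₀)) (d.κ (v (f k))) := fun k => hI _ (hf k)
  have hpol : ∀ k, d.Pol K' lam rho H Hw B₀ ε v i₀ (f k) := fun k =>
    hv.pol i₀ (f k) (hfi k).1.symm (hfi k).2 (hGl _ (hIG (hf k)))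
  choose b hb1 hb2 hb3 hb4 hb5 using hpol
  have hvA : ∀ i, A (v i) := fun i => (pn_pos hvp i).1
  have hvs : ∀ i, slam F ⌊N.w0 * J⌋₊ (v i) = slam F ⌊N.w0 * J⌋₊ (v 0) := fun i =>
    (pn_pos hvp i).2.2
  have huA : ∀ j a i, A (u j a i) := fun j a i => (pn_pos (hup j a) i).1
  have hvd : ∀ i, F.d (v i) = F.d (v 0) := fun i => slam_d (hvs i)
  have hvE : ∀ i, d.Ez (v i) = d.Ez (v 0) := fun i => d.Ez_eq (hvA i) (hvA 0) (hvs i)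
  have hκ0 : 0 < κ := by
    rw [hκ]
    positivity
  have hez0 : |d.Ez (v 0)| ≤ Bd := by
    have := hv.ez 0
    have h5 := abs_nonneg (d.Ez (v 0))
    linarith
  -- the values on the copies
  have hval : ∀ (k j : Fin (r + 2)) (a : Fin ((r + 1) * (r + 4) + 1)) (x : ℝ),
      |x - d.s (v (f k))| ≤ lam →
      |Ev (b k) x ((F.d (u (f j) a (f j)) (c 0) - F.d (v (f j)) (c 0)) * (x - d.s (v (f j))))
        ((d.Ez (u (f j) a (f j)) - d.Ez (v (f j))) * (x - d.s (v (f j))))| ≤ ε := by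
    intro k j a x hx
    exact hb5 k (u (f j) a) (hup _ _) ((hu _ _).win _) ((hu _ _).win _) (hlb _ _ _) (hlb _ _ _)
      (f j) (hpt _ _) x hx
  refine hP lam rho₀ κ κ₂ ρ' Bd H ε εc ε' B₀ hlam hlam1 hrho0 hrho1 hκ0 hκr hκ₂ hκ₂1 hρ' hρ'1 hBd
    hH hε hεc hε' hε'1 hB₀ hB₀1 h1 h2 h3 (fun k => d.s (v (f k))) b
    (fun k => R (ptr F J (v (f k)))) (F.d (v 0) (c 0)) (d.Ez (v 0))
    (fun j a => F.d (u (f j) a (f j)) (c 0) - F.d (v (f j)) (c 0))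
    (fun j a => d.Ez (u (f j) a (f j)) - d.Ez (v (f j))) hb1 (fun k => d.s_le hw0 _)
    (fun j k hjk => hv.tim _ _ (fun h => hjk (f.injective h))) hb2 ?_ hb4 ?_ ?_ ?_ ?_ ?_ hez0
    (fun k => hR _) ?_ ?_ ?_
  · intro k
    obtain ⟨x, η, ζ, p1, p2, p3, p4⟩ := hb3 k
    exact ⟨x, η, ζ, p1.trans hrho, p2.trans hrho, p3.trans hrho, p4⟩
  · intro j a
    constructor
    · have e1 := hD (f j) a
      refine le_trans ?_ hq
      obtain ⟨x, hx⟩ : ∃ x, x = F.d (u (f j) a (f j)) (c 0) := ⟨_, rfl⟩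
      obtain ⟨y, hy⟩ : ∃ y, y = F.d (v (f j)) (c 0) := ⟨_, rfl⟩
      have e2 : ⌊(2 : ℝ) ^ qn * x⌋ = ⌊(2 : ℝ) ^ qn * y⌋ := by
        rw [hx, hy]
        exact e1
      rw [← hx, ← hy]
      have e3 := Int.abs_sub_lt_one_of_floor_eq_floor e2
      rw [← mul_sub, abs_mul, abs_of_pos (by positivity : (0 : ℝ) < 2 ^ qn)] at e3
      rw [le_div_iff₀ (by positivity)]
      linarith
    · have e1 := (hu (f j) a).ez (f j)
      have e2 := hv.ez (f j)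
      have e3 := abs_sub (d.Ez (u (f j) a (f j))) (d.Ez (v (f j)))
      linarith
  · intro j a a' haa
    have e1 := hsep (f j) a a' haa
    rw [hκ]
    refine e1.trans (le_of_eq ?_)
    congr 1
    ring
  · intro k a x hx
    exact hval k k a x hx
  · intro j k a
    exact hval k j a _ (by rw [sub_self, abs_zero]; exact hlam.le)
  · exact F.dir _ _
  · intro j a
    have e1 : F.d (v 0) (c 0) + (F.d (u (f j) a (f j)) (c 0) - F.d (v (f j)) (c 0)) =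
        F.d (u (f j) a (f j)) (c 0) := by
      rw [hvd (f j)]
      ring
    have e2 : d.Ez (v 0) + (d.Ez (u (f j) a (f j)) - d.Ez (v (f j))) =
        d.Ez (u (f j) a (f j)) := by
      rw [hvE (f j)]
      ring
    show |qd (R (ptr F J (v (f j)))) _ _| ≤ εc
    rw [e1, e2, ← hpt (f j) a]
    exact hcon _ (huA _ _ _)
  · intro j α β _ hL hE
    refine hv.slp (f j) α β hL ?_
    rw [hvd, hvE]
    exact hE
  · intro j k hjk α β α' β' hβ hβ' hL hL' hE hE'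
    refine hv.pln (f j) (f k) (fun h => hjk (f.injective h)) α β α' β' hβ hβ' hL hL' ?_ ?_
    · rw [hvd, hvE]
      exact hE
    · rw [hvd, hvE]
      exact hE'

end mem

end Pool.PLN
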