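import Pool.Agent.H1.PLN.Ccl

/-!
# The velocities at a point are not on a conic: the numbers
-/

set_option autoImplicit false

namespace Pool.PLN

open Finset Real Pool.GEN

/-- A good interval of the mesh. -/
theorem mesh {Nc : ℚ → ℚ → ℝ} {al : ℝ} {g₀ : ℝ → ℝ} (hN : ActM Nc al g₀) (hal : 0 < al) {X : ℚ}
    (hX : 0 < X) (hXg : 2 * (X : ℝ) ≤ g₀ (min (al / 2) (1 / 4))) {M : ℕ} (hM : 2 ≤ M) :
    ∃ i : ℕ, i < M ∧ M ≤ 2 * i ∧
      al / 2 * ((2 * X : ℝ) / M) ≤ Nc (i * (2 * X / M)) ((i + 1) * (2 * X / M)) := by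
  classical
  obtain ⟨ε, hε⟩ : ∃ ε : ℝ, ε = min (al / 2) (1 / 4) := ⟨_, rfl⟩
  have hε0 : 0 < ε := by
    rw [hε]
    exact lt_min (by linarith) (by norm_num)
  have hε1 : ε ≤ al / 2 := by
    rw [hε]
    exact min_le_left _ _
  have hε2 : ε ≤ 1 / 4 := by
    rw [hε]
    exact min_le_right _ _
  rw [← hε] at hXg
  have h1 := hN ε hε0 (2 * X) (by positivity) (by push_cast; exact hXg) M
  have hM0 : (0 : ℝ) < M := by
    have : 0 < M := by omega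
    exact_mod_cast this
  by_contra hcon
  push Not at hcon
  have h2 : (range M).filter (fun i : ℕ => M ≤ 2 * i) ⊆
      (range M).filter fun i : ℕ => Nc (i * (2 * X / M)) ((i + 1) * (2 * X / M)) <
        (al - ε) * (((2 * X : ℚ) : ℝ) / M) := by
    intro i hi
    rw [Finset.mem_filter, Finset.mem_range] at hi ⊢
    refine ⟨hi.1, lt_of_lt_of_le (hcon i hi.1 hi.2) ?_⟩
    push_cast
    refine mul_le_mul_of_nonneg_right (by linarith) ?_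
    have : (0 : ℝ) < X := by exact_mod_cast hX
    positivity
  have h3 : M ≤ 3 * ((range M).filter (fun i : ℕ => M ≤ 2 * i)).card := by
    have h4 : (range M).filter (fun i : ℕ => M ≤ 2 * i) = Finset.Ico ((M + 1) / 2) M := by
      ext i
      simp only [Finset.mem_filter, Finset.mem_range, Finset.mem_Ico]
      omega
    rw [h4, Nat.card_Ico]
    omega
  have h5 := Finset.card_le_card h2
  have h6 : (((range M).filter (fun i : ℕ => M ≤ 2 * i)).card : ℝ) ≤ ε * M :=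
    le_trans (by exact_mod_cast h5) h1
  have h7 : (M : ℝ) ≤ 3 * ((range M).filter (fun i : ℕ => M ≤ 2 * i)).card := by
    exact_mod_cast h3
  nlinarith

/-- The scales. -/
theorem scl {Nc : ℚ → ℚ → ℝ} {al : ℝ} {g₀ : ℝ → ℝ} (hN : ActM Nc al g₀) (hal : 0 < al)
    {Λ h : ℝ} (hΛ : 2 ≤ Λ) (hh : 0 < h) (hg : h ≤ g₀ (min (al / 2) (1 / 4))) (r : ℕ) :
    ∃ (X q q₁ : ℚ), (0 : ℝ) < X ∧ Λ * X ≤ h ∧ h < 2 * Λ * X ∧ (X : ℝ) ≤ q ∧ (0 : ℝ) < q₁ ∧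
      (q : ℝ) + q₁ ≤ 2 * X ∧ 8 * ((r : ℝ) + 1) * q₁ = X ∧ al / 2 * q₁ ≤ Nc q (q + q₁) := by
  obtain ⟨X, hX1, hX2⟩ : ∃ X : ℚ, h / (2 * Λ) < X ∧ (X : ℝ) < h / Λ := by
    refine exists_rat_btwn ?_
    rw [div_lt_div_iff₀ (by positivity) (by positivity)]
    have : 0 < h * Λ := by positivity
    linarith
  have hX0r : (0 : ℝ) < X := lt_trans (by positivity) hX1
  have hX0 : 0 < X := by exact_mod_cast hX0r
  have hXh : Λ * X ≤ h := by
    rw [lt_div_iff₀ (by positivity)] at hX2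
    linarith
  have hXh2 : h < 2 * Λ * X := by
    rw [div_lt_iff₀ (by positivity)] at hX1
    linarith
  obtain ⟨M, hM⟩ : ∃ M : ℕ, M = 16 * (r + 1) := ⟨_, rfl⟩
  have h2X : 2 * (X : ℝ) ≤ Λ * X := mul_le_mul_of_nonneg_right hΛ hX0r.le
  obtain ⟨i, hi1, hi2, hi3⟩ := mesh hN hal hX0 (h2X.trans (hXh.trans hg)) (M := M) (by omega)
  have hMr : (M : ℝ) = 16 * (r + 1) := by
    rw [hM]
    push_cast
    ring
  have hMq : (0 : ℚ) < M := by
    have : 0 < M := by omega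
    exact_mod_cast this
  have hMr0 : (0 : ℝ) < M := by exact_mod_cast hMq
  obtain ⟨q₁, hq₁⟩ : ∃ q₁ : ℚ, q₁ = 2 * X / M := ⟨_, rfl⟩
  obtain ⟨q, hq⟩ : ∃ q : ℚ, q = i * q₁ := ⟨_, rfl⟩
  have hq₁0 : 0 < q₁ := by
    rw [hq₁]
    positivity
  have hq₁r : (q₁ : ℝ) = 2 * X / M := by
    rw [hq₁]
    push_cast
    rfl
  have hqr : (q : ℝ) = i * q₁ := by
    rw [hq]
    push_cast
    rfl
  have hq₁0r : (0 : ℝ) < q₁ := by exact_mod_cast hq₁0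
  have hMq1 : (M : ℝ) * q₁ = 2 * X := by
    rw [hq₁r]
    field_simp
  have hi2r : (M : ℝ) ≤ 2 * i := by exact_mod_cast hi2
  have hi1r : (i : ℝ) + 1 ≤ M := by exact_mod_cast hi1
  have e1 : (M : ℝ) * q₁ ≤ 2 * i * q₁ := mul_le_mul_of_nonneg_right hi2r hq₁0r.le
  have e2 : ((i : ℝ) + 1) * q₁ ≤ M * q₁ := mul_le_mul_of_nonneg_right hi1r hq₁0r.le
  refine ⟨X, q, q₁, hX0r, hXh, hXh2, ?_, hq₁0r, ?_, ?_, ?_⟩
  · rw [hqr]
    linarith
  · rw [hqr]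
    linarith
  · rw [hMr] at hMq1
    linarith
  · have e3 : q + q₁ = (i + 1) * q₁ := by
      rw [hq]
      ring
    rw [e3, hq, hq₁r, hq₁]
    exact hi3

/-- The small numbers. -/
theorem num_b {Np r Nt X : ℝ} (hNp : 0 ≤ Np) (hr : 0 ≤ r) (hNt : 1 ≤ Nt) (hX : 0 < X) :
    ∃ ρ₁ b : ℝ, 0 < ρ₁ ∧ 0 < b ∧ Np * ρ₁ ≤ X / 16 ∧ ρ₁ ≤ X / 16 ∧ Nt * b ≤ ρ₁ ∧ b ≤ ρ₁ ∧
      Np * b ≤ X / 64 ∧ r * b ≤ X / 64 ∧ b ≤ X / 64 := by
  obtain ⟨ρ₁, hρ₁⟩ : ∃ ρ₁ : ℝ, ρ₁ = X / (16 * (Np + 1)) := ⟨_, rfl⟩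
  obtain ⟨b, hb⟩ : ∃ b : ℝ, b = ρ₁ / (64 * (Np + 1) * Nt * (r + 1)) := ⟨_, rfl⟩
  have hρ0 : 0 < ρ₁ := by
    rw [hρ₁]
    positivity
  have hNt0 : 0 < Nt := by linarith
  have hb0 : 0 < b := by
    rw [hb]
    positivity
  have e1 : (Np + 1) * ρ₁ = X / 16 := by
    rw [hρ₁]
    field_simp
  have e2 : 64 * (Np + 1) * Nt * (r + 1) * b = ρ₁ := by
    rw [hb]
    field_simp
  have hNpρ : 0 ≤ Np * ρ₁ := mul_nonneg hNp hρ0.le
  have f1 : ρ₁ ≤ X / 16 := by linarith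
  -- the products
  have g1 : (1 : ℝ) ≤ (Np + 1) := by linarith
  have g2 : (1 : ℝ) ≤ (r + 1) := by linarith
  have k1 : 64 * Nt ≤ 64 * (Np + 1) * Nt * (r + 1) := by
    have h1 : Nt * 1 ≤ Nt * ((Np + 1) * (r + 1)) :=
      mul_le_mul_of_nonneg_left (one_le_mul_of_one_le_of_one_le g1 g2) hNt0.le
    linarith
  have k2 : 64 * Np ≤ 64 * (Np + 1) * Nt * (r + 1) := by
    have h1 : (Np + 1) * 1 ≤ (Np + 1) * (Nt * (r + 1)) :=
      mul_le_mul_of_nonneg_left (one_le_mul_of_one_le_of_one_le hNt g2) (by linarith)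
    linarith
  have k3 : 64 * r ≤ 64 * (Np + 1) * Nt * (r + 1) := by
    have h1 : (r + 1) * 1 ≤ (r + 1) * ((Np + 1) * Nt) :=
      mul_le_mul_of_nonneg_left (one_le_mul_of_one_le_of_one_le g1 hNt) (by linarith)
    linarith
  have m1 := mul_le_mul_of_nonneg_right k1 hb0.le
  have m2 := mul_le_mul_of_nonneg_right k2 hb0.le
  have m3 := mul_le_mul_of_nonneg_right k3 hb0.le
  rw [e2] at m1 m2 m3
  have hNtb : b ≤ Nt * b := by
    have := mul_le_mul_of_nonneg_right hNt hb0.le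
    linarith
  refine ⟨ρ₁, b, hρ0, hb0, by linarith, f1, ?_, ?_, by linarith, by linarith, by linarith⟩
  · have : 0 ≤ Nt * b := mul_nonneg hNt0.le hb0.le
    linarith
  · linarith

/-- **The velocities at a point are not on a conic.** -/
theorem con (al : ℝ) (hal : 0 < al) (D : ℕ) (CD Nt : ℝ) (hNt : 1 ≤ Nt) (hP : PEndStmt) :
    ∃ εa c₁ Hc : ℝ, 0 < εa ∧ 0 < c₁ ∧ 0 < Hc ∧
    ∀ {m : ℕ} (S : Pool.PB.PCl m) (c : ℕ → Fin m) (N : Nums) (K K' : ℕ) (lam e he h : ℝ)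
      (g₀ : ℝ → ℝ) (Nc : ℚ → ℚ → ℝ), ActM Nc al g₀ → 0 < h → h ≤ g₀ εa → h ≤ 1 →
      0 ≤ lam → lam ≤ c₁ * h → e ≤ c₁ * h → Hc * h + D * (N.w1 - N.w0) ≤ he →
      ConIn S c N K D K' CD Nt lam e he h Nc → ∀ c₀ : ℝ, 0 < c₀ → ConS S c N K h c₀ := by
  classical
  obtain ⟨r, hr⟩ : ∃ r : ℕ, r = ⌈32 * CD⌉₊ := ⟨_, rfl⟩
  have hrC : 32 * CD ≤ r := by
    rw [hr]
    exact Nat.le_ceil _
  obtain ⟨Np, hNp⟩ := pend_at hP r
  obtain ⟨n, hn⟩ : ∃ n : ℝ, n = (((4 * r + 7 : ℕ) : ℝ) + 1) ^ 2 := ⟨_, rfl⟩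
  have hNp0 : (0 : ℝ) ≤ Np := Nat.cast_nonneg Np
  have hr0 : (0 : ℝ) ≤ r := Nat.cast_nonneg r
  have hn0 : 0 < n := by
    rw [hn]
    positivity
  obtain ⟨Λ, hΛ⟩ : ∃ Λ : ℝ, Λ = 100 * (Np + Nt + 1) := ⟨_, rfl⟩
  have hΛ0 : 200 ≤ Λ := by
    rw [hΛ]
    linarith
  obtain ⟨c₁, hc₁⟩ : ∃ c₁ : ℝ, c₁ = min (1 / (16 * Λ * (Np + 1)))
      (al / (256 * Λ * (r + 1) * n)) := ⟨_, rfl⟩
  have hc₁0 : 0 < c₁ := by
    rw [hc₁]
    refine lt_min ?_ ?_ <;> positivity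
  have hc₁1 : (16 * Λ * (Np + 1)) * c₁ ≤ 1 := by
    have e1 : c₁ ≤ 1 / (16 * Λ * (Np + 1)) := by
      rw [hc₁]
      exact min_le_left _ _
    have e2 : (0 : ℝ) < 16 * Λ * (Np + 1) := by positivity
    calc (16 * Λ * (Np + 1)) * c₁ ≤ (16 * Λ * (Np + 1)) * (1 / (16 * Λ * (Np + 1))) :=
          mul_le_mul_of_nonneg_left e1 e2.le
      _ = 1 := mul_one_div_cancel e2.ne'
  have hc₁2 : (256 * Λ * (r + 1) * n) * c₁ ≤ al := by
    have e1 : c₁ ≤ al / (256 * Λ * (r + 1) * n) := by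
      rw [hc₁]
      exact min_le_right _ _
    have e2 : (0 : ℝ) < 256 * Λ * (r + 1) * n := by positivity
    calc (256 * Λ * (r + 1) * n) * c₁ ≤ (256 * Λ * (r + 1) * n) *
          (al / (256 * Λ * (r + 1) * n)) := mul_le_mul_of_nonneg_left e1 e2.le
      _ = al := mul_div_cancel₀ _ e2.ne'
  refine ⟨min (al / 2) (1 / 4), c₁, 20 * (Np + 1) * (r + 1), lt_min (by linarith) (by norm_num),
    hc₁0, by positivity, ?_⟩
  intro m S c N K K' lam e he h g₀ Nc hact hh hg hh1 hlam0 hlam hee hhe hI c₀ hc₀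
  obtain ⟨X, q, q₁, hX0, hXh, hXh2, hqX, hq₁0, hqq, hq₁X, hNc⟩ :=
    scl hact hal (by linarith : (2 : ℝ) ≤ Λ) hh hg r
  obtain ⟨ρ₁, b, hρ0, hb0, b1, b2, b3, b4, b5, b6, b7⟩ := num_b hNp0 hr0 hNt hX0
  obtain ⟨C, hC1, hCP⟩ := hNp K'
  -- products
  have p1 : 100 * (Np * X) + 100 * (Nt * X) + 100 * X ≤ h := by
    have e1 : Λ * X = 100 * (Np * X) + 100 * (Nt * X) + 100 * X := by
      rw [hΛ]
      ring
    linarith
  have p2 : 0 ≤ Np * (X : ℝ) := mul_nonneg hNp0 hX0.le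
  have p3 : 0 ≤ Nt * (X : ℝ) := mul_nonneg (by linarith) hX0.le
  have p4 : Np * ((q : ℝ) + q₁) ≤ 2 * (Np * X) := by
    have := mul_le_mul_of_nonneg_left hqq hNp0
    linarith
  have p5 : (r : ℝ) * q₁ ≤ X / 8 := by linarith
  have p6 : Np * lam ≤ X / 8 := by
    have e1 : Np * lam ≤ Np * (c₁ * h) := mul_le_mul_of_nonneg_left hlam hNp0
    have e2 : Np * (c₁ * h) ≤ (Np + 1) * (c₁ * h) :=
      mul_le_mul_of_nonneg_right (by linarith) (by positivity)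
    have e3 : (16 * Λ * (Np + 1)) * c₁ * h ≤ 1 * h := mul_le_mul_of_nonneg_right hc₁1 hh.le
    have e4 : Λ * (16 * ((Np + 1) * (c₁ * h))) ≤ Λ * (2 * X) := by linarith
    have e5 := le_of_mul_le_mul_left e4 (by linarith)
    linarith
  have p7 : lam ≤ h := by
    have e1 : c₁ ≤ 1 := by
      have e2 : (1 : ℝ) ≤ 16 * Λ * (Np + 1) := by
        have : (1 : ℝ) ≤ Np + 1 := by linarith
        have h2 : (1 : ℝ) ≤ 16 * Λ := by linarith
        exact one_le_mul_of_one_le_of_one_le h2 this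
      have e3 := mul_le_mul_of_nonneg_right e2 hc₁0.le
      linarith
    have := mul_le_mul_of_nonneg_right e1 hh.le
    linarith
  have p8 : Nt * ρ₁ ≤ Nt * X / 16 := by
    have := mul_le_mul_of_nonneg_left b2 (by linarith : 0 ≤ Nt)
    linarith
  have p9 : 0 ≤ Nt * ρ₁ := mul_nonneg (by linarith) hρ0.le
  have hsep : 4 * (((4 * r + 7 : ℕ) : ℝ) + 1) ^ 2 * e < Nc q (q + q₁) := by
    rw [← hn]
    refine lt_of_lt_of_le ?_ hNc
    have e1 : 4 * n * e ≤ 4 * n * (c₁ * h) := mul_le_mul_of_nonneg_left hee (by positivity)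
    have e2 : (256 * Λ * (r + 1) * n) * c₁ * h ≤ al * h := mul_le_mul_of_nonneg_right hc₁2 hh.le
    have e3 : al * h < al * (2 * Λ * X) := mul_lt_mul_of_pos_left hXh2 hal
    have e4 : 64 * Λ * (r + 1) * (4 * n * (c₁ * h)) < 64 * Λ * (r + 1) * (al / 2 * q₁) := by
      have e5 : al * (2 * Λ * X) = 16 * Λ * (r + 1) * (al * q₁) := by
        rw [← hq₁X]
        ring
      have e6 : 0 < Λ * (r + 1) * (al * q₁) := by positivity
      calc 64 * Λ * (r + 1) * (4 * n * (c₁ * h)) = (256 * Λ * (r + 1) * n) * c₁ * h := by ring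
        _ ≤ al * h := e2
        _ < 16 * Λ * (r + 1) * (al * q₁) := by rw [← e5]; exact e3
        _ ≤ 64 * Λ * (r + 1) * (al / 2 * q₁) := by linarith
    have e5 := lt_of_mul_lt_mul_left e4 (by positivity)
    linarith
  have hw : 0 ≤ D * (N.w1 - N.w0) := mul_nonneg (Nat.cast_nonneg D) (by linarith [hI.w01])
  have s1 : (r : ℝ) * q ≤ r * h := mul_le_mul_of_nonneg_left (by linarith) hr0
  have s2 : 0 ≤ (r : ℝ) * h := by positivity
  have s3 : 0 ≤ Np * h := by positivity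
  have s4 : 0 ≤ Np * ((r : ℝ) * h) := by positivity
  have s5 : 20 * ((Np : ℝ) + 1) * (r + 1) * h =
      20 * (Np * (r * h)) + 20 * (Np * h) + 20 * (r * h) + 20 * h := by ring
  rw [s5] at hhe
  have s6 : Nt * b ≤ Nt * ρ₁ := mul_le_mul_of_nonneg_left b4 (by linarith)
  refine con_fin hI hCP hlam0 (q := q) (q₁ := q₁) (b := b) (ρ₁ := ρ₁) (ε₁ := 2 * (Nt * ρ₁))
    (by linarith) hq₁0 (by linarith) hb0 (by linarith) (by linarith) (by linarith) hρ0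
    (by linarith) ?_ (by linarith) b3 ?_ (by linarith) (by linarith) hsep ?_ ?_ ?_ hc₀
  · have : 32 * CD * q ≤ r * q := mul_le_mul_of_nonneg_right hrC (by linarith)
    linarith
  · linarith
  · linarith
  · have e1 : Np * (lam + ((q : ℝ) + q₁) + b + ρ₁ + (r * q + b) + 2 * (Nt * ρ₁)) ≤
        Np * (h + h + h + h + (r * h + h) + h) :=
      mul_le_mul_of_nonneg_left (by linarith) hNp0
    have e2 : Np * (h + h + h + h + ((r : ℝ) * h + h) + h) = 6 * (Np * h) + Np * (r * h) := by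
      ring
    linarith
  · linarith

end Pool.PLN
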