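import Pool.Agent.H35.K2S.Stab
import Pool.Agent.H32.Dense.Marg

/-!
# Probabilities of events, and exponents
-/

set_option autoImplicit false

namespace Pool.PLN

open Finset Real
open Pool.Agent.H49.Ent Pool.Agent.H32.Dense Pool.STK Pool.K2S

section pe

variable {Ω : Type} [Fintype Ω] {p : Ω → ℝ}

theorem pe_le_add (hp : ∀ ω, 0 ≤ p ω) {A B C : Ω → Prop}
    (h : ∀ ω, 0 < p ω → A ω → B ω ∨ C ω) : Pe p A ≤ Pe p B + Pe p C := by
  classical
  rw [Pe_eq, Pe_eq, Pe_eq, ← Finset.sum_add_distrib]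
  refine Finset.sum_le_sum fun ω _ => ?_
  rcases (hp ω).eq_or_lt with h0 | h0
  · rw [← h0]
    simp
  · by_cases hA : A ω
    · rcases h ω h0 hA with h1 | h1
      · rw [if_pos hA, if_pos h1]
        have : (0 : ℝ) ≤ if C ω then p ω else 0 := by split_ifs; exacts [h0.le, le_rfl]
        linarith
      · rw [if_pos hA, if_pos h1]
        have : (0 : ℝ) ≤ if B ω then p ω else 0 := by split_ifs; exacts [h0.le, le_rfl]
        linarith
    · rw [if_neg hA]
      have h1 : (0 : ℝ) ≤ if C ω then p ω else 0 := by split_ifs; exacts [h0.le, le_rfl]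
      have h2 : (0 : ℝ) ≤ if B ω then p ω else 0 := by split_ifs; exacts [h0.le, le_rfl]
      linarith

theorem pe_nonneg (hp : ∀ ω, 0 ≤ p ω) (A : Ω → Prop) : 0 ≤ Pe p A := by
  classical
  rw [Pe_eq]
  exact Finset.sum_nonneg fun ω _ => by split_ifs; exacts [hp ω, le_rfl]

theorem pe_mono (hp : ∀ ω, 0 ≤ p ω) {A B : Ω → Prop} (h : ∀ ω, 0 < p ω → A ω → B ω) :
    Pe p A ≤ Pe p B := by
  classical
  rw [Pe_eq, Pe_eq]
  refine Finset.sum_le_sum fun ω _ => ?_
  rcases (hp ω).eq_or_lt with h0 | h0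
  · rw [← h0]
    simp
  · by_cases hA : A ω
    · rw [if_pos hA, if_pos (h ω h0 hA)]
    · rw [if_neg hA]
      split_ifs
      exacts [h0.le, le_rfl]

/-- The union of finitely many events. -/
theorem pe_ex {ι : Type} (s : Finset ι) (hp : ∀ ω, 0 ≤ p ω) {A : Ω → Prop} (B : ι → Ω → Prop)
    (h : ∀ ω, 0 < p ω → A ω → ∃ i ∈ s, B i ω) : Pe p A ≤ ∑ i ∈ s, Pe p (B i) := by
  classical
  simp only [Pe_eq]
  rw [Finset.sum_comm]
  refine Finset.sum_le_sum fun ω _ => ?_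
  have h2 : ∀ i, (0 : ℝ) ≤ if B i ω then p ω else 0 := fun i => by
    split_ifs
    exacts [hp ω, le_rfl]
  rcases (hp ω).eq_or_lt with h0 | h0
  · rw [← h0]
    simp
  · by_cases hA : A ω
    · obtain ⟨i, hi, h1⟩ := h ω h0 hA
      rw [if_pos hA]
      refine le_trans (le_of_eq ?_) (Finset.single_le_sum (fun i _ => h2 i) hi)
      rw [if_pos h1]
    · rw [if_neg hA]
      exact Finset.sum_nonneg fun i _ => h2 i

theorem pe_ex' {ι : Type} (s : Finset ι) (hp : ∀ ω, 0 ≤ p ω) {A : Ω → Prop} (B : ι → Ω → Prop)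
    {c : ℝ} (hc : ∀ i ∈ s, Pe p (B i) ≤ c)
    (h : ∀ ω, 0 < p ω → A ω → ∃ i ∈ s, B i ω) : Pe p A ≤ s.card * c := by
  refine (pe_ex s hp B h).trans ?_
  calc ∑ i ∈ s, Pe p (B i) ≤ ∑ _i ∈ s, c := Finset.sum_le_sum hc
    _ = _ := by rw [Finset.sum_const, nsmul_eq_mul]

theorem pe_not (hp : IsLaw p) (A : Ω → Prop) : Pe p A + Pe p (fun ω => ¬ A ω) = 1 := by
  classical
  rw [Pe_eq, Pe_eq, ← Finset.sum_add_distrib, ← hp.sum_one]
  refine Finset.sum_congr rfl fun ω _ => ?_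
  by_cases hA : A ω <;> simp [hA]

/-- Images of laws. -/
theorem pe_marg {Ω' : Type} [Fintype Ω'] {q : Ω' → ℝ} {pr : Ω' → Ω} (h : Marg q p pr)
    (A : Ω → Prop) : Pe q (fun w => A (pr w)) = Pe p A := by
  classical
  rw [Pe_eq, Pe_eq]
  have h1 : ∀ ω, (if A ω then p ω else 0) =
      ∑ w, if pr w = ω then (if A (pr w) then q w else 0) else 0 := by
    intro ω
    by_cases hA : A ω
    · rw [if_pos hA, ← h ω]
      refine Finset.sum_congr rfl fun w _ => ?_
      by_cases hw : pr w = ω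
      · rw [if_pos hw, if_pos hw, hw, if_pos hA]
      · rw [if_neg hw, if_neg hw]
    · rw [if_neg hA]
      symm
      refine Finset.sum_eq_zero fun w _ => ?_
      by_cases hw : pr w = ω
      · rw [if_pos hw, hw, if_neg hA]
      · rw [if_neg hw]
  rw [Finset.sum_congr rfl fun ω _ => h1 ω, Finset.sum_comm]
  refine Finset.sum_congr rfl fun w _ => ?_
  rw [Finset.sum_ite_eq]
  simp

/-- **Markov**: a quarter of the indices. -/
theorem pe_count {ι : Type} [Fintype ι] [Nonempty ι] (hp : IsLaw p) (B : ι → Ω → Prop) {c : ℝ}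
    (hc : ∀ i, Pe p (B i) ≤ c) : Pe p (fun ω => ¬ ∃ G : Finset ι,
      3 * Fintype.card ι ≤ 4 * G.card ∧ ∀ j ∈ G, ¬ B j ω) ≤ 4 * c := by
  classical
  have h0 : 0 < Fintype.card ι := Fintype.card_pos
  have h1 : (Fintype.card ι : ℝ) / 4 * Pe p (fun ω => ¬ ∃ G : Finset ι,
      3 * Fintype.card ι ≤ 4 * G.card ∧ ∀ j ∈ G, ¬ B j ω) ≤ ∑ i, Pe p (B i) := by
    simp only [Pe_eq]
    rw [Finset.mul_sum, Finset.sum_comm]
    refine Finset.sum_le_sum fun ω _ => ?_
    have e1 : ∑ i, (if B i ω then p ω else 0) =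
        ((univ.filter fun i => B i ω).card : ℝ) * p ω := by
      rw [Finset.card_filter]
      push_cast
      rw [Finset.sum_mul]
      refine Finset.sum_congr rfl fun i _ => ?_
      split_ifs <;> simp
    rw [e1]
    by_cases h2 : ∃ G : Finset ι, 3 * Fintype.card ι ≤ 4 * G.card ∧ ∀ j ∈ G, ¬ B j ω
    · rw [if_neg (not_not.2 h2), mul_zero]
      exact mul_nonneg (Nat.cast_nonneg _) (hp.nonneg ω)
    · rw [if_pos h2]
      refine mul_le_mul_of_nonneg_right ?_ (hp.nonneg ω)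
      by_contra h3
      push Not at h3
      refine h2 ⟨univ.filter fun i => ¬ B i ω, ?_, fun j hj => (Finset.mem_filter.1 hj).2⟩
      have h4 := Finset.card_filter_add_card_filter_not (s := (univ : Finset ι))
        (fun i => B i ω)
      rw [Finset.card_univ] at h4
      have h5 : (4 * (univ.filter fun i => B i ω).card : ℝ) < Fintype.card ι := by linarith
      have h6 : 4 * (univ.filter fun i => B i ω).card < Fintype.card ι := by exact_mod_cast h5
      omega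
  have h2 : ∑ i, Pe p (B i) ≤ Fintype.card ι * c := by
    calc ∑ i, Pe p (B i) ≤ ∑ _i : ι, c := Finset.sum_le_sum fun i _ => hc i
      _ = _ := by rw [Finset.sum_const, Finset.card_univ, nsmul_eq_mul]
  have h3 : (0 : ℝ) < Fintype.card ι := by exact_mod_cast h0
  have h4 := h1.trans h2
  have h5 : (Fintype.card ι : ℝ) * (Pe p (fun ω => ¬ ∃ G : Finset ι,
      3 * Fintype.card ι ≤ 4 * G.card ∧ ∀ j ∈ G, ¬ B j ω)) ≤ Fintype.card ι * (4 * c) := by
    linarith
  exact le_of_mul_le_mul_left h5 h3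

end pe

/-! ### Exponents -/

/-- The size `2 ^ (-x J)`. -/
noncomputable def ex (x : ℝ) (J : ℕ) : ℝ := Real.exp (-(x * Real.log 2 * J))

theorem ex_pos (x : ℝ) (J : ℕ) : 0 < ex x J := Real.exp_pos _

theorem ex_add (x y : ℝ) (J : ℕ) : ex (x + y) J = ex x J * ex y J := by
  unfold ex
  rw [← Real.exp_add]
  congr 1
  ring

theorem ex_pow (x : ℝ) (J n : ℕ) : ex x J ^ n = ex (n * x) J := by
  unfold ex
  rw [← Real.exp_nat_mul]
  congr 1
  ring

theorem ex_zero (J : ℕ) : ex 0 J = 1 := by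
  unfold ex
  rw [zero_mul, zero_mul, neg_zero, Real.exp_zero]

theorem ex_neg (x : ℝ) (J : ℕ) : ex (-x) J = (ex x J)⁻¹ := by
  unfold ex
  rw [← Real.exp_neg]
  congr 1
  ring

theorem ex_sub (x y : ℝ) (J : ℕ) : ex (x - y) J = ex x J / ex y J := by
  rw [sub_eq_add_neg, ex_add, ex_neg]
  rfl

theorem ex_le {x y : ℝ} (h : x ≤ y) (J : ℕ) : ex y J ≤ ex x J := by
  unfold ex
  refine Real.exp_le_exp.2 ?_
  have h1 : x * Real.log 2 * J ≤ y * Real.log 2 * J :=
    mul_le_mul_of_nonneg_right (mul_le_mul_of_nonneg_right h (Real.log_nonneg one_le_two))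
      (Nat.cast_nonneg J)
  linarith

theorem ex_le_one {x : ℝ} (h : 0 ≤ x) (J : ℕ) : ex x J ≤ 1 := by
  rw [← ex_zero J]
  exact ex_le h J

theorem one_le_ex {x : ℝ} (h : x ≤ 0) (J : ℕ) : 1 ≤ ex x J := by
  rw [← ex_zero J]
  exact ex_le h J

theorem ex_two_pow (k J : ℕ) {x : ℝ} (h : (k : ℝ) ≤ x * J) : ex x J ≤ 1 / 2 ^ k := by
  unfold ex
  rw [Real.exp_neg, one_div]
  refine inv_anti₀ (by positivity) ?_
  rw [show (2 : ℝ) ^ k = Real.exp (Real.log 2 * k) by
    rw [mul_comm, Real.exp_nat_mul, Real.exp_log two_pos]]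
  refine Real.exp_le_exp.2 ?_
  have h1 : Real.log 2 * k ≤ Real.log 2 * (x * J) :=
    mul_le_mul_of_nonneg_left h (Real.log_nonneg one_le_two)
  linarith

theorem ex_floor {x : ℝ} (h : 0 ≤ x) (J : ℕ) : ex x J ≤ 1 / 2 ^ ⌊x * J⌋₊ :=
  ex_two_pow _ _ (Nat.floor_le (mul_nonneg h (Nat.cast_nonneg J)))

theorem floor_ex (x : ℝ) (J : ℕ) : 1 / 2 ^ ⌊x * J⌋₊ ≤ 2 * ex x J := by
  have h1 : x * J < ⌊x * J⌋₊ + 1 := Nat.lt_floor_add_one _
  obtain ⟨k, hk⟩ : ∃ k, k = ⌊x * J⌋₊ := ⟨_, rfl⟩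
  rw [← hk] at h1 ⊢
  have h2 : (2 : ℝ) * ex x J = Real.exp (Real.log 2 - x * Real.log 2 * J) := by
    unfold ex
    rw [sub_eq_add_neg, Real.exp_add, Real.exp_log two_pos]
  rw [h2, show (1 : ℝ) / 2 ^ k = Real.exp (-(Real.log 2 * k)) by
    rw [Real.exp_neg, mul_comm, Real.exp_nat_mul, Real.exp_log two_pos, one_div]]
  refine Real.exp_le_exp.2 ?_
  have h3 : Real.log 2 * (x * J) ≤ Real.log 2 * (k + 1) :=
    mul_le_mul_of_nonneg_left h1.le (Real.log_nonneg one_le_two)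
  linarith

/-- Constants are small powers. -/
theorem const_le_ex (C : ℝ) {b : ℝ} (hb : 0 < b) : ∃ J₀ : ℕ, ∀ J ≥ J₀, C ≤ ex (-b) J := by
  obtain ⟨J₀, hJ₀⟩ := exists_nat_gt (Real.log (max C 1) / (b * Real.log 2))
  refine ⟨J₀, fun J hJ => ?_⟩
  have hl2 : 0 < Real.log 2 := Real.log_pos one_lt_two
  have h1 : (J₀ : ℝ) ≤ J := by exact_mod_cast hJ
  have h2 : Real.log (max C 1) < J * (b * Real.log 2) := by
    rw [← div_lt_iff₀ (by positivity)]
    linarith
  refine (le_max_left C 1).trans ?_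
  have h3 : 0 < max C 1 := lt_of_lt_of_le one_pos (le_max_right _ _)
  rw [← Real.exp_log h3]
  unfold ex
  refine Real.exp_le_exp.2 ?_
  linarith

end Pool.PLN
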