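import Pool.Agent.H1.PLN.Pur
import Pool.Agent.H1.PLN.Prb
import Pool.Agent.H37.CLO.Mxw
import Pool.Agent.H37.CLO.CAbs2
import Pool.Agent.H60.KSM.Iid
import Pool.Agent.H15.KM7.Pair
import Pool.Agent.H1.GEN.Clx

/-!
# Lemma PLANE: the statements in a class

`c 0 = y` (active), `c 1 = z`, `c 2 = v`. `Dat`: the labels of a member (planes of `z` at the window
`w0`; leaves of `z` and `v` at the window `w1`). All the statements hold for all labels of all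
members.
-/

set_option autoImplicit false

namespace Pool.PLN

open Finset Real MvPolynomial
open Pool.Agent.H49.Ent Pool.Agent.H32.Dense Pool.STK Pool.KA Pool.KSAT Pool.K2S Pool.PB Pool.STAT
  Pool.GEN Pool.S6C Pool.M3F Pool.CLO37
open Pool.KAL (Psi)

variable {m J : ℕ}

/-! ### Laws -/

/-- The law on the event `A`. -/
noncomputable abbrev pA (F : Fam m J) (A : F.Ω → Prop) : F.Ω → ℝ :=
  Pool.Agent.H49.Ent.cond F.p A True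

/-- Two samples of one line in one window. -/
noncomputable abbrev p2 (F : Fam m J) (A : F.Ω → Prop) (W : ℕ) : F.Ω × F.Ω → ℝ :=
  Pool.KM7.P2 (pA F A) (slam F W)

/-- `n + 1` samples of one line in one window. -/
noncomputable abbrev pn (F : Fam m J) (A : F.Ω → Prop) (W n : ℕ) : (Fin (n + 1) → F.Ω) → ℝ :=
  Pool.KSM.iid (pA F A) (slam F W) n

/-! ### The labels of a member -/

/-- The numbers: the windows `w0`, `w1`, the precisions `g0`, `g` of `c 0`, `c 1`, `c 2` and the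
weights `s0`, `s` of `c 2` at `w0` and at `w1`. -/
structure Nums where
  w0 : ℝ
  w1 : ℝ
  g0 : ℕ → ℝ
  g : ℕ → ℝ
  s0 : ℝ
  s : ℝ

/-- The fall of `c 2`. -/
def Nums.mv (N : Nums) : ℝ := (N.g 2 - N.s) - (N.g0 2 - N.s0)

/-- An affine function of the time and of one coordinate. -/
def af (a : Fin 3 → ℝ) (t y : ℝ) : ℝ := a 0 + a 1 * t + a 2 * y

/-- **The labels of a member.** `z`, `P`: the leaves of `c 0`, `c 1`, `c 2` at the window `w1`, with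
the weight `2 ^ (-sg)` for `c 2`. `zz`, `P0`: the same at the window `w0`. `pr`: the label at `w0` is
a function of the label at `w1`. The labels of `c 0` and `c 1` are affine. `a`: the planes of `c 1` over the time and `c 0` at the window
`w0`, with the precision `G0`. -/
structure Dat (N : Nums) (φ : ℝ) (K : ℕ) (F : Fam m J) (c : ℕ → Fin m) (A : F.Ω → Prop) :
    Type 1 where
  V : Type
  V0 : Type
  z : PtT F → V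
  z' : LnT F → V
  P : V → ℕ → PN
  g' : ℕ → ℕ
  sg : ℕ
  zz : PtT F → V0
  zz' : LnT F → V0
  P0 : V0 → ℕ → PN
  g0' : ℕ → ℕ
  sg0 : ℕ
  pr : V → V0
  kap : ℕ
  L : ℝ
  G0 : ℕ
  a : V0 → Fin 3 → ℝ
  lab : NLabW F c 2 ⌊N.w1 * J⌋₊ sg g' K L A z z' P
  lab0 : NLabW F c 2 ⌊N.w0 * J⌋₊ sg0 g0' K L A zz zz' P0
  prz : ∀ ω, A ω → zz (ptr F J ω) = pr (z (ptr F J ω))
  dg : ∀ v, ∀ i < 3, (P v i).totalDegree ≤ 1
  dg0 : ∀ v, ∀ i < 3, (P0 v i).totalDegree ≤ 1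
  num : ∀ l ≤ 2, |(g' l : ℝ) - N.g l * J| ≤ φ * J
  num0 : ∀ l ≤ 2, |(g0' l : ℝ) - N.g0 l * J| ≤ φ * J
  nums : |(sg : ℝ) - N.s * J| ≤ φ * J
  nums0 : |(sg0 : ℝ) - N.s0 * J| ≤ φ * J
  numz : |(G0 : ℝ) - N.g0 1 * J| ≤ φ * J
  top : g' 2 ≤ J
  top0 : g0' 2 ≤ J
  srt : ∀ l < 2, g' l ≤ g' 2
  srt0 : ∀ l < 2, g0' l ≤ g0' 2
  win : ∀ i < 3, ⌊N.w1 * J⌋₊ ≤ wid ⌊N.w1 * J⌋₊ g' i + kap
  win0 : ∀ i < 3, ⌊N.w0 * J⌋₊ ≤ wid ⌊N.w0 * J⌋₊ g0' i + kap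
  kapφ : (kap : ℝ) ≤ φ * J
  L0 : 0 ≤ L
  L1 : Real.log (1 + L) ≤ φ * J
  pos0 : ∀ ω, A ω → |F.x ω (c 1) - af (a (zz (ptr F J ω))) (F.t ω) (F.x ω (c 0))| ≤ 1 / 2 ^ G0
  siz0 : ∀ ω, A ω → ∀ i, |a (zz (ptr F J ω)) i| ≤ Real.exp (φ * J)

namespace Dat

variable {N : Nums} {φ : ℝ} {K : ℕ} {F : Fam m J} {c : ℕ → Fin m} {A : F.Ω → Prop}

/-- The label of a sample. -/
noncomputable def κ (d : Dat N φ K F c A) (ω : F.Ω) : d.V := d.z (ptr F J ω)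

/-- The thickness of the leaves, in units of the window `w1`. -/
noncomputable def h0 (d : Dat N φ K F c A) : ℝ :=
  clC 2 d.kap d.L / ((2 ^ (d.g' 2 - ⌊N.w1 * J⌋₊) : ℕ) : ℝ)

/-- The scaled position of a sample. -/
noncomputable def zs (d : Dat N φ K F c A) (ω : F.Ω) : Option (Fin 3) → ℝ :=
  zsw c 2 ⌊N.w1 * J⌋₊ d.sg (ptr F J ω)

/-- The scaled point of the leaf over `b`. -/
noncomputable def lf (d : Dat N φ K F c A) (κ : d.V) (b : ℕ → ℝ) (o : Option (Fin 3)) : ℝ :=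
  o.elim (2 ^ ⌊N.w1 * J⌋₊ * eval b (d.P κ 3)) (fun i => 2 ^ ⌊N.w1 * J⌋₊ * b i.val)

/-- The time in the window `w0`, in `[0, 1]`. -/
noncomputable def s (_ : Dat N φ K F c A) (ω : F.Ω) : ℝ :=
  2 ^ ⌊N.w0 * J⌋₊ * F.t ω - F.T1 ⌊N.w0 * J⌋₊ ω

/-- The plane of `c 1` at the window `w0`. -/
noncomputable def pl (d : Dat N φ K F c A) (ω : F.Ω) : Fin 3 → ℝ := d.a (d.zz (ptr F J ω))

/-- The velocity of `c 1` in natural units of the window `w0`. -/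
noncomputable def Ez (d : Dat N φ K F c A) (ω : F.Ω) : ℝ :=
  2 ^ d.G0 / 2 ^ ⌊N.w0 * J⌋₊ * (F.d ω (c 1) - d.pl ω 1 - d.pl ω 2 * F.d ω (c 0))

/-- The point with the relative coordinates `s, η, ζ` about the line of `ω`. -/
noncomputable def rel (d : Dat N φ K F c A) (ω : F.Ω) (s η ζ : ℝ) (i : ℕ) : ℝ :=
  let t := ((F.T1 ⌊N.w0 * J⌋₊ ω : ℝ) + s) / 2 ^ ⌊N.w0 * J⌋₊
  if i = 0 then t else if i = 1 then F.u ω (c 0) + t * F.d ω (c 0) + η / 2 ^ ⌊N.w0 * J⌋₊ else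
    if i = 2 then F.u ω (c 1) + t * F.d ω (c 1) + d.pl ω 2 * η / 2 ^ ⌊N.w0 * J⌋₊ +
      ζ / 2 ^ d.G0 else 0

/-- The cell of depth `q` in the box of the window `w0`. -/
noncomputable def cel (d : Dat N φ K F c A) (q : ℕ) (ω : F.Ω) : ℤ × ℤ × ℤ :=
  (⌊(2 : ℝ) ^ (⌊N.w0 * J⌋₊ + q) * px c (ptr F J ω) 0⌋,
    ⌊(2 : ℝ) ^ (⌊N.w0 * J⌋₊ + q) * px c (ptr F J ω) 1⌋,
    ⌊(2 : ℝ) ^ (d.G0 + q) * (px c (ptr F J ω) 2 -
      af (d.pl ω) (px c (ptr F J ω) 0) (px c (ptr F J ω) 1))⌋)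

/-- **The box of the window `w1`** contains the relative box of size `lam`. -/
def Box (d : Dat N φ K F c A) (lam : ℝ) (ω : F.Ω) : Prop :=
  ∀ s η ζ : ℝ, |s - d.s ω| ≤ lam → |η| ≤ lam → |ζ| ≤ lam →
    CLO.Bxr 4 (wid ⌊N.w1 * J⌋₊ d.g') (d.P (d.κ ω)) 3 (d.rel ω s η ζ)

/-- **(FALL)** A polynomial which is small on the leaf `κ` and not on the leaf `κ'`. -/
def Fal (d : Dat N φ K F c A) (D : ℕ) (ε : ℝ) (κ κ' : d.V) : Prop :=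
  ∃ Q : MvPolynomial (Option (Fin 3)) ℝ, Q.totalDegree ≤ D ∧
    (∀ ω, A ω → 0 < F.p ω → d.κ ω = κ → Psi Q d.h0 (d.zs ω) ≤ ε) ∧
    (∀ ω, A ω → 0 < F.p ω → d.κ ω = κ' → Psi Q d.h0 (d.zs ω) ≤ 1 ∧
      Psi Q d.h0 (d.zs ω) ≤ |eval (d.zs ω) Q| + ε) ∧
    ∃ ω, A ω ∧ 0 < F.p ω ∧ d.κ ω = κ' ∧ 1 / 2 ≤ |eval (d.zs ω) Q|

/-- **(L1)** The values of the polynomials of degree at most `D` on the leaf of `ω` are controlled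
by the samples of the leaf in the cell of `ω`. -/
def Lr (d : Dat N φ K F c A) (D q : ℕ) (H : ℝ) (ω : F.Ω) : Prop :=
  ∀ Q : MvPolynomial (Option (Fin 3)) ℝ, Q.totalDegree ≤ D → ∀ b : ℕ → ℝ,
    CLO.Bxr 2 (wid ⌊N.w1 * J⌋₊ d.g') (d.P (d.κ ω)) 3 b →
    Psi Q d.h0 (d.lf (d.κ ω) b) ≤ H * mx (fun ω' => A ω' ∧ 0 < F.p ω' ∧ d.κ ω' = d.κ ω ∧
      d.cel q ω' = d.cel q ω) (fun ω' => Psi Q d.h0 (d.zs ω'))

/-- **The times of the line in the window `w1` are dense.** -/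
def Win (_ : Dat N φ K F c A) (K' : ℕ) (H : ℝ) (ω : F.Ω) : Prop :=
  ∀ p : Polynomial ℝ, p.natDegree ≤ K' → ∀ t : ℝ, |t - F.t ω| ≤ 2 / 2 ^ ⌊N.w1 * J⌋₊ →
    |p.eval t| ≤ H * mx (fun ω' => A ω' ∧ 0 < F.p ω' ∧
      slam F ⌊N.w1 * J⌋₊ ω' = slam F ⌊N.w1 * J⌋₊ ω) (fun ω' => |p.eval (F.t ω')|)

/-- **(POLY)** The polynomial of the samples `i` and `j` in relative coordinates about the line. -/
def Pol (d : Dat N φ K F c A) (K' : ℕ) (lam rho H H' B₀ ε : ℝ) {n : ℕ}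
    (v : Fin (n + 1) → F.Ω) (i j : Fin (n + 1)) : Prop :=
  ∃ b : (Fin 2 → Fin (K' + 1)) → Polynomial ℝ, (∀ a, (b a).natDegree ≤ K') ∧
    (∀ a x, |x - d.s (v j)| ≤ lam → |(b a).eval x| * lam ^ ((a 0 : ℕ) + a 1) ≤ 1) ∧
    (∃ x η ζ, |x - d.s (v j)| ≤ rho ∧ |η| ≤ rho ∧ |ζ| ≤ rho ∧ B₀ ≤ |Ev b x η ζ|) ∧
    (∀ a x, |x - d.s (v j)| ≤ lam → |(b a).eval x| ≤ H * |(b a).eval (d.s (v j))|) ∧
    ∀ u : Fin (n + 1) → F.Ω, 0 < pn F A ⌊N.w0 * J⌋₊ n u → d.Win K' H' (u i) →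
      d.Win K' H' (u j) → d.κ (u i) = d.κ (v i) → d.κ (u j) = d.κ (v j) →
      ∀ k, ptr F J (u k) = ptr F J (v k) → ∀ x, |x - d.s (v j)| ≤ lam →
        |Ev b x ((F.d (u k) (c 0) - F.d (v k) (c 0)) * (x - d.s (v k)))
          ((d.Ez (u k) - d.Ez (v k)) * (x - d.s (v k)))| ≤ ε

end Dat

/-! ### The statements in a class -/

section cls

/-- **(H2)** The labels at another time are few bits, given the exact point. -/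
def H2S (S : PCl m) (w0 w1 e : ℝ) : Prop :=
  ∀ ρ : ℝ, 0 < ρ → Bas S (fun J F A => ∀ (V : Type) (z : PtT F → V) (z' : LnT F → V),
    (∀ ω, A ω → z (ptr F J ω) = z' (slam F ⌊w1 * J⌋₊ ω)) →
    CH (p2 F A ⌊w0 * J⌋₊) (fun v => z (ptr F J v.2)) (fun v => ptr F J v.1) ≤ (e + ρ) * J)

/-- **(SEP)** Copies of a tuple of samples. -/
def SepS (S : PCl m) (k : Fin m) (w0 w1 : ℝ) (q q₁ : ℚ) (n M : ℕ) : Prop :=
  Bas S (fun J F A => ∀ (V : Type) (z : PtT F → V) (z' : LnT F → V),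
    (∀ ω, A ω → z (ptr F J ω) = z' (slam F ⌊w1 * J⌋₊ ω)) →
    ∀ E : (Fin (n + 1) → F.Ω) → Prop, 1 / 2 ≤ Pe (pn F A ⌊w0 * J⌋₊ n) E →
    ∃ v, E v ∧ 0 < pn F A ⌊w0 * J⌋₊ n v ∧ ∀ j, ∃ u : Fin M → Fin (n + 1) → F.Ω, ∀ a,
      (E (u a) ∧ 0 < pn F A ⌊w0 * J⌋₊ n (u a) ∧ ptr F J (u a j) = ptr F J (v j) ∧
      (∀ i, z (ptr F J (u a i)) = z (ptr F J (v i))) ∧
      F.D ⌊(q : ℝ) * J⌋₊ (u a j) k = F.D ⌊(q : ℝ) * J⌋₊ (v j) k) ∧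
      ∀ a', a ≠ a' → 1 / 2 ^ ⌊((q : ℝ) + q₁) * J⌋₊ ≤ |F.d (u a j) k - F.d (u a' j) k|)

/-- **(FALLN)** -/
def FalS (S : PCl m) (c : ℕ → Fin m) (N : Nums) (K D : ℕ) (h c₀ : ℝ) : Prop :=
  ∃ φ : ℝ, 0 < φ ∧ Bas S (fun J F A => ∀ d : Dat N φ K F c A,
    Pe (p2 F A ⌊N.w0 * J⌋₊) (fun v => ¬ d.Fal D (ex h J) (d.κ v.1) (d.κ v.2) ∧
      ¬ d.Fal D (ex h J) (d.κ v.2) (d.κ v.1)) ≤ c₀)

/-- **(L1)** -/
def LrS (S : PCl m) (c : ℕ → Fin m) (N : Nums) (K D : ℕ) (q h c₀ : ℝ) : Prop :=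
  ∃ φ : ℝ, 0 < φ ∧ Bas S (fun J F A => ∀ d : Dat N φ K F c A,
    Pe (pA F A) (fun ω => ¬ d.Lr D ⌊q * J⌋₊ (ex (-h) J) ω) ≤ c₀)

/-- **The boxes.** -/
def BoxS (S : PCl m) (c : ℕ → Fin m) (N : Nums) (K : ℕ) (lam c₀ : ℝ) : Prop :=
  ∃ φ : ℝ, 0 < φ ∧ Bas S (fun J F A => ∀ d : Dat N φ K F c A,
    Pe (pA F A) (fun ω => ¬ (d.Box (ex lam J) ω)) ≤ c₀)

/-- **The velocities** are bounded in natural units. -/
def EzS (S : PCl m) (c : ℕ → Fin m) (N : Nums) (K : ℕ) (b c₀ : ℝ) : Prop :=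
  ∃ φ : ℝ, 0 < φ ∧ Bas S (fun J F A => ∀ d : Dat N φ K F c A,
    Pe (pA F A) (fun ω => ¬ |d.Ez ω| ≤ ex (-b) J) ≤ c₀)

/-- **The windows.** -/
def WinS (S : PCl m) (c : ℕ → Fin m) (N : Nums) (K K' : ℕ) (b c₀ : ℝ) : Prop :=
  ∃ φ : ℝ, 0 < φ ∧ Bas S (fun J F A => ∀ d : Dat N φ K F c A,
    Pe (pA F A) (fun ω => ¬ d.Win K' (ex (-b) J) ω) ≤ c₀)

/-- **The times** are separated. -/
def TimS (S : PCl m) (w0 b c₀ : ℝ) : Prop :=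
  Bas S (fun J F A => Pe (p2 F A ⌊w0 * J⌋₊) (fun v =>
    2 ^ ⌊w0 * J⌋₊ * |F.t v.1 - F.t v.2| < ex b J) ≤ c₀)

/-- **(POLY)** `q, h`: the cell and the loss of (L1); `he`: the number of (FALLN). -/
def PolS (S : PCl m) (c : ℕ → Fin m) (N : Nums) (K D K' n : ℕ) (lam q h b he : ℝ) (c₀ : ℝ) :
    Prop :=
  ∃ φ : ℝ, 0 < φ ∧ Bas S (fun J F A => ∀ d : Dat N φ K F c A,
    Pe (pn F A ⌊N.w0 * J⌋₊ n) (fun v => ∃ i j, i ≠ j ∧ d.Fal D (ex he J) (d.κ (v i)) (d.κ (v j)) ∧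
      d.Lr D ⌊q * J⌋₊ (ex (-h) J) (v j) ∧
      ¬ d.Pol K' (ex lam J) (ex (q - b) J) (ex (-b) J) (ex (-(b / 4)) J) (ex (h + b) J)
        (ex (he - D * (N.w1 - N.w0) - b) J) v i j) ≤ c₀)

/-- **(E6)** The slopes are bounded. -/
def SlpS (S : PCl m) (c : ℕ → Fin m) (N : Nums) (K : ℕ) (b ε' c₀ : ℝ) : Prop :=
  ∃ φ : ℝ, 0 < φ ∧ Bas S (fun J F A => ∀ d : Dat N φ K F c A, ∀ R : PtT F → Fin 6 → ℝ,
    (∀ ξ, Nq (R ξ)) → Pe (pA F A) (fun ω => ∃ α β : ℝ, |β| * ex (-b) J < 1 ∧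
      Ln2 (R (ptr F J ω)) (ex ε' J) α β ∧
      |F.d ω (c 0) - α - β * d.Ez ω| ≤ ex ε' J) ≤ c₀)

/-- **(E5)** The planes at different times are different. -/
def PlnS (S : PCl m) (c : ℕ → Fin m) (N : Nums) (K : ℕ) (b ε' ρ' c₀ : ℝ) : Prop :=
  ∃ φ : ℝ, 0 < φ ∧ Bas S (fun J F A => ∀ d : Dat N φ K F c A, ∀ R : PtT F → Fin 6 → ℝ,
    (∀ ξ, Nq (R ξ)) → Pe (p2 F A ⌊N.w0 * J⌋₊) (fun v => ∃ α β α' β' : ℝ, |β| ≤ ex (-b) J ∧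
      |β'| ≤ ex (-b) J ∧ Ln1 (R (ptr F J v.1)) (ex ε' J) α β ∧
      Ln1 (R (ptr F J v.2)) (ex ε' J) α' β' ∧
      |d.Ez v.1 - α - β * F.d v.1 (c 0)| ≤ ex ε' J ∧
      |d.Ez v.1 - α' - β' * F.d v.1 (c 0)| ≤ ex ε' J ∧ |β - β'| < ex ρ' J) ≤ c₀)

/-- **(CON)** The velocities at a point are not on a conic. -/
def ConS (S : PCl m) (c : ℕ → Fin m) (N : Nums) (K : ℕ) (h c₀ : ℝ) : Prop :=
  ∃ φ : ℝ, 0 < φ ∧ Bas S (fun J F A => ∀ d : Dat N φ K F c A, ∀ R : PtT F → Fin 6 → ℝ,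
    (∀ ξ, Nq (R ξ)) → Pe (pA F A) (fun ω =>
      |qd (R (ptr F J ω)) (F.d ω (c 0)) (d.Ez ω)| ≤ ex h J) ≤ c₀)

/-- **(AFF1)** The labels of a coordinate over the active coordinate are affine, up to `b`. -/
def AffS (S : PCl m) (c : ℕ → Fin m) (w g0 g1 : ℝ) (K : ℕ) (b c₀ : ℝ) : Prop :=
  ∃ φ : ℝ, 0 < φ ∧ Bas S (fun J F A => ∀ (V : Type) (z : PtT F → V) (z' : LnT F → V)
    (P : V → ℕ → PN) (g' : ℕ → ℕ) (sg : ℕ) (L : ℝ), |(g' 0 : ℝ) - g0 * J| ≤ φ * J →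
    |(g' 1 : ℝ) - g1 * J| ≤ φ * J → g' 1 ≤ J → 0 ≤ L → Real.log (1 + L) ≤ φ * J →
    NLabW F c 1 ⌊w * J⌋₊ sg g' K L A z z' P →
    ∃ (B : F.Ω → Prop) (a : V → Fin 3 → ℝ), Sub B A ∧ (1 - c₀) * Pe F.p A ≤ Pe F.p B ∧
      ∀ ω, B ω → |F.x ω (c 1) - af (a (z (ptr F J ω))) (F.t ω) (F.x ω (c 0))| ≤
        2 ^ sg / 2 ^ g' 1 * ex (-b) J ∧ ∀ i, |a (z (ptr F J ω)) i| ≤ 2 ^ sg * ex (-b) J)

end cls

end Pool.PLN
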