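import Mathlib

/-!
# Lemma PLANE: the pure statements

A polynomial in `(s, η, ζ)` is given by its coefficients in `(η, ζ)`, which are polynomials in `s`.
`FanStmt`: if it vanishes along many straight lines through the point `(s₀, 0, 0)`, many of these
lines are in one plane. `QuaStmt`, `ThrStmt`: conics and lines. `PEndStmt`: the final contradiction.
-/

set_option autoImplicit false

namespace Pool.PLN

open Finset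

/-- The value of a polynomial which is given by its coefficients. -/
noncomputable def Ev {K : ℕ} (b : (Fin 2 → Fin (K + 1)) → Polynomial ℝ) (s η ζ : ℝ) : ℝ :=
  ∑ a, (b a).eval s * (η ^ (a 0 : ℕ) * ζ ^ (a 1 : ℕ))

/-- A conic. -/
def qd (R : Fin 6 → ℝ) (x y : ℝ) : ℝ :=
  R 0 + R 1 * x + R 2 * y + R 3 * x ^ 2 + R 4 * (x * y) + R 5 * y ^ 2

/-- Normalised. -/
def Nq (R : Fin 6 → ℝ) : Prop := (∀ i, |R i| ≤ 1) ∧ ∃ i, |R i| = 1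

/-- The conic is small on the line `y = α + β x`. -/
def Ln1 (R : Fin 6 → ℝ) (ε α β : ℝ) : Prop := ∀ x : ℝ, |x| ≤ 1 → |qd R x (α + β * x)| ≤ ε

/-- The conic is small on the line `x = α + β y`. -/
def Ln2 (R : Fin 6 → ℝ) (ε α β : ℝ) : Prop := ∀ y : ℝ, |y| ≤ 1 → |qd R (α + β * y) y| ≤ ε

/-- **P1.** Many lines through one point on which the polynomial vanishes: many of them are in one
plane. -/
def FanStmt : Prop :=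
  ∀ r : ℕ, ∃ N : ℕ, ∀ K : ℕ, ∃ C : ℝ, 1 ≤ C ∧
    ∀ (b : (Fin 2 → Fin (K + 1)) → Polynomial ℝ) (s₀ lam ε H B κ ρ : ℝ),
      (∀ a, (b a).natDegree ≤ K) → 0 < lam → lam ≤ 1 → 0 ≤ ε → 1 ≤ H → 0 < B → B ≤ 1 → 0 < κ →
      κ ≤ 1 → 0 < ρ → ρ ≤ 1 →
      (∃ a : Fin 2 → Fin (K + 1), (a 0 : ℕ) + a 1 ≤ r ∧ ∃ s, |s - s₀| ≤ lam ∧
        B ≤ |(b a).eval s|) →
      (∀ a, ∀ s, |s - s₀| ≤ lam → |(b a).eval s| ≤ H * |(b a).eval s₀|) →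
      C * H ^ N * ε ≤ (lam * B * κ * ρ) ^ N →
      ∀ (M n : ℕ) (e w : Fin M → ℝ), (∀ i, κ ≤ |e i| ∧ |e i| ≤ 1 ∧ |w i| ≤ 1) →
        (∀ i s, |s - s₀| ≤ lam → |Ev b s (e i * (s - s₀)) (w i * (s - s₀))| ≤ ε) →
        r * n < M → ∃ (i₀ : Fin M) (I : Finset (Fin M)), n < I.card ∧
          ∀ i ∈ I, |w i - w i₀ / e i₀ * e i| ≤ ρ

/-- **P3a.** A conic which is small at three points close to a line is small on the line. -/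
def QuaStmt : Prop :=
  ∃ C : ℝ, 1 ≤ C ∧ ∀ (R : Fin 6 → ℝ) (x₀ y₀ β ε ρ κ Bd : ℝ) (e w : Fin 3 → ℝ), Nq R → 0 < κ →
    κ ≤ 1 → 0 ≤ ε → 0 ≤ ρ → ρ ≤ 1 → 1 ≤ Bd → |x₀| ≤ Bd → |y₀| ≤ Bd → |β| ≤ Bd →
    (∀ i, |e i| ≤ 1 ∧ |w i - β * e i| ≤ ρ ∧ |qd R (x₀ + e i) (y₀ + w i)| ≤ ε) →
    (∀ i j, i ≠ j → κ ≤ |e i - e j|) →
    Ln1 R (C * Bd ^ 4 * (ε + ρ) / κ ^ 2) (y₀ - β * x₀) β

/-- **P3b.** A normalised conic is not small on three different lines. -/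
def ThrStmt : Prop :=
  ∃ (N : ℕ) (C : ℝ), 1 ≤ C ∧ ∀ (R : Fin 6 → ℝ) (α β : Fin 3 → ℝ) (ε ρ Bd : ℝ), Nq R → 0 ≤ ε →
    0 < ρ → ρ ≤ 1 → 1 ≤ Bd → (∀ i, |α i| ≤ Bd ∧ |β i| ≤ Bd ∧ Ln1 R ε (α i) (β i)) →
    C * Bd ^ N * ε ≤ ρ ^ N → ∃ i j, i ≠ j ∧ |α i - α j| ≤ ρ ∧ |β i - β j| ≤ ρ

/-- **The end.** There is no configuration. The index `j` is the time, the index `i` is the copy.
`rho₀` is the scale of the copies, `κ` their separation, `κ₂` the separation of the times, `ρ'` the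
separation of the planes, `Bd` the bound for the slopes. -/
def PEndStmt : Prop :=
  ∀ r : ℕ, ∃ N : ℕ, ∀ K : ℕ, ∃ C : ℝ, 1 ≤ C ∧
    ∀ (lam rho₀ κ κ₂ ρ' Bd H ε εc ε' B₀ : ℝ), 0 < lam → lam ≤ 1 → 0 < rho₀ → rho₀ ≤ 1 →
      0 < κ → κ ≤ rho₀ → 0 < κ₂ → κ₂ ≤ 1 → 0 < ρ' → ρ' ≤ 1 → 1 ≤ Bd → 1 ≤ H → 0 ≤ ε → 0 ≤ εc →
      0 < ε' → ε' ≤ 1 → 0 < B₀ → B₀ ≤ 1 →
      -- the conic
      C * Bd ^ N * εc ≤ ε' * κ ^ N →
      -- the precision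
      C * (Bd * H) ^ N * ε ≤ (lam * κ * κ₂ * ρ' * B₀ * ε') ^ N →
      -- the order of vanishing
      C * H * (rho₀ / κ) ^ r * (Bd / lam) ^ N * rho₀ ^ (r + 1) ≤ (ρ' * κ₂) ^ N * B₀ →
      ∀ (s : Fin (r + 2) → ℝ) (b : Fin (r + 2) → (Fin 2 → Fin (K + 1)) → Polynomial ℝ)
        (R : Fin (r + 2) → Fin 6 → ℝ) (Ey Ez : ℝ)
        (e w : Fin (r + 2) → Fin ((r + 1) * (r + 4) + 1) → ℝ),
        (∀ j a, (b j a).natDegree ≤ K) → (∀ j, |s j| ≤ 1) →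
        (∀ j k, j ≠ k → κ₂ ≤ |s j - s k|) →
        (∀ j a x, |x - s j| ≤ lam → |(b j a).eval x| * lam ^ ((a 0 : ℕ) + a 1) ≤ 1) →
        (∀ j, ∃ x η ζ, |x - s j| ≤ rho₀ ∧ |η| ≤ rho₀ ∧ |ζ| ≤ rho₀ ∧ B₀ ≤ |Ev (b j) x η ζ|) →
        (∀ j a x, |x - s j| ≤ lam → |(b j a).eval x| ≤ H * |(b j a).eval (s j)|) →
        (∀ j i, |e j i| ≤ rho₀ ∧ |w j i| ≤ Bd) → (∀ j i i', i ≠ i' → κ ≤ |e j i - e j i'|) →
        (∀ j i x, |x - s j| ≤ lam →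
          |Ev (b j) x (e j i * (x - s j)) (w j i * (x - s j))| ≤ ε) →
        (∀ j k i, |Ev (b k) (s k) (e j i * (s k - s j)) (w j i * (s k - s j))| ≤ ε) →
        |Ey| ≤ 1 → |Ez| ≤ Bd → (∀ j, Nq (R j)) →
        (∀ j i, |qd (R j) (Ey + e j i) (Ez + w j i)| ≤ εc) →
        -- the slopes are bounded
        (∀ j α β, |β| ≤ 1 → Ln2 (R j) ε' α β → |Ey - α - β * Ez| ≤ ε' → 1 ≤ Bd * |β|) →
        -- the planes at different times are different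
        (∀ j k, j ≠ k → ∀ α β α' β', |β| ≤ Bd → |β'| ≤ Bd → Ln1 (R j) ε' α β →
          Ln1 (R k) ε' α' β' → |Ez - α - β * Ey| ≤ ε' → |Ez - α' - β' * Ey| ≤ ε' →
          ρ' ≤ |β - β'|) → False

end Pool.PLN
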