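import Pool.Agent.H1.PLN.Cnu
import Pool.Agent.H26.PLN.Cls
import Pool.Agent.H26.PLN.Two
import Pool.Agent.H67.PLN.PEnd
import Pool.Agent.H69.PLN.Sep
import Pool.Agent.H24.PLN.Bx

/-!
# The velocities at a point are not on a conic: the inputs
-/

set_option autoImplicit false

namespace Pool.PLN

open Finset Real MvPolynomial
open Pool.Agent.H49.Ent Pool.Agent.H32.Dense Pool.STK Pool.KA Pool.KSAT Pool.K2S Pool.PB Pool.STAT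
  Pool.GEN Pool.S6C Pool.M3F Pool.CLO37
open Pool.GRW (TmWn)
open Pool.LBT (ThrOf)
open Pool.FLF (Fam.sub)

variable {m : ℕ}

/-- The first digits are active, at all small scales. -/
theorem act_pos {Nc : ℚ → ℚ → ℝ} {al : ℝ} {g₀ : ℝ → ℝ} (h : ActM Nc al g₀) (hal : 0 < al)
    (hg₀ : ∀ ε : ℝ, 0 < ε → 0 < g₀ ε) (g₁ : ℝ) (hg₁ : 0 < g₁) :
    ∃ g : ℚ, 0 < g ∧ (g : ℝ) ≤ g₁ ∧ 0 < Nc 0 g := by
  obtain ⟨ε, hε⟩ : ∃ ε : ℝ, ε = min (al / 2) (1 / 2) := ⟨_, rfl⟩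
  have hε0 : 0 < ε := by
    rw [hε]
    exact lt_min (by linarith) (by norm_num)
  have hε1 : ε ≤ al / 2 := by
    rw [hε]
    exact min_le_left _ _
  have hε2 : ε ≤ 1 / 2 := by
    rw [hε]
    exact min_le_right _ _
  obtain ⟨g, hg1, hg2⟩ := exists_rat_btwn (lt_min hg₁ (hg₀ ε hε0))
  have hg0 : 0 < g := by exact_mod_cast hg1
  refine ⟨g, hg0, hg2.le.trans (min_le_left _ _), ?_⟩
  have h1 := Pool.PLN26.actm_zero h hε0 (by linarith) hg0 (hg2.le.trans (min_le_right _ _))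
  refine lt_of_lt_of_le ?_ h1
  exact mul_pos (by linarith) hg1

/-- **The inputs**: the times, the slopes, the planes, the velocities and the copies hold in every
class with **(H2)**. -/
theorem conIn_of : ∃ Nt : ℝ, 1 ≤ Nt ∧ ∀ {m : ℕ} {S : PCl m} {c : ℕ → Fin m} {N : Nums}
    {K D K' : ℕ} {CD lam e he hm al : ℝ} {g₀ : ℝ → ℝ} {Nc : ℚ → ℚ → ℝ}
    {P : List (Fin m) × Fin m → ℝ → ℝ → ℝ} {θ : ℝ} {W : ℚ},
    (∀ (τ : ℝ) (J : ℕ) (F : Fam m J) (A : F.Ω → Prop), S.St τ J F A →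
      Real.exp (-(τ * J)) ≤ Pe F.p A) →
    (∀ ε : ℝ, 0 < ε → Bas S (fun J F A => ∀ h : 0 < Pe F.p A, (Fam.sub F A h).Tm (ε * J))) →
    ActM Nc al g₀ → 0 < al → (∀ ε : ℝ, 0 < ε → 0 < g₀ ε) → ActB Nc S (c 0) →
    TmWn S N.w0 → ThrOf (CHT.chsys m θ) S P → H2S S N.w0 N.w1 e → 0 ≤ e →
    N.w0 = W → 0 < W → N.w0 ≤ N.w1 → N.w1 < 1 →
    (W : ℝ) ≤ N.g0 1 → CHT.bet P c 1 W W ≤ N.g0 1 → N.g0 1 + hm < 1 → hm < θ * W →
    (∀ c₀ : ℝ, 0 < c₀ → FalS S c N K D he c₀) →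
    (∀ q h c₀ : ℝ, 0 < q → q ≤ hm → 0 < c₀ → CD * q / c₀ ≤ h → LrS S c N K D q h c₀) →
    (∀ (n : ℕ) (q h b c₀ : ℝ), 0 < q → q ≤ hm → 0 < b → b ≤ hm → 0 ≤ h → h + b < he →
      0 < c₀ → PolS S c N K D K' n lam q h b he c₀) →
    (∀ b c₀ : ℝ, 0 < b → b ≤ hm → 0 < c₀ → WinS S c N K K' b c₀) →
    ConIn S c N K D K' CD Nt lam e he hm Nc := by
  obtain ⟨N₃, hN₃⟩ := plnS thrStmt
  refine ⟨N₃ + 1, by linarith [(Nat.cast_nonneg N₃ : (0 : ℝ) ≤ N₃)], ?_⟩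
  intro m S c N K D K' CD lam e he hm al g₀ Nc P θ W hmem hTm hact hal hg₀ hB hT hP h2 he0 hW hW0
    h01 h1 hg hbet hgm hθ hF hL hPl hWi
  have hW0r : (0 : ℝ) < W := by exact_mod_cast hW0
  have hN0 : (0 : ℝ) ≤ N₃ := Nat.cast_nonneg N₃
  have hE : ∀ b c₀ : ℝ, 0 < b → 0 < c₀ → EzS S c N K b c₀ := fun b c₀ hb hc =>
    Pool.PLA.ezs (fun τ J F A hA => lt_of_lt_of_le (Real.exp_pos _) (hmem τ J F A hA)) hTm
      (by rw [hW]; exact hW0r.le) (by linarith) hb hc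
  refine ⟨hmem, by rw [hW]; exact hW0r.le, h01, h1.le, hF, hL, hPl,
    fun b c₀ hb _ hc => hE b c₀ hb hc, hWi, fun b c₀ hb _ hc => ?_,
    fun b ε' c₀ hb hε _ hc => ?_, fun b ε' ρ' c₀ hb hρ hε hεm hc => ?_,
    fun q q₁ n M hq hq1 hqq hsep => sep_S2 hB he0 h2 hq hq1.le hqq n M hsep⟩
  · exact timS hT (by rw [hW]; exact hW0r.le) (by linarith) hb hc
  · refine slpS thrStmt hB (act_pos hact hal hg₀) hb ?_ hc fun c₁ hc₁ => hE _ c₁ (half_pos hb) hc₁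
    nlinarith
  · have hρ0 : 0 < ρ' := by nlinarith
    have e1 : N₃ * b < ε' := by nlinarith
    have e2 : b < ε' := by nlinarith
    obtain ⟨σ, hσ, h⟩ := hN₃ W θ (N.g0 1) b ε' ρ' hW0 hb.le e1 hρ0 (by linarith) (by linarith) hg
    exact h c N K hP (by linarith) hW rfl (fun c₁ hc₁ => hE b c₁ hb hc₁) c₀ hc

end Pool.PLN
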