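import Pool.Agent.H1.PLN.Inp
import Pool.Agent.H81.PLN.PolS
import Pool.Agent.H81.PLN.Win
import Pool.Agent.H24.PLN.Bxc
import Pool.Agent.H2.GEN.AttI

/-!
# The velocities at a point are not on a conic: the class theorem
-/

set_option autoImplicit false

namespace Pool.PLN

open Finset Real MvPolynomial
open Pool.Agent.H49.Ent Pool.Agent.H32.Dense Pool.STK Pool.KA Pool.KSAT Pool.K2S Pool.PB Pool.STAT
  Pool.GEN Pool.S6C Pool.M3F Pool.CLO37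
open Pool.GRW (TmWn)
open Pool.LBT (ThrOf)
open Pool.FLF (Fam.sub)

variable {m : ℕ}

/-- Classes of regular families: the times. -/
theorem tmWn_reg {S : PCl m}
    (hmem : ∀ (τ : ℝ) (J : ℕ) (F : Fam m J) (A : F.Ω → Prop), S.St τ J F A →
      F.Tr ∧ F.Tm (τ * J) ∧ F.Rb (τ * J) ∧ Real.exp (-(τ * J)) ≤ Pe F.p A) (w : ℝ) :
    TmWn S w := by
  have hpos : ∀ (τ : ℝ) (J : ℕ) (F : Fam m J) (A : F.Ω → Prop), S.St τ J F A →
      0 < Pe F.p A := fun τ J F A hS => lt_of_lt_of_le (Real.exp_pos _) (hmem τ J F A hS).2.2.2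
  intro ψ hψ
  obtain ⟨τ, hτ, J₁, H⟩ := (Pool.CHT.tmH_of_reg hmem).2 ψ hψ
  refine ⟨τ, hτ, J₁, fun J hJ F A hS => ⟨hpos τ J F A hS, fun L hL => ?_⟩⟩
  have h1 := H J hJ F A hS (hpos τ J F A hS)
  have h2 : (F.res A True (isLaw_cond F.isLaw (hpos τ J F A hS))).Tm (ψ * J) := by
    unfold Fam.Tm at h1 ⊢
    refine h1.trans (le_of_eq ?_)
    exact Pool.FLF.sub_CH F.T (fun ω => (F.l ω, F.Z ω))
  have h3 : (J : ℝ) * Real.log 2 - ψ * J ≤ CH (Pool.Agent.H49.Ent.cond F.p A True) F.T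
      (fun ω => (F.l ω, F.Z ω)) := h2
  have k1 := Pool.Agent.H25.M5.time_full h3 (isLaw_cond F.isLaw (hpos τ J F A hS))
    (Nat.le_add_right ⌊w * J⌋₊ L) hL
  rwa [Nat.add_sub_cancel_left] at k1

/-- **The velocities at a point are not on a conic**, in every class with **(H2)**, **(FALLN)** and
**(L1)**. -/
theorem con_cls (al : ℝ) (hal : 0 < al) (D : ℕ) (CD : ℝ) (hCD : 0 < CD) :
    ∃ εa c₁ Hc : ℝ, 0 < εa ∧ 0 < c₁ ∧ 0 < Hc ∧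
    ∀ {m : ℕ} {S : PCl m} {c : ℕ → Fin m} {N : Nums} {K : ℕ} {lam e he h θ : ℝ} {g₀ : ℝ → ℝ}
      {Nc : ℚ → ℚ → ℝ} {P : List (Fin m) × Fin m → ℝ → ℝ → ℝ} {W : ℚ},
      (∀ (τ : ℝ) (J : ℕ) (F : Fam m J) (A : F.Ω → Prop), S.St τ J F A →
        F.Tr ∧ F.Tm (τ * J) ∧ F.Rb (τ * J) ∧ Real.exp (-(τ * J)) ≤ Pe F.p A) →
      ActM Nc al g₀ → (∀ ε : ℝ, 0 < ε → 0 < g₀ ε) → ActB Nc S (c 0) →
      ThrOf (CHT.chsys m θ) S P → H2S S N.w0 N.w1 e → 0 ≤ e →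
      N.w0 = W → 0 < W → N.w0 ≤ N.w1 → N.w1 < 1 → N.g 0 < 1 → N.g 1 < 1 →
      (W : ℝ) ≤ N.g0 1 → CHT.bet P c 1 W W ≤ N.g0 1 →
      0 < h → h ≤ g₀ εa → h < 1 - N.w0 → h < 1 - N.g0 1 → h < θ * W →
      N.w1 - N.w0 < lam → N.g 0 - N.w0 < lam → N.g 1 - N.g0 1 < lam → lam ≤ c₁ * h →
      e ≤ c₁ * h → Hc * h + D * (N.w1 - N.w0) ≤ he →
      (∀ c₀ : ℝ, 0 < c₀ → FalS S c N K D he c₀) →
      (∀ q h' c₀ : ℝ, 0 < q → q ≤ h → 0 < c₀ → CD * q / c₀ ≤ h' → LrS S c N K D q h' c₀) →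
      ∀ c₀ : ℝ, 0 < c₀ → ConS S c N K h c₀ := by
  obtain ⟨Nt, hNt, hin⟩ := conIn_of
  obtain ⟨εa, c₁, Hc, hεa, hc₁, hHc, hcon⟩ := con al hal D CD Nt hNt Pool.PLN.pEndStmt
  refine ⟨εa, c₁, Hc, hεa, hc₁, hHc, ?_⟩
  intro m S c N K lam e he h θ g₀ Nc P W hmem hact hg₀ hB hT h2 he0 hW hW0 h01 h1 hN0 hN1 hg hbet
    hh hhg hh0 hh1 hhθ hl0 hl1 hl2 hlh heh hhe hF hL c₀ hc₀
  have hW0r : (0 : ℝ) < W := by exact_mod_cast hW0
  have hTm := (Pool.CHT.tmH_of_reg hmem).2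
  have hpos : ∀ (τ : ℝ) (J : ℕ) (F : Fam m J) (A : F.Ω → Prop), S.St τ J F A →
      0 < Pe F.p A := fun τ J F A hS => lt_of_lt_of_le (Real.exp_pos _) (hmem τ J F A hS).2.2.2
  have hw0 : 0 ≤ N.w0 := by
    rw [hW]
    exact hW0r.le
  have hQ : ActQ Nc al := hact.q hg₀
  -- the box
  obtain ⟨lam₀, hlam₀⟩ : ∃ x : ℝ, x = (lam + max (N.w1 - N.w0)
      (max (N.g 0 - N.w0) (N.g 1 - N.g0 1))) / 2 := ⟨_, rfl⟩
  have m1 : max (N.w1 - N.w0) (max (N.g 0 - N.w0) (N.g 1 - N.g0 1)) < lam :=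
    max_lt hl0 (max_lt hl1 hl2)
  have m2 := le_max_left (N.w1 - N.w0) (max (N.g 0 - N.w0) (N.g 1 - N.g0 1))
  have m3 := (le_max_left (N.g 0 - N.w0) (N.g 1 - N.g0 1)).trans
    (le_max_right (N.w1 - N.w0) (max (N.g 0 - N.w0) (N.g 1 - N.g0 1)))
  have m4 := (le_max_right (N.g 0 - N.w0) (N.g 1 - N.g0 1)).trans
    (le_max_right (N.w1 - N.w0) (max (N.g 0 - N.w0) (N.g 1 - N.g0 1)))
  have hBox : ∀ c₁ : ℝ, 0 < c₁ → BoxS S c N K lam₀ c₁ := fun c₁ hc₁ =>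
    Pool.PLA.boxs hpos hTm hal hQ hB hw0 h01 h1 hN1 (by linarith) (by linarith) (by linarith) hc₁
  have hE : ∀ b c₀ : ℝ, 0 < b → 0 < c₀ → EzS S c N K b c₀ := fun b c₀ hb hc =>
    Pool.PLA.ezs hpos hTm hw0 (by linarith) hb hc
  refine hcon S c N K ((K + 1) * D) lam e he h g₀ Nc hact hh hhg (by linarith) (by linarith)
    hlh heh hhe ?_ c₀ hc₀
  refine hin (fun τ J F A hS => (hmem τ J F A hS).2.2.2) hTm hact hal hg₀ hB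
    (tmWn_reg hmem N.w0) hT h2 he0 hW hW0 h01 h1 hg hbet (by linarith) hhθ hF hL ?_ ?_
  · intro n q h' b c₀ hq hqh hb hbh hh' hhb hc₀
    refine polS hmem hw0 h01 h1 hN0 hN1 hq.le (by linarith) (by linarith) le_rfl hl0
      (lam₀ := lam₀) (by linarith) hb hh' hhb hc₀ hBox (fun c₁ hc₁ => hE _ c₁ (by linarith) hc₁)
      fun c₂ hc₂ => ?_
    refine ⟨min h (b / 16 * c₂ / CD), hL _ _ c₂ (lt_min hh (by positivity)) (min_le_left _ _)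
      hc₂ ?_⟩
    rw [div_le_iff₀ hc₂]
    have e1 : min h (b / 16 * c₂ / CD) ≤ b / 16 * c₂ / CD := min_le_right _ _
    have e2 := mul_le_mul_of_nonneg_left e1 hCD.le
    have e3 : CD * (b / 16 * c₂ / CD) = b / 16 * c₂ := by field_simp
    linarith
  · intro b c₀ hb _ hc₀
    exact winS hmem (by linarith) h1 hb hc₀

end Pool.PLN
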