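import Pool.Agent.H1.PLN.Lbx
import Pool.Agent.H5.GEO.LineW

/-!
# The equation of a label with affine polynomials

`csq_of`: an equation of the label, small on the leaf and with a large derivative in the passive
direction, gives the hypotheses of `line_ev` for one of its derivatives. `csq_aff`: the same for
the affine polynomials, from the jets of the label. `jetB`: for the labels of an event.
-/

set_option autoImplicit false

namespace Pool.PLA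

open Finset Real MvPolynomial
open Pool.Agent.H49.Ent Pool.Agent.H32.Dense Pool.STK Pool.KAF Pool.KAL Pool.KS3 Pool.M3F
open Pool.KJA Pool.KA Pool.K2S Pool.KSAT Pool.PB Pool.STAT Pool.GEN Pool.IEN Pool.CLO37 Pool.GEO
open Pool.STAT.CLO (Bxr dil)

/-! ### The equation on the leaf -/

/-- The substitution of the leaf. -/
noncomputable def lsb (r : ℕ) (Φ : ℕ → PN) (n : ℕ) : PN := if n = r + 1 then Φ (r + 1) else X n

theorem eval_lsb (r : ℕ) (Φ : ℕ → PN) (b : ℕ → ℝ) (Q : PN) :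
    eval b (bind₁ (lsb r Φ) Q) = eval (lfpt r Φ b) Q := by
  unfold MvPolynomial.eval
  rw [MvPolynomial.eval₂Hom_bind₁]
  congr 2
  funext n
  show eval b (lsb r Φ n) = lfpt r Φ b n
  unfold lsb lfpt
  by_cases h : n = r + 1
  · subst h
    rw [if_pos rfl, Function.update_self]
  · rw [if_neg h, Function.update_of_ne h, eval_X]

theorem deg_lsb {r K D : ℕ} {Φ : ℕ → PN} (hK : (Φ (r + 1)).totalDegree ≤ K) {Q : PN}
    (hD : Q.totalDegree ≤ D) : (bind₁ (lsb r Φ) Q).totalDegree ≤ (K + 1) * D := by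
  refine (SML.totalDegree_bind_le _ (K + 1) (fun n => ?_) Q).trans (Nat.mul_le_mul_left _ hD)
  unfold lsb
  split_ifs
  · omega
  · rw [totalDegree_X]
    omega

theorem vars_lsb {r : ℕ} {Φ : ℕ → PN} (hP : TriN Φ) {Q : PN} (hQ : Q.vars ⊆ range (r + 2)) :
    (bind₁ (lsb r Φ) Q).vars ⊆ range (r + 1) := by
  classical
  refine (vars_bind₁ _ _).trans ?_
  intro j hj
  rw [Finset.mem_biUnion] at hj
  obtain ⟨n, hn, hj⟩ := hj
  have h1 := Finset.mem_range.1 (hQ hn)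
  unfold lsb at hj
  by_cases h : n = r + 1
  · rw [if_pos h] at hj
    exact hP (r + 1) hj
  · rw [if_neg h, vars_X, Finset.mem_singleton] at hj
    rw [Finset.mem_range]
    omega

/-- **The equation of a label on the chart of its leaf.** -/
theorem csq_of (r D K : ℕ) : ∃ C : ℝ, 1 ≤ C ∧ ∀ (W P₀ : ℕ) (g : ℕ → ℕ) (P : ℕ → PN) (Q : PN)
    (ρ S ρ' : ℝ), TriN P → (∀ i ≤ r + 1, (P i).totalDegree ≤ K) → W ≤ P₀ →
    (∀ i < r + 1, wid W g i ≤ P₀) → 0 < ρ → 0 < S → Q.totalDegree ≤ D → Q.vars ⊆ range (r + 2) →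
    (∃ b : ℕ → ℝ, Bxr 2 (wid W g) P (r + 1) b ∧
      S ≤ |eval (lfpt r P b) (pderiv (r + 1) Q)|) →
    (∀ b : ℕ → ℝ, Bxr 2 (wid W g) P (r + 1) b → |eval (lfpt r P b) Q| ≤ ρ * S) →
    C * (2 ^ W * ρ) ≤ ρ' → ∃ j, CsQ r D W P₀ g P (pN j (toO (r + 1) W Q)) ρ' := by
  obtain ⟨K₁, hK₁, hgr⟩ := Pool.M3F.grow (r + 1) ((K + 1) ^ (r + 2) * D)
  refine ⟨K₁ * (3 * 2) ^ ((K + 1) ^ (r + 2) * D), ?_, ?_⟩
  · have : (1 : ℝ) ≤ (3 * 2) ^ ((K + 1) ^ (r + 2) * D) := one_le_pow₀ (by norm_num)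
    nlinarith
  intro W P₀ g P Q ρ S ρ' hP hK hWP hw hρ hS hQD hQv hatt hjet hρ'
  obtain ⟨C₁, hC₁⟩ : ∃ C₁ : ℝ, C₁ = K₁ * (3 * 2) ^ ((K + 1) ^ (r + 2) * D) := ⟨_, rfl⟩
  have hC1 : 1 ≤ C₁ := by
    have : (1 : ℝ) ≤ (3 * 2) ^ ((K + 1) ^ (r + 2) * D) := one_le_pow₀ (by norm_num)
    rw [hC₁]
    nlinarith
  rw [← hC₁] at hρ'
  obtain ⟨Φ, hΦ⟩ : ∃ Φ, Φ = chw (r + 1) W P₀ g P := ⟨_, rfl⟩
  have hW0 : (0 : ℝ) < 2 ^ W := by positivity
  have ha : 0 < 2 ^ W * ρ := by positivity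
  have hρ0 : 0 < ρ' := lt_of_lt_of_le (by positivity) hρ'
  have hQd : (toO (r + 1) W Q).totalDegree ≤ D := (deg_toO Q).trans hQD
  -- upper bound
  have hup : csC Φ (toO (r + 1) W Q) ≤ ρ * S := by
    refine csC_le _ _ (mul_nonneg hρ.le hS.le) fun u hu => ?_
    rw [hΦ, eval_chw hP]
    exact hjet _ (cbw_bxr hP hWP hw hu)
  -- the lower bound
  have hlow : S ≤ C₁ * (2 ^ W * csC Φ (pN 1 (toO (r + 1) W Q))) := by
    obtain ⟨b, hb, hbS⟩ := hatt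
    obtain ⟨u, hu, hu'⟩ := cbw_big hP hWP hw hb
    have hvars : (pderiv (r + 1) Q).vars ⊆ range (r + 2) := (Pool.GEO.vars_pd (r + 1) Q).trans hQv
    have h1 := hu' _ hvars
    have h2 := hgr (bind₁ Φ (toO (r + 1) W (pderiv (r + 1) Q))) 2 u ?_ (by norm_num) hu
    · rw [← hC₁, Pool.M3F.eval_bind, hΦ, h1] at h2
      have h3 : csC (chw (r + 1) W P₀ g P) (toO (r + 1) W (pderiv (r + 1) Q)) ≤
          2 ^ W * csC Φ (pN 1 (toO (r + 1) W Q)) := by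
        refine csC_le _ _ (mul_nonneg hW0.le (csC_nonneg _ _)) fun v hv => ?_
        have h4 := le_csC Φ (pN 1 (toO (r + 1) W Q)) hv
        rw [pN_toO, map_mul, eval_C, abs_mul, abs_of_pos (by positivity), pow_one, hΦ] at h4
        have h5 := mul_le_mul_of_nonneg_left h4 hW0.le
        rw [← mul_assoc, mul_one_div_cancel hW0.ne', one_mul] at h5
        rw [hΦ]
        rw [pN_toO, pow_one]
        exact h5
      exact (hbS.trans h2).trans (mul_le_mul_of_nonneg_left h3 (by linarith))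
    · refine (SML.totalDegree_bind_le _ ((K + 1) ^ (r + 2)) (fun o => by
        rw [hΦ]
        exact deg_chw hK o) _).trans (Nat.mul_le_mul_left _ ?_)
      refine (deg_toO _).trans ?_
      exact SML.totalDegree_pderiv_le _ _ D (hQD.trans (Nat.le_succ _))
  have h1pos : 0 < csC Φ (pN 1 (toO (r + 1) W Q)) := by
    by_contra hcon
    have h2 : csC Φ (pN 1 (toO (r + 1) W Q)) = 0 := le_antisymm (not_lt.1 hcon) (csC_nonneg _ _)
    rw [h2, mul_zero, mul_zero] at hlow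
    linarith
  obtain ⟨j, j1, j2, j3⟩ := deg_seq (D := D) (α := fun k => csC Φ (pN k (toO (r + 1) W Q)))
    (ρ := ρ') (fun k => csC_nonneg _ _) (fun k hk => by
      rw [pN_eq_zero k D hQd hk]
      refine le_antisymm (csC_le Φ _ le_rfl fun u _ => by simp) (csC_nonneg _ _))
    hρ0 h1pos (by
      refine hup.trans ((mul_le_mul_of_nonneg_left hlow hρ.le).trans ?_)
      have e1 : ρ * (C₁ * (2 ^ W * csC Φ (pN 1 (toO (r + 1) W Q)))) =
          C₁ * (2 ^ W * ρ) * csC Φ (pN 1 (toO (r + 1) W Q)) := by ring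
      rw [e1]
      exact mul_le_mul_of_nonneg_right hρ' h1pos.le)
  rw [hΦ] at j1 j2 j3
  refine ⟨j, pN_deg j D hQd, ?_, ?_, fun i => ?_⟩
  · rw [pN_pN, add_comm 1 j]
    exact j1
  · rw [pN_pN, add_comm 1 j]
    exact j2
  · rw [pN_pN, pN_pN, add_comm 1 j, show i + 1 + j = j + 1 + i by ring]
    exact j3 i

/-- **The equation for affine polynomials.** -/
theorem csq_aff (r D K : ℕ) : ∃ (C : ℝ) (E : ℕ), 1 ≤ C ∧ ∀ (W P₀ : ℕ) (g g'' : ℕ → ℕ)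
    (P P' : ℕ → PN) (Q : PN) (ρ S ρ' R : ℝ), TriN P → TriN P' →
    (∀ i, (P i).totalDegree ≤ K) → (∀ i, (P' i).totalDegree ≤ K) → P' (r + 1) = P (r + 1) →
    W ≤ P₀ → (∀ i < r + 1, wid W g'' i ≤ P₀) → 0 < ρ → 1 ≤ R →
    (∀ b, Bxr 2 (wid W g'') P' (r + 1) b → Bxr R (wid W g) P (r + 1) b) →
    (∀ b, Bxr 2 (wid W g) P (r + 1) b → Bxr 2 (wid W g'') P' (r + 1) b) →
    Jet r D (wid W g) P Q ρ S → C * R ^ E * (2 ^ W * ρ) ≤ ρ' →
    ∃ j, CsQ r D W P₀ g'' P' (pN j (toO (r + 1) W Q)) ρ' := by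
  obtain ⟨C₁, hC₁, h1⟩ := csq_of r D K
  obtain ⟨K', hK'⟩ : ∃ K', K' = K + (K + 1) * D := ⟨_, rfl⟩
  obtain ⟨C₂, hC₂, h2⟩ := dil (r + 1) K'
  refine ⟨C₁ * C₂, K' * (K' + 1) ^ (r + 1 + 1), one_le_mul_of_one_le_of_one_le hC₁ hC₂, ?_⟩
  intro W P₀ g g'' P P' Q ρ S ρ' R hP hP' hK hK2 heq hWP hw hρ hR hb1 hb2 hJ hρ'
  obtain ⟨X, hX⟩ : ∃ X : ℝ, X = R ^ (K' * (K' + 1) ^ (r + 1 + 1)) := ⟨_, rfl⟩
  have hX1 : 1 ≤ X := by
    rw [hX]
    exact one_le_pow₀ hR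
  rw [← hX] at hρ'
  have hlf : ∀ b, lfpt r P' b = lfpt r P b := fun b => by
    unfold lfpt
    rw [heq]
  refine h1 W P₀ g'' P' Q (C₂ * X * ρ) S ρ' hP' (fun i _ => hK2 i) hWP hw (by positivity)
    hJ.pos hJ.deg hJ.vars ?_ (fun b hb => ?_) ?_
  · obtain ⟨b, hb, hbS⟩ := hJ.att
    exact ⟨b, hb2 b hb, by rw [hlf, hbS]⟩
  · have h3 := h2 P (wid W g) (bind₁ (lsb r P) Q) (r + 1) (ρ * S) R hP (fun j =>
      (hK j).trans (by omega)) le_rfl (vars_lsb hP hJ.vars) ((deg_lsb (hK _) hJ.deg).trans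
        (by omega)) hR (fun x hx => by
        rw [eval_lsb]
        have h4 := hJ.jet x (hx.mono (by norm_num) le_rfl) 0
        rw [pow_zero, one_mul] at h4
        exact h4) b (hb1 b hb)
    rw [eval_lsb, ← hX] at h3
    rw [hlf]
    refine h3.trans (le_of_eq ?_)
    ring
  · refine le_trans (le_of_eq ?_) hρ'
    ring

variable {m J : ℕ}

/-- **The equations of the labels with affine polynomials**, from the jets. -/
theorem jetB (r D K : ℕ) (hr : 2 ≤ r) : ∃ (C : ℝ) (E : ℕ), 1 ≤ C ∧ ∀ {m J : ℕ} {F : Fam m J}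
    {c : ℕ → Fin m} {W sg : ℕ} {g g'' : ℕ → ℕ} {L L' b R δ : ℝ} {B B' : F.Ω → Prop} {V : Type}
    {z : PtT F → V} {z' : LnT F → V} {P P' : V → ℕ → PN} {a : V → Fin 3 → ℝ} {P₀ : ℕ}
    (Q : V → PN) (T : V → ℝ) (k : V → ℕ),
    NLabW F c r W sg g K L B z z' P → LabB F c r W sg g g'' K L' b B' z z' P P' a R δ → Sub B' B →
    W ≤ P₀ → P₀ ≤ g r → (∀ i < r + 1, wid W g i ≤ P₀) →
    (∀ ω, B ω → Jet r D (wid W g) (P (z (ptr F J ω))) (Q (z (ptr F J ω)))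
      (2 ^ k (z (ptr F J ω)) / 2 ^ g r) (T (z (ptr F J ω)))) →
    ∃ (Qh : V → MvPolynomial (Option (Fin (r + 1))) ℝ) (ρ : V → ℝ),
      (∀ v, ρ v = C * R ^ E * 2 ^ k v / ((2 ^ (P₀ - W) : ℕ) : ℝ)) ∧
      (∀ ω, B' ω → CsQ r D W P₀ g'' (P' (z (ptr F J ω))) (Qh (z (ptr F J ω)))
        (ρ (z (ptr F J ω)))) ∧
      ∀ ω, B' ω → 1 ≤ ((2 ^ (P₀ - W) : ℕ) : ℝ) * ρ (z (ptr F J ω)) := by
  classical
  obtain ⟨C, E, hC, hj⟩ := csq_aff r D K
  refine ⟨C, E, hC, ?_⟩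
  intro m J F c W sg g g'' L L' b R δ B B' V z z' P P' a P₀ Q T k hN hB hBB hWP hgP hw hJ
  have hM0 : (0 : ℝ) < ((2 ^ (P₀ - W) : ℕ) : ℝ) := by positivity
  have hR1 : 1 ≤ R := by linarith [hB.R4]
  have hRE : (1 : ℝ) ≤ R ^ E := one_le_pow₀ hR1
  have hw' : ∀ i < r + 1, wid W g'' i ≤ P₀ := by
    intro i hi
    refine le_trans ?_ (hw i hi)
    unfold wid
    split_ifs
    · exact le_rfl
    · exact hB.gle _
  have h1 : ∀ v, ∃ Rr : MvPolynomial (Option (Fin (r + 1))) ℝ,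
      (∃ ω, B' ω ∧ z (ptr F J ω) = v) →
      CsQ r D W P₀ g'' (P' v) Rr (C * R ^ E * 2 ^ k v / ((2 ^ (P₀ - W) : ℕ) : ℝ)) := by
    intro v
    by_cases hv : ∃ ω, B' ω ∧ z (ptr F J ω) = v
    · obtain ⟨ω, hω, rfl⟩ := hv
      obtain ⟨j, h2⟩ := hj W P₀ g g'' (P (z (ptr F J ω))) (P' (z (ptr F J ω)))
        (Q (z (ptr F J ω))) (2 ^ k (z (ptr F J ω)) / 2 ^ g r) (T (z (ptr F J ω)))
        (C * R ^ E * 2 ^ k (z (ptr F J ω)) / ((2 ^ (P₀ - W) : ℕ) : ℝ)) R (hN.tri _)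
        (hB.lab.tri _) (fun i => hN.deg _ i) (fun i => hB.lab.deg _ i)
        (hB.eqP _ _ (by omega)) hWP hw' (by positivity) hR1
        (fun x hx => hB.bx ω hω x (hx.mono (by norm_num) le_rfl)) (hB.bx' ω hω)
        (hJ ω (hBB ω hω)) (by
          have e1 : ((2 ^ (P₀ - W) : ℕ) : ℝ) = 2 ^ P₀ / 2 ^ W := by
            push_cast
            exact two_pow_sub hWP
          rw [e1, mul_div_assoc]
          refine mul_le_mul_of_nonneg_left ?_ (by positivity)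
          have e2 : (2 : ℝ) ^ k (z (ptr F J ω)) / (2 ^ P₀ / 2 ^ W) =
              2 ^ W * (2 ^ k (z (ptr F J ω)) / 2 ^ P₀) := by
            field_simp
          rw [e2]
          refine mul_le_mul_of_nonneg_left ?_ (by positivity)
          exact div_le_div_of_nonneg_left (by positivity) (by positivity)
            (pow_le_pow_right₀ one_le_two hgP))
      exact ⟨_, fun _ => h2⟩
    · exact ⟨0, fun h => absurd h hv⟩
  choose Qh hQh using h1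
  refine ⟨Qh, fun v => C * R ^ E * 2 ^ k v / ((2 ^ (P₀ - W) : ℕ) : ℝ), fun v => rfl,
    fun ω hω => hQh _ ⟨ω, hω, rfl⟩, fun ω _ => ?_⟩
  have e1 : ((2 ^ (P₀ - W) : ℕ) : ℝ) * (C * R ^ E * 2 ^ k (z (ptr F J ω)) /
      ((2 ^ (P₀ - W) : ℕ) : ℝ)) = C * R ^ E * 2 ^ k (z (ptr F J ω)) := by
    field_simp
  rw [e1]
  exact one_le_mul_of_one_le_of_one_le (one_le_mul_of_one_le_of_one_le hC hRE)
    (one_le_pow₀ one_le_two)

end Pool.PLA
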