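import Pool.Agent.H1.PLN.Jtx
import Pool.Agent.H81.PM.LabM
import Pool.Agent.H53.JM.LabT

/-!
# The labels of a member, with the height: existence

`nlab_drop`: a closed label for `r + 1` coordinates is a closed label for the first `i + 1` ones.
`mlab_mk`: the labels of one member. `labN_of`: the labels of lemma PLANE and of the height exist,
from the labels at two windows (`Pool.JPN.lab2D`).
-/

set_option autoImplicit false

namespace Pool.PLN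

open Finset Real MvPolynomial
open Pool.Agent.H49.Ent Pool.Agent.H32.Dense Pool.STK Pool.KA Pool.KSAT Pool.K2S Pool.PB Pool.STAT
  Pool.GEN Pool.S6C Pool.M3F Pool.CLO37
open Pool.STAT.CLO (Bxr)
open Pool.CHT (bas_ev)
open Pool.PLA (LabA LabB lab_clsB jetB ext_box wid_zero wid_succ pe_two big_ex)
open Pool.PM (MNum)
open Pool.PM81 (MLab LabN)
open Pool.JPN (LbX LbW NuW)
open Pool.GEO (CsQ)
open Pool.FLF (Fam.sub)
open Pool.R1 (TwoW)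
open Pool.CHT (tmH_of_reg)

variable {m J : ℕ}

/-- **Fewer coordinates.** -/
theorem nlab_drop {F : Fam m J} {c : ℕ → Fin m} {r W sg : ℕ} {g : ℕ → ℕ} {K : ℕ} {L : ℝ}
    {B : F.Ω → Prop} {V : Type} {z : PtT F → V} {z' : LnT F → V} {P : V → ℕ → PN}
    (h : NLabW F c r W sg g K L B z z' P) {i : ℕ} (hi : i < r) :
    NLabW F c i W 0 g K L B z z' P where
  deg := h.deg
  tri := h.tri
  cls := h.cls
  zero := h.zero
  pos ω hω j hj := h.pos ω hω j (by omega)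
  posN ω hω := by
    have h1 := h.pos ω hω i hi
    rw [pow_zero, div_one]
    have h2 : (0 : ℝ) ≤ 1 / 2 ^ J := by positivity
    linarith
  grad ω hω b hb j hj l hl := by
    obtain ⟨b', h1, h2⟩ := ext_box (h.tri (z (ptr F J ω))) (wid W g) (by norm_num) (r + 1) hb
    have h3 := h.grad ω hω b' h1 j (by omega) l hl
    have h4 : eval b' (pderiv l (P (z (ptr F J ω)) j)) =
        eval b (pderiv l (P (z (ptr F J ω)) j)) := by
      exact Pool.SYS35.eval_congr ((Pool.GEO.vars_pd _ _).trans (h.tri _ j)) fun k hk =>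
        h2 k (by omega)
    rwa [h4] at h3

/-- A label with larger constants, on a smaller event, together with another closed label. -/
theorem nlab_pair {F : Fam m J} {c : ℕ → Fin m} {r W sg : ℕ} {g : ℕ → ℕ} {K K' : ℕ} {L L' : ℝ}
    {B B' : F.Ω → Prop} {V : Type} {z : PtT F → V} {z' : LnT F → V} {P : V → ℕ → PN}
    (h : NLabW F c r W sg g K L B z z' P) (hK : K ≤ K') (hL : L ≤ L') (hB : Sub B' B)
    {U : Type} {y : PtT F → U} {y' : LnT F → U}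
    (hy : ∀ ω, B' ω → y (ptr F J ω) = y' (slam F W ω)) :
    NLabW F c r W sg g K' L' B' (fun ξ => (z ξ, y ξ)) (fun s => (z' s, y' s))
      (fun v => P v.1) where
  deg v i := (h.deg v.1 i).trans hK
  tri v := h.tri v.1
  cls ω hω := Prod.ext (h.cls ω (hB ω hω)) (hy ω hω)
  zero ω hω := h.zero ω (hB ω hω)
  pos ω hω := h.pos ω (hB ω hω)
  posN ω hω := h.posN ω (hB ω hω)
  grad ω hω b hb j hj l hl := (h.grad ω (hB ω hω) b hb j hj l hl).trans hL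

theorem nlab_mono {F : Fam m J} {c : ℕ → Fin m} {r W sg : ℕ} {g : ℕ → ℕ} {K K' : ℕ} {L L' : ℝ}
    {B B' : F.Ω → Prop} {V : Type} {z : PtT F → V} {z' : LnT F → V} {P : V → ℕ → PN}
    (h : NLabW F c r W sg g K L B z z' P) (hK : K ≤ K') (hL : L ≤ L') (hB : Sub B' B) :
    NLabW F c r W sg g K' L' B' z z' P where
  deg v i := (h.deg v i).trans hK
  tri v := h.tri v
  cls ω hω := h.cls ω (hB ω hω)
  zero ω hω := h.zero ω (hB ω hω)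
  pos ω hω := h.pos ω (hB ω hω)
  posN ω hω := h.posN ω (hB ω hω)
  grad ω hω b hb j hj l hl := (h.grad ω (hB ω hω) b hb j hj l hl).trans hL

/-- The numbers of the labels of one window. -/
structure NumL (J r : ℕ) (b δ : ℝ) (β : ℕ → ℝ) (g₂ g'' : ℕ → ℕ) : Prop where
  lo : ∀ l < r, β l * J ≤ g₂ l + 2 * δ * J
  hi : ∀ l < r, (g₂ l : ℝ) ≤ (β l + δ) * J
  le : ∀ l, g'' l ≤ g₂ l
  ge : ∀ l, (g₂ l : ℝ) ≤ g'' l + b * J
  eq : ∀ l, 2 ≤ l → g'' l = g₂ l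

theorem NumL.num {J r : ℕ} {φ b δ : ℝ} {β : ℕ → ℝ} {g₂ g'' : ℕ → ℕ}
    (h : NumL J r b δ β g₂ g'') (hb : b + 2 * δ ≤ φ) (hb0 : 0 ≤ b) (hδ : 0 ≤ δ) {l : ℕ}
    (hl : l < r) : |(g'' l : ℝ) - β l * J| ≤ φ * J := by
  have h1 := h.lo l hl
  have h2 := h.hi l hl
  have h3 := h.ge l
  have h4 : (g'' l : ℝ) ≤ g₂ l := by exact_mod_cast h.le l
  have hJ : (0 : ℝ) ≤ J := Nat.cast_nonneg J
  have h5 := mul_le_mul_of_nonneg_right hb hJ
  have h6 : 0 ≤ b * J := by positivity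
  have h7 : 0 ≤ δ * J := by positivity
  rw [abs_le]
  constructor <;> linarith

theorem NumL.win {J r W kap : ℕ} {w b δ : ℝ} {β : ℕ → ℝ} {g₂ g'' : ℕ → ℕ}
    (h : NumL J r b δ β g₂ g'') (hW : (W : ℝ) ≤ w * J) (hβ : ∀ l < r, w ≤ β l)
    (hk : (b + 2 * δ) * J ≤ kap) {i : ℕ} (hi : i < r + 1) : W ≤ wid W g'' i + kap := by
  unfold wid
  by_cases h0 : i = 0
  · rw [if_pos h0]
    exact Nat.le_add_right _ _
  · rw [if_neg h0]
    have h1 := h.lo (i - 1) (by omega)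
    have h3 := h.ge (i - 1)
    have hJ : (0 : ℝ) ≤ J := Nat.cast_nonneg J
    have h5 := mul_le_mul_of_nonneg_right (hβ (i - 1) (by omega)) hJ
    have h6 : (W : ℝ) ≤ ((g'' (i - 1) + kap : ℕ) : ℝ) := by
      push_cast
      linarith
    exact_mod_cast h6

/-- The numbers of `LbX`. -/
theorem numL_of {J r sg sh sh₂ : ℕ} {β β' : ℕ → ℝ} {pN sr EE δ : ℝ} {e EN kk : ℕ}
    {g g₁ g₂ g'' : ℕ → ℕ} {L b : ℝ} (h : NuW J r sg sh sh₂ β pN sr EE δ e EN kk g g₁ g₂ L)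
    (hβ : ∀ l < r, β l = β' l)
    (hsh : (sh : ℝ) ≤ δ * J) (h1 : ∀ l, g'' l ≤ g₂ l) (h2 : ∀ l, (g₂ l : ℝ) ≤ g'' l + b * J)
    (h3 : ∀ l, 2 ≤ l → g'' l = g₂ l) : NumL J r b δ β' g₂ g'' := by
  refine ⟨fun l hl => ?_, fun l hl => ?_, h1, h2, h3⟩
  · have k1 : (g₂ l : ℝ) + sh = g l := by exact_mod_cast h.g2 l hl
    have k2 := abs_le.1 (h.gV l hl)
    rw [hβ l hl] at k2
    linarith [k2.1]
  · have k1 : (g₂ l : ℝ) + sh = g l := by exact_mod_cast h.g2 l hl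
    have k2 := abs_le.1 (h.gV l hl)
    rw [hβ l hl] at k2
    have k3 : (0 : ℝ) ≤ sh := Nat.cast_nonneg sh
    linarith [k2.2]

theorem lab_sub {r W sg : ℕ} {g g'' : ℕ → ℕ} {K : ℕ} {L b R δ : ℝ} {F : Fam m J}
    {c : ℕ → Fin m} {B B' : F.Ω → Prop} {V : Type} {z : PtT F → V} {z' : LnT F → V}
    {P P' : V → ℕ → PN} {a : V → Fin 3 → ℝ}
    (h : LabB F c r W sg g g'' K L b B z z' P P' a R δ) (hB : Sub B' B) :
    LabB F c r W sg g g'' K L b B' z z' P P' a R δ where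
  lab := h.lab.sub hB
  dg := h.dg
  gle := h.gle
  gge := h.gge
  geq := h.geq
  L0 := h.L0
  L1 := h.L1
  pl := h.pl
  pos ω hω := h.pos ω (hB ω hω)
  siz ω hω := h.siz ω (hB ω hω)
  gs := h.gs
  R4 := h.R4
  Rb := h.Rb
  eqP := h.eqP
  bx ω hω := h.bx ω (hB ω hω)
  bx' ω hω := h.bx' ω (hB ω hω)

/-- The conditions of the numbers. -/
structure NumC (N : MNum) : Prop where
  w0 : 0 < N.w0
  w01 : N.w0 < N.w1
  w1 : N.w1 < 1
  s : N.s = 0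
  s0 : N.s0 = 0
  gw : ∀ l < 3, N.w1 ≤ N.g l
  gw0 : ∀ l < 3, N.w0 ≤ N.g0 l
  gs : ∀ l < 2, N.g l ≤ N.g 2
  gs0 : ∀ l < 2, N.g0 l ≤ N.g0 2
  top : N.g 2 < 1
  top0 : N.g0 2 < 1
  gN : ∀ l < 3, N.g l < N.gN
  wN : N.w1 ≤ N.gN
  sN : 0 ≤ N.sN

/-- Sorted numbers. -/
theorem NumL.srt {J r : ℕ} {b δ δ' : ℝ} {β : ℕ → ℝ} {g₂ g'' : ℕ → ℕ}
    (h : NumL J r b δ β g₂ g'') (hr : 2 < r) (hδ : 3 * δ ≤ δ')
    (hg : ∀ j < 2, (g'' j : ℝ) + δ' * J ≤ g₂ j) (hβ : ∀ l < 2, β l ≤ β 2) {l : ℕ} (hl : l < 2) :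
    g'' l ≤ g'' 2 := by
  have hJ : (0 : ℝ) ≤ J := Nat.cast_nonneg J
  have h1 := h.hi l (by omega)
  have h2 := h.lo 2 hr
  have h3 := hg l hl
  have h4 := mul_le_mul_of_nonneg_right (hβ l hl) hJ
  have h5 := mul_le_mul_of_nonneg_right hδ hJ
  have h6 : (g'' l : ℝ) ≤ g₂ 2 := by linarith
  rw [h.eq 2 le_rfl]
  exact_mod_cast h6

theorem NumL.le_of {J r n : ℕ} {b δ x : ℝ} {β : ℕ → ℝ} {g₂ g'' : ℕ → ℕ}
    (h : NumL J r b δ β g₂ g'') {l : ℕ} (hl : l < r) (hx : β l + δ ≤ x) (hn : x * J ≤ n) :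
    g₂ l ≤ n := by
  have hJ : (0 : ℝ) ≤ J := Nat.cast_nonneg J
  have h1 := h.hi l hl
  have h2 := mul_le_mul_of_nonneg_right hx hJ
  have h3 : (g₂ l : ℝ) ≤ n := by linarith
  exact_mod_cast h3

/-- The conditions of the losses of one member. -/
structure LosC (N : MNum) (φ b δ δ0 δ1 : ℝ) (E J : ℕ) (C : ℝ) (kap : ℕ) : Prop where
  b0 : 0 ≤ b
  d0 : 0 ≤ δ
  bd : b + 3 * δ ≤ φ / 2
  kl : (b + 3 * δ) * J ≤ kap
  ku : (kap : ℝ) ≤ φ * J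
  d10 : 3 * δ ≤ δ0
  d11 : 3 * δ ≤ δ1
  top : N.g 2 + δ ≤ 1
  top0 : N.g0 2 + δ ≤ 1
  gN : ∀ l < 3, N.g l + 2 * δ ≤ N.gN
  C1 : Real.log C ≤ φ / 4 * J
  Eb : E * b ≤ φ / 4
  dφ : δ ≤ φ / 4

open Classical in
/-- **The labels of one member.** -/
theorem mlab_mk (K0 K1 Dq : ℕ) : ∃ (C : ℝ) (E : ℕ), 1 ≤ C ∧ ∀ {m J : ℕ} {N : MNum}
    {φ b δ δ0 δ1 : ℝ} {kap : ℕ} {F : Fam m J} {c : ℕ → Fin m} {B B' : F.Ω → Prop}
    {sg0 sh0 sh20 : ℕ} {β0 β1 : ℕ → ℝ} {p0 r0 ee0 ee1 : ℝ} {e0 EN0 kk0 : ℕ}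
    {ga0 gb0 g0 g0'' : ℕ → ℕ} {L0 L0'' R0 : ℝ} {V0 : Type} {z0 : PtT F → V0} {z0' : LnT F → V0}
    {P0 P0' : V0 → ℕ → PN} {a0 : V0 → Fin 3 → ℝ}
    {sh1 sh21 : ℕ} {e1 EN1 kk1 : ℕ}
    {ga1 gb1 g1 g1'' : ℕ → ℕ} {L1 L1'' R1 : ℝ} {V1 : Type} {z1 : PtT F → V1} {z1' : LnT F → V1}
    {P1 P1' : V1 → ℕ → PN} {a1 : V1 → Fin 3 → ℝ} (Q : V1 → PN) (T : V1 → ℝ) (k : V1 → ℕ),
    NumC N → LosC N φ b δ δ0 δ1 E J C kap → (∀ l < 3, β0 l = N.g0 l) → (∀ l < 3, β1 l = N.g l) →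
    (sh0 : ℝ) ≤ δ * J → (sh1 : ℝ) ≤ δ * J →
    NuW J 3 sg0 sh0 sh20 β0 p0 r0 ee0 δ e0 EN0 kk0 ga0 gb0 g0 L0 →
    NuW J 3 ⌊N.sN * J⌋₊ sh1 sh21 β1 N.P1 N.gN ee1 δ e1 EN1 kk1 ga1 gb1 g1 L1 →
    NLabW F c 3 ⌊N.w1 * J⌋₊ ⌊N.sN * J⌋₊ g1 K1 L1 B z1 z1' P1 → Sub B' B →
    (∀ ω, B ω → Jet 3 Dq (wid ⌊N.w1 * J⌋₊ g1) (P1 (z1 (ptr F J ω))) (Q (z1 (ptr F J ω)))
      (2 ^ k (z1 (ptr F J ω)) / 2 ^ g1 3) (T (z1 (ptr F J ω)))) →
    (∀ ω, B ω → k (z1 (ptr F J ω)) ≤ kk1) →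
    LabB F c 3 ⌊N.w0 * J⌋₊ sg0 g0 g0'' K0 L0'' b B' z0 z0' P0 P0' a0 R0 δ0 →
    LabB F c 3 ⌊N.w1 * J⌋₊ ⌊N.sN * J⌋₊ g1 g1'' K1 L1'' b B' z1 z1' P1 P1' a1 R1 δ1 →
    Nonempty (MLab N φ (max K0 K1) Dq F c B') := by
  obtain ⟨C, E, hC, hjet⟩ := Pool.PLA.jetB 3 Dq K1 (by norm_num)
  refine ⟨C, E, hC, ?_⟩
  intro m J N φ b δ δ0 δ1 kap F c B B' sg0 sh0 sh20 β0 β1 p0 r0 ee0 ee1 e0 EN0 kk0 ga0 gb0 g0 g0''
    L0 L0'' R0 V0 z0 z0' P0 P0' a0 sh1 sh21 e1 EN1 kk1 ga1 gb1 g1 g1'' L1 L1'' R1 V1 z1 z1' P1 P1'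
    a1 Q T k hN hC' hβ0 hβ1 hsh0 hsh1 n0 n1 hl1 hBB hJ hk A0 A1
  have hJ0 : (0 : ℝ) ≤ J := Nat.cast_nonneg J
  have hb := hC'.b0
  have hδ := hC'.d0
  have hφ : b + 2 * δ ≤ φ := by
    have := hC'.bd
    linarith
  have hφ0 : 0 ≤ φ := by linarith
  have hbφ : b ≤ φ := by linarith
  have hδφ : δ ≤ φ := by linarith
  have hX : b * J ≤ φ * J := mul_le_mul_of_nonneg_right hbφ hJ0
  have hkap : (b + 2 * δ) * J ≤ kap := by
    have h1 : 0 ≤ δ * J := by positivity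
    linarith [hC'.kl]
  have q0 := numL_of n0 hβ0 hsh0 A0.gle A0.gge A0.geq
  have q1 := numL_of n1 hβ1 hsh1 A1.gle A1.gge A1.geq
  have hw1 : 0 < N.w1 := hN.w0.trans hN.w01
  have hW0 : (⌊N.w0 * J⌋₊ : ℝ) ≤ N.w0 * J := Nat.floor_le (mul_nonneg hN.w0.le hJ0)
  have hW1 : (⌊N.w1 * J⌋₊ : ℝ) ≤ N.w1 * J := Nat.floor_le (mul_nonneg hw1.le hJ0)
  have hW01 : ⌊N.w0 * J⌋₊ ≤ ⌊N.w1 * J⌋₊ :=
    Nat.floor_le_floor (mul_le_mul_of_nonneg_right hN.w01.le hJ0)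
  have hW1J : ⌊N.w1 * J⌋₊ ≤ J := by
    have h1 : (⌊N.w1 * J⌋₊ : ℝ) ≤ J := hW1.trans (by nlinarith [hN.w1])
    exact_mod_cast h1
  -- the height
  have hG3 : g1'' 3 = g1 3 := A1.geq 3 (by norm_num)
  have hlow : (N.gN - δ) * J ≤ g1 3 := n1.g2l
  have hupp : (g1 3 : ℝ) ≤ (N.gN + δ) * J := by
    have h1 : (g1 3 : ℝ) + sh21 = gb1 3 := by exact_mod_cast n1.g2N
    have h2 : (gb1 3 : ℝ) ≤ ga1 3 + ⌊N.sN * J⌋₊ := by exact_mod_cast n1.g1N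
    have h3 : (⌊N.sN * J⌋₊ : ℝ) ≤ N.sN * J := Nat.floor_le (mul_nonneg hN.sN hJ0)
    have h4 := (abs_le.1 n1.gN).2
    have h5 : (0 : ℝ) ≤ sh21 := Nat.cast_nonneg _
    have h6 : (N.gN + δ) * J = (N.P1 * J + δ * J) + N.sN * J := by
      unfold MNum.P1
      ring
    rw [h6]
    linarith
  have htop3 : g1 3 ≤ J := by
    have h1 : g1 3 ≤ gb1 3 := by
      have := n1.g2N
      omega
    exact h1.trans n1.g1J
  have hg3 : ∀ l < 3, g1 l ≤ g1 3 := by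
    intro l hl
    refine q1.le_of hl (x := N.gN - δ) (by linarith [hC'.gN l hl]) hlow
  have hw3 : ⌊N.w1 * J⌋₊ ≤ g1 3 := by
    have h1 : (⌊N.w1 * J⌋₊ : ℝ) ≤ g1 3 := by
      refine hW1.trans (le_trans ?_ hlow)
      refine mul_le_mul_of_nonneg_right ?_ hJ0
      linarith [hC'.gN 0 (by norm_num), hN.gw 0 (by norm_num)]
    exact_mod_cast h1
  have hwid : ∀ i < 3 + 1, wid ⌊N.w1 * J⌋₊ g1 i ≤ g1 3 := by
    intro i hi
    unfold wid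
    split_ifs with h
    · exact hw3
    · exact hg3 (i - 1) (by omega)
  have hwid' : ∀ i < 3 + 1, wid ⌊N.w1 * J⌋₊ g1'' i ≤ g1 3 := by
    intro i hi
    refine le_trans ?_ (hwid i hi)
    unfold wid
    split_ifs with h
    · exact le_rfl
    · exact A1.gle _
  -- the equation
  obtain ⟨Qh, ρ, hρ, hcs, hge⟩ := hjet Q T k hl1 A1 hBB hw3 le_rfl hwid hJ
  have hL0 : L0'' ≤ max L0'' L1'' := le_max_left _ _
  have hL1 : L1'' ≤ max L0'' L1'' := le_max_right _ _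
  have hK0 : K0 ≤ max K0 K1 := le_max_left _ _
  have hK1 : K1 ≤ max K0 K1 := le_max_right _ _
  have hcl0 : ∀ ω, B' ω → z0 (ptr F J ω) =
      (fun s : LnT F => z0' (s.1, s.2.1, s.2.2 / 2 ^ (⌊N.w1 * J⌋₊ - ⌊N.w0 * J⌋₊)))
        (slam F ⌊N.w1 * J⌋₊ ω) := by
    intro ω hω
    show _ = z0' ((slam F ⌊N.w1 * J⌋₊ ω).1, (slam F ⌊N.w1 * J⌋₊ ω).2.1,
      (slam F ⌊N.w1 * J⌋₊ ω).2.2 / 2 ^ (⌊N.w1 * J⌋₊ - ⌊N.w0 * J⌋₊))
    rw [← slam_coarse F hW01 hW1J ω]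
    exact A0.lab.cls ω hω
  exact ⟨{
    V := V1 × V0
    V0 := V0
    z := fun ξ => (z1 ξ, z0 ξ)
    z' := fun s => (z1' s, z0' (s.1, s.2.1, s.2.2 / 2 ^ (⌊N.w1 * J⌋₊ - ⌊N.w0 * J⌋₊)))
    P := fun v => P1' v.1
    g' := g1''
    sg := 0
    zz := z0
    zz' := z0'
    P0 := P0'
    g0' := g0''
    sg0 := 0
    pr := Prod.snd
    kap := kap
    L := max L0'' L1''
    G0 := g0'' 1
    a := a0
    lab := nlab_pair (nlab_drop A1.lab (by norm_num)) hK1 hL1 (fun _ h => h) hcl0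
    lab0 := nlab_mono (nlab_drop A0.lab (by norm_num)) hK0 hL0 (fun _ h => h)
    prz := fun ω hω => rfl
    dg := fun v i hi => A1.dg v.1 i hi
    dg0 := fun v i hi => A0.dg v i hi
    num := fun l hl => q1.num hφ hb hδ (by omega)
    num0 := fun l hl => q0.num hφ hb hδ (by omega)
    nums := by
      rw [hN.s]
      simp only [Nat.cast_zero, zero_mul, sub_self, abs_zero]
      positivity
    nums0 := by
      rw [hN.s0]
      simp only [Nat.cast_zero, zero_mul, sub_self, abs_zero]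
      positivity
    numz := q0.num hφ hb hδ (by norm_num)
    top := by
      rw [A1.geq 2 le_rfl]
      exact q1.le_of (by norm_num) hC'.top (by rw [one_mul])
    top0 := by
      rw [A0.geq 2 le_rfl]
      exact q0.le_of (by norm_num) hC'.top0 (by rw [one_mul])
    srt := fun l hl => q1.srt (by norm_num) hC'.d11 A1.gs hN.gs hl
    srt0 := fun l hl => q0.srt (by norm_num) hC'.d10 A0.gs hN.gs0 hl
    win := fun i hi => q1.win hW1 hN.gw hkap (by omega)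
    win0 := fun i hi => q0.win hW0 hN.gw0 hkap (by omega)
    kapφ := hC'.ku
    L0 := A0.L0.trans hL0
    L1 := by
      rcases max_choice L0'' L1'' with h | h
      · rw [h]
        exact A0.L1.trans hX
      · rw [h]
        exact A1.L1.trans hX
    pos0 := fun ω hω => by
      have h1 := A0.pos ω hω (F.t ω) (by
        rw [sub_self, abs_zero]
        positivity)
      exact h1
    siz0 := fun ω hω i => (A0.siz ω hω i).trans (Real.exp_le_exp.2 hX)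
    gN := g1''
    lab3 := nlab_pair A1.lab hK1 hL1 (fun _ h => h) hcl0
    sg_eq := rfl
    gN_eq := fun i _ => rfl
    numN := by
      rw [hG3, abs_le]
      have h1 : δ * J ≤ φ * J := mul_le_mul_of_nonneg_right hδφ hJ0
      constructor <;> linarith
    topN := by
      rw [hG3]
      exact htop3
    winN := fun i hi => q1.win hW1 hN.gw hkap (by omega)
    Pr := g1 3
    Qh := fun v => Qh v.1
    rz := fun v => ρ v.1
    Pr_W := hw3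
    Pr_g := hG3.ge
    Pr_ge := by
      rw [hG3]
      have : 0 ≤ φ * J := by positivity
      linarith
    Pr_wid := fun i hi => hwid' i hi
    csq := fun ω hω => hcs ω hω
    rz_ge := fun ω hω => hge ω hω
    rz_le := fun ω hω => by
      show ((2 ^ (g1 3 - ⌊N.w1 * J⌋₊) : ℕ) : ℝ) * ρ (z1 (ptr F J ω)) ≤ _
      have hM : (0 : ℝ) < ((2 ^ (g1 3 - ⌊N.w1 * J⌋₊) : ℕ) : ℝ) := by positivity
      rw [hρ]
      have e1 : ((2 ^ (g1 3 - ⌊N.w1 * J⌋₊) : ℕ) : ℝ) * (C * R1 ^ E * 2 ^ k (z1 (ptr F J ω)) /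
          ((2 ^ (g1 3 - ⌊N.w1 * J⌋₊) : ℕ) : ℝ)) = C * R1 ^ E * 2 ^ k (z1 (ptr F J ω)) := by
        field_simp
      rw [e1]
      have hC0 : 0 < C := by linarith
      have hR0 : 0 ≤ R1 := by linarith [A1.R4]
      have f1 : C ≤ Real.exp (φ / 4 * J) := by
        rw [← Real.log_le_iff_le_exp hC0]
        exact hC'.C1
      have f2 : R1 ^ E ≤ Real.exp (φ / 4 * J) := by
        refine (pow_le_pow_left₀ hR0 A1.Rb E).trans ?_
        rw [← Real.exp_nat_mul]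
        refine Real.exp_le_exp.2 ?_
        have := mul_le_mul_of_nonneg_right hC'.Eb hJ0
        linarith
      have f3 : (2 : ℝ) ^ k (z1 (ptr F J ω)) ≤ Real.exp (φ / 4 * J) := by
        refine (Pool.PLA.two_le_exp _).trans (Real.exp_le_exp.2 ?_)
        have h1 : (k (z1 (ptr F J ω)) : ℝ) ≤ kk1 := by exact_mod_cast hk ω (hBB ω hω)
        have h2 := n1.kk_le
        have h3 := mul_le_mul_of_nonneg_right hC'.dφ hJ0
        linarith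
      have f4 : 0 < Real.exp (φ / 4 * J) := Real.exp_pos _
      calc C * R1 ^ E * 2 ^ k (z1 (ptr F J ω)) ≤
            Real.exp (φ / 4 * J) * Real.exp (φ / 4 * J) * Real.exp (φ / 4 * J) :=
            mul_le_mul (mul_le_mul f1 f2 (by positivity) f4.le) f3 (by positivity) (by positivity)
        _ = Real.exp (φ / 4 * J + φ / 4 * J + φ / 4 * J) := by
            rw [Real.exp_add, Real.exp_add]
        _ ≤ Real.exp (φ * J) := by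
            refine Real.exp_le_exp.2 ?_
            have : 0 ≤ φ * J := by positivity
            linarith }⟩

/-- A number below finitely many positive numbers. -/
theorem gap_ex (N : MNum) (hN : NumC N) : ∃ γ : ℝ, 0 < γ ∧ N.g 2 + γ ≤ 1 ∧ N.g0 2 + γ ≤ 1 ∧
    ∀ l < 3, N.g l + γ ≤ N.gN := by
  have h0 := hN.gN 0 (by norm_num)
  have h1 := hN.gN 1 (by norm_num)
  have h2 := hN.gN 2 (by norm_num)
  have h3 := hN.top
  have h4 := hN.top0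
  refine ⟨min (min (1 - N.g 2) (1 - N.g0 2)) (min (N.gN - N.g 0) (min (N.gN - N.g 1)
    (N.gN - N.g 2))), lt_min (lt_min (by linarith) (by linarith)) (lt_min (by linarith)
      (lt_min (by linarith) (by linarith))), ?_, ?_, fun l hl => ?_⟩
  · have := (min_le_left (min (1 - N.g 2) (1 - N.g0 2)) (min (N.gN - N.g 0) (min (N.gN - N.g 1)
      (N.gN - N.g 2)))).trans (min_le_left _ _)
    linarith
  · have := (min_le_left (min (1 - N.g 2) (1 - N.g0 2)) (min (N.gN - N.g 0) (min (N.gN - N.g 1)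
      (N.gN - N.g 2)))).trans (min_le_right _ _)
    linarith
  · have h5 := min_le_right (min (1 - N.g 2) (1 - N.g0 2)) (min (N.gN - N.g 0)
      (min (N.gN - N.g 1) (N.gN - N.g 2)))
    have h6 : l = 0 ∨ l = 1 ∨ l = 2 := by omega
    rcases h6 with h | h | h <;> subst h
    · have := h5.trans (min_le_left _ _)
      linarith
    · have := h5.trans ((min_le_right _ _).trans (min_le_left _ _))
      linarith
    · have := h5.trans ((min_le_right _ _).trans (min_le_right _ _))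
      linarith

/-- **The labels of a class exist**, from the labels at two windows. -/
theorem labN_of {S : PCl m} {c : ℕ → Fin m} {N : MNum} {K0 K1 Dq : ℕ} (hN : NumC N)
    (hpos : ∀ (τ : ℝ) (J : ℕ) (F : Fam m J) (A : F.Ω → Prop), S.St τ J F A → 0 < Pe F.p A)
    (hTm : ∀ ε : ℝ, 0 < ε → Bas S (fun J F A => ∀ h : 0 < Pe F.p A,
      (Fam.sub F A h).Tm (ε * J)))
    (hx : ∀ (τ : ℝ) (J : ℕ) (F : Fam m J) (A : F.Ω → Prop), S.St τ J F A →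
      ∀ ω i, |F.x ω i| ≤ 2)
    {Nc : ℚ → ℚ → ℝ} {al : ℝ} (hal : 0 < al) (hQ : ActQ Nc al) (hact : ActB Nc S (c 0))
    (hK0 : 1 ≤ K0) (hK1 : 1 ≤ K1) {D0 D1 sh0 sh20 sh1 sh21 Dq0 : ℕ} {S0 E0 S1 E1 : ℝ}
    {β0 β1 : ℕ → ℝ} {s0 p0 r0 ee0 ee1 : ℝ} (hβ0 : ∀ l < 3, β0 l = N.g0 l)
    (hβ1 : ∀ l < 3, β1 l = N.g l)
    (hlab : ∀ δ : ℝ, 0 < δ → ∃ K₁ : ℝ, 0 < K₁ ∧ Bas S (fun J F A => ∃ B : F.Ω → Prop,
      Sub B A ∧ Pe F.p A ≤ K₁ * Pe F.p B ∧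
      LbX F c 3 ⌊N.w0 * J⌋₊ ⌊s0 * J⌋₊ D0 sh0 sh20 K0 Dq0 S0 E0 β0 p0 r0 ee0 δ B ∧
      LbX F c 3 ⌊N.w1 * J⌋₊ ⌊N.sN * J⌋₊ D1 sh1 sh21 K1 Dq S1 E1 β1 N.P1 N.gN ee1 δ B)) :
    LabN S c N (max K0 K1) Dq := by
  intro φ hφ
  obtain ⟨C, E, hC, hmk⟩ := mlab_mk K0 K1 Dq
  obtain ⟨b, hb⟩ : ∃ b : ℝ, b = φ / (8 * (E + 1)) := ⟨_, rfl⟩
  have hE0 : (0 : ℝ) ≤ E := Nat.cast_nonneg E
  have hb0 : 0 < b := by
    rw [hb]
    positivity
  have hbE : (E + 1) * b = φ / 8 := by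
    rw [hb]
    field_simp
  have hb8 : b ≤ φ / 8 := by nlinarith
  obtain ⟨δ0, hδ0, h0⟩ := lab_clsB K0 hK0 (r := 3) (by norm_num) hpos hTm hx hal hQ hact hN.w0
    (hN.w01.trans hN.w1) hb0 (η := 1 / 4) (by norm_num)
  obtain ⟨δ1, hδ1, h1⟩ := lab_clsB K1 hK1 (r := 3) (by norm_num) hpos hTm hx hal hQ hact
    (hN.w0.trans hN.w01) hN.w1 hb0 (η := 1 / 4) (by norm_num)
  obtain ⟨γ, hγ, g1, g2, g3⟩ := gap_ex N hN
  obtain ⟨δ, hδ⟩ : ∃ δ : ℝ, δ = min (min (δ0 / 8) (δ1 / 8)) (min (φ / 16) (γ / 2)) := ⟨_, rfl⟩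
  have d0 : 0 < δ := by
    rw [hδ]
    exact lt_min (lt_min (by linarith) (by linarith)) (lt_min (by linarith) (by linarith))
  have d1 : δ ≤ δ0 / 8 := by
    rw [hδ]
    exact (min_le_left _ _).trans (min_le_left _ _)
  have d2 : δ ≤ δ1 / 8 := by
    rw [hδ]
    exact (min_le_left _ _).trans (min_le_right _ _)
  have d3 : δ ≤ φ / 16 := by
    rw [hδ]
    exact (min_le_right _ _).trans (min_le_left _ _)
  have d4 : δ ≤ γ / 2 := by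
    rw [hδ]
    exact (min_le_right _ _).trans (min_le_right _ _)
  obtain ⟨K₁, hK₁, hB⟩ := hlab δ d0
  have hKi : 0 < K₁⁻¹ := inv_pos.2 hK₁
  obtain ⟨J₁, hJ₁⟩ := big_ex (1 : ℝ) (s := φ / 2) (by linarith)
  obtain ⟨J₂, hJ₂⟩ := big_ex (Real.log C) (s := φ / 4) (by linarith)
  obtain ⟨J₃, hJ₃⟩ := big_ex (sh0 : ℝ) d0
  obtain ⟨J₄, hJ₄⟩ := big_ex (sh1 : ℝ) d0
  refine ⟨K₁⁻¹ / 2, by positivity, (hB.and ((bas_ev h0 hKi).and (bas_ev h1 hKi))).mono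
    (max (max J₁ J₂) (max J₃ J₄)) ?_⟩
  rintro J hJ F A ⟨⟨B, hBA, hPB, x0, x1⟩, h0, h1⟩
  have hJ0 : (0 : ℝ) ≤ J := Nat.cast_nonneg J
  have f1 := hJ₁ J ((le_max_left _ _).trans ((le_max_left _ _).trans hJ))
  have f2 := hJ₂ J ((le_max_right _ _).trans ((le_max_left _ _).trans hJ))
  have f3 := hJ₃ J ((le_max_left _ _).trans ((le_max_right _ _).trans hJ))
  have f4 := hJ₄ J ((le_max_right _ _).trans ((le_max_right _ _).trans hJ))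
  have hPB' : K₁⁻¹ * Pe F.p A ≤ Pe F.p B := by
    rw [inv_mul_le_iff₀ hK₁]
    exact hPB
  obtain ⟨e0, EN0, kk0, ga0, gb0, gc0, L0, G0, H0, V0, z0, z0', P0, Q0, T0, kf0, n0, l0⟩ := x0
  obtain ⟨e1, EN1, kk1, ga1, gb1, gc1, L1, G1, H1, V1, z1, z1', P1, Q1, T1, kf1, n1, l1⟩ := x1
  have q0 := numL_of (b := 0) (g'' := gc0) n0 hβ0 f3 (fun _ => le_rfl) (fun l => by
    rw [zero_mul, add_zero]) (fun _ _ => rfl)
  have q1 := numL_of (b := 0) (g'' := gc1) n1 hβ1 f4 (fun _ => le_rfl) (fun l => by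
    rw [zero_mul, add_zero]) (fun _ _ => rfl)
  have hW0 : (⌊N.w0 * J⌋₊ : ℝ) ≤ N.w0 * J := Nat.floor_le (mul_nonneg hN.w0.le hJ0)
  have hW1 : (⌊N.w1 * J⌋₊ : ℝ) ≤ N.w1 * J :=
    Nat.floor_le (mul_nonneg (hN.w0.trans hN.w01).le hJ0)
  have e0J : 2 * δ * J ≤ δ0 * J := mul_le_mul_of_nonneg_right (by linarith) hJ0
  have e1J : 2 * δ * J ≤ δ1 * J := mul_le_mul_of_nonneg_right (by linarith) hJ0
  have dJ : 0 ≤ δ * J := by positivity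
  have w0 : ∀ l < 3, (⌊N.w0 * J⌋₊ : ℝ) ≤ gc0 l + δ0 * J := by
    intro l hl
    have h2 := q0.lo l hl
    have h3 := mul_le_mul_of_nonneg_right (hN.gw0 l hl) hJ0
    linarith
  have w1 : ∀ l < 3, (⌊N.w1 * J⌋₊ : ℝ) ≤ gc1 l + δ1 * J := by
    intro l hl
    have h2 := q1.lo l hl
    have h3 := mul_le_mul_of_nonneg_right (hN.gw l hl) hJ0
    linarith
  have t0 : ∀ l < 2, gc0 l ≤ J := by
    intro l hl
    exact q0.le_of (by omega) (x := 1) (by linarith [hN.gs0 l hl]) (by rw [one_mul])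
  have t1 : ∀ l < 2, gc1 l ≤ J := by
    intro l hl
    exact q1.le_of (by omega) (x := 1) (by linarith [hN.gs l hl]) (by rw [one_mul])
  obtain ⟨B0, P0', g0'', L0'', a0, R0, s0, k0, A0⟩ := h0 B hBA hPB' gc0 _ L0 V0 z0 z0' P0
    (w0 0 (by norm_num)) (t0 0 (by norm_num)) (w0 1 (by norm_num)) (t0 1 (by norm_num)) n0.L0
    (n0.logL.trans (by linarith)) l0.nlab
  obtain ⟨B1, P1', g1'', L1'', a1, R1, s1, k1, A1⟩ := h1 B hBA hPB' gc1 _ L1 V1 z1 z1' P1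
    (w1 0 (by norm_num)) (t1 0 (by norm_num)) (w1 1 (by norm_num)) (t1 1 (by norm_num)) n1.L0
    (n1.logL.trans (by linarith)) l1.nlab
  have hpe := Pool.PLA.pe_two s0 s1 k0 k1
  refine ⟨fun ω => B0 ω ∧ B1 ω, fun ω hω => hBA ω (s0 ω hω.1), ?_, ?_⟩
  · have e1 : (1 - (1 / 4 + 1 / 4) : ℝ) = 1 / 2 := by norm_num
    rw [e1] at hpe
    calc K₁⁻¹ / 2 * Pe F.p A = 1 / 2 * (K₁⁻¹ * Pe F.p A) := by ring
      _ ≤ 1 / 2 * Pe F.p B := mul_le_mul_of_nonneg_left hPB' (by norm_num)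
      _ ≤ _ := hpe
  · refine hmk (kap := ⌈(b + 3 * δ) * J⌉₊) (b := b) Q1 T1 kf1 hN ⟨hb0.le, d0.le, by linarith,
      Nat.le_ceil _, ?_, by linarith, by linarith, by linarith, by linarith, fun l hl => by
        linarith [g3 l hl], f2, ?_, by linarith⟩ hβ0 hβ1 f3 f4 n0 n1 l1.nlab
        (fun ω hω => s0 ω hω.1) l1.jet l1.kle (lab_sub A0 fun ω hω => hω.1)
        (lab_sub A1 fun ω hω => hω.2)
    · refine (Nat.ceil_lt_add_one (by positivity)).le.trans ?_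
      have h2 : (b + 3 * δ) * J ≤ φ / 2 * J := mul_le_mul_of_nonneg_right (by linarith) hJ0
      linarith
    · nlinarith

/-- **The labels exist**, from the two windows of the row. The degree `Dq` is universal
(`Pool.JPN.m3d_ex`). -/
theorem labN_twoW {hn : 2 ≤ 4} {S : PCl 4} {P : ℝ → ℝ → ℝ} {ρ : ℝ → ℝ} {θ : ℝ}
    {PP : List (Fin 4) × Fin 4 → ℝ → ℝ → ℝ} {w₀ w₁ α : ℝ} {c₀ c : ℕ → Fin 4} {P1 cD : ℝ}
    {Dq : ℕ} (hM : Pool.JPN.M3D 3 Dq) (H : TwoW hn S P ρ θ PP w₀ w₁ α c₀ c P1 cD) (hc : c₀ = c)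
    {N : MNum} (hN : NumC N) (h0 : N.w0 = w₀) (h1 : N.w1 = w₁)
    (hg0 : ∀ l < 3, Pool.CHT.bet PP c l w₀ w₀ = N.g0 l)
    (hg : ∀ l < 3, Pool.CHT.bet PP c l w₁ w₁ = N.g l) (hgN : N.gN = 1 - cD / 2)
    (hsN : N.sN = 1 - cD / 2 - P1) : ∃ K : ℕ, 1 ≤ K ∧ LabN S c N K Dq := by
  subst hc
  obtain ⟨D, D', sh, sh₂, K', sh', sh₂', K'', S₀, E₀, S₀', E₀', -, hK', -, -, -, hK'', -, -, h⟩ :=
    Pool.JPN.lab2_twoD hM H
  obtain ⟨al, g₀, s, d, e, K₀, Nc, hal, hg₀, hnum, he, hC⟩ := H.cl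
  have hmem : ∀ (τ : ℝ) (J : ℕ) (F : Fam 4 J) (A : F.Ω → Prop), S.St τ J F A →
      F.Tr ∧ F.Tm (τ * J) ∧ F.Rb (τ * J) ∧ Real.exp (-(τ * J)) ≤ Pe F.p A := by
    intro τ J F A hA
    obtain ⟨k1, k2, k3, k4, -⟩ := hC.mem τ J F A hA
    exact ⟨k1, k2, k3, k4⟩
  have hS := tmH_of_reg hmem
  refine ⟨max K' K'', hK'.trans (le_max_left _ _), ?_⟩
  have hP1 : N.P1 = P1 := by
    unfold MNum.P1
    rw [hgN, hsN]
    ring
  refine labN_of hN hS.1 hS.2 (fun τ J F A hA ω i => ?_) hal (hC.actm.q hg₀)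
    (hC.actb _ H.act0) hK' hK'' hg0 hg (fun δ hδ => ?_)
    (D0 := D) (D1 := D') (sh0 := sh) (sh20 := sh₂) (sh1 := sh') (sh21 := sh₂') (Dq0 := Dq)
    (S0 := S₀) (E0 := E₀) (S1 := S₀') (E1 := E₀')
    (s0 := 1 - cD / 2 - P w₀ w₀) (p0 := P w₀ w₀) (r0 := 1 - cD / 2)
    (ee0 := 1 - cD / 2 - max (P w₀ w₀) (Pool.CHT.bet PP c₀ (4 - 2) w₀ w₀))
    (ee1 := 1 - cD / 2 - max P1 (Pool.CHT.bet PP c₀ (4 - 2) w₁ w₁))
  · obtain ⟨-, -, -, -, h5, -⟩ := hC.mem τ J F A hA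
    obtain ⟨⟨h6, h7⟩, h8, -, -⟩ := h5 ω i
    have h9 := F.dir ω i
    have h10 : F.t ω ≤ 1 := by
      unfold Fam.t
      rw [div_le_one (by positivity)]
      exact_mod_cast (F.tim ω).le
    have h11 : 0 ≤ F.t ω := by
      unfold Fam.t
      positivity
    rw [abs_le] at h9 ⊢
    unfold Fam.x
    constructor <;> nlinarith
  · obtain ⟨K₁, hK₁, hB⟩ := h δ δ hδ hδ
    refine ⟨K₁, hK₁, hB.mono 0 ?_⟩
    rintro J - F A ⟨B, b1, b2, b3, b4⟩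
    rw [h0, h1, hsN, hP1, hgN]
    exact ⟨B, b1, b2, b3, b4⟩

end Pool.PLN
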